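import Pool.Agent.Helper58K9.AR.Geo
import Pool.Agent.TH165.ACC.GMain

/-!
# General arrangement varieties: the ascending chain condition
-/

set_option autoImplicit false

namespace Pool.Agent.Helper58K9.AR

open Pool.Agent.TH165.ACC (IsDCC IsACC acc_union)

theorem dcc_insert {Γ : Set ℝ} (t : ℝ) (h : IsDCC Γ) : IsDCC (insert t Γ) := by
  intro u hu hmem
  by_cases h1 : ∃ K, ∀ k ≥ K, u k ∈ Γ
  · obtain ⟨K, hK⟩ := h1
    obtain ⟨K', hK'⟩ := h (fun k => u (k + K)) (fun a b hab => hu (Nat.add_le_add_right hab K))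
      fun k => hK _ (Nat.le_add_left _ _)
    refine ⟨K' + K, fun k hk => ?_⟩
    obtain ⟨j, rfl⟩ : ∃ j, k = j + K := ⟨k - K, by omega⟩
    exact hK' j (by omega)
  · push Not at h1
    obtain ⟨k0, hk0, hk0'⟩ := h1 0
    have e0 : u k0 = t := (hmem k0).resolve_right hk0'
    refine ⟨k0, fun k hk => ?_⟩
    obtain ⟨j, hj, hj'⟩ := h1 k
    have e1 : u j = t := (hmem j).resolve_right hj'
    exact le_antisymm (hu hk) (by rw [e0, ← e1]; exact hu hj)

theorem acc_mono {S S' : Set ℝ} (h : S ⊆ S') (h' : IsACC S') : IsACC S :=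
  fun u hu hmem => h' u hu fun k => h (hmem k)

theorem acc_comb (hrep : S_REP) (hlim : S_LIM) (c n : ℕ) {Γ : Set ℝ} (hΓ : IsDCC Γ) :
    IsACC {m | 0 ≤ m ∧ ∃ F : Fan n, IsComb c F Γ m} := by
  obtain ⟨R, hR⟩ := hrep c n Γ hΓ
  have h1 : IsACC {a | ∃ r ≤ R, a ∈ {a | ∃ s ≤ R, a ∈ prof r s
      (insert 0 (insert ((s : ℝ) - c) Γ))}} :=
    acc_union fun r _ => acc_union fun s _ => hlim r s _ (dcc_insert _ (dcc_insert _ hΓ))
  refine acc_mono ?_ h1
  rintro m ⟨h0, F, hF⟩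
  exact hR F m h0 hF

/-- **The ACC for general arrangement varieties.** -/
theorem arr_acc (hstep : S_STEP) (hty : S_TY) (hlow : S_LOW) (hcore : S_CORE) (hover : S_OVERP)
    (hint : S_INT) (honp : S_ONP) (hprim : S_PRIM) (hrep : S_REP) (hlim : S_LIM) (d : ℕ)
    (Γ : Set ℝ) (hΓ : IsDCC Γ) : IsACC {m | ∃ c n, 0 < c ∧ c + n = d ∧ m ∈ arrMlds c n Γ} := by
  have h1 : IsACC {a | ∃ c ≤ d, a ∈ {m | 0 ≤ m ∧ ∃ F : Fan (d - c), IsComb c F Γ m}} :=
    acc_union fun c _ => acc_comb hrep hlim c (d - c) hΓ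
  refine acc_mono ?_ h1
  rintro m ⟨c, n, hc, rfl, hm⟩
  refine ⟨c, Nat.le_add_right _ _, ?_⟩
  rw [Nat.add_sub_cancel_left]
  exact geo hstep hty hlow hcore hover hint honp hprim hc hm

end Pool.Agent.Helper58K9.AR
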