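import Pool.Agent.Helper58K9.AR.Stm2

/-!
# General arrangement varieties: [ADD] (helper38)
-/

set_option autoImplicit false

namespace Pool.Agent.Helper58K9.AR

open Pool.Agent.TH165.ACC (pr pr_add pr_smul)

namespace AddL

/-! ### Linear algebra -/

/-- a set of functionals which separates the points contains, around every independent set, a
separating set with as many elements as the dimension -/
theorem sel {L : Type} [AddCommGroup L] [Module ℚ L] [FiniteDimensional ℚ L] {N : ℕ}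
    (ψ : Fin N → Module.Dual ℚ L) (S0 : Set (Fin N)) (h0 : LinearIndepOn ℚ ψ S0)
    (hsep : ∀ x : L, (∀ i, ψ i x = 0) → x = 0) :
    ∃ T : Finset (Fin N), S0 ⊆ ↑T ∧ T.card = Module.finrank ℚ L ∧
      ∀ x : L, (∀ i ∈ T, ψ i x = 0) → x = 0 := by
  classical
  obtain ⟨b, -, hb1, hb2, hb3⟩ := exists_linearIndepOn_extension h0 (Set.subset_univ S0)
  have hsepb : ∀ x : L, (∀ i ∈ b, ψ i x = 0) → x = 0 := by
    intro x hx
    apply hsep
    intro i
    have h1 : ∀ φ ∈ Submodule.span ℚ (ψ '' b), φ x = 0 := by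
      intro φ hφ
      induction hφ using Submodule.span_induction with
      | mem y hy =>
        obtain ⟨j, hj, rfl⟩ := hy
        exact hx j hj
      | zero => rfl
      | add y z _ _ hy hz => rw [LinearMap.add_apply, hy, hz, add_zero]
      | smul a y _ hy => rw [LinearMap.smul_apply, hy, smul_zero]
    exact h1 _ (hb2 ⟨i, Set.mem_univ i, rfl⟩)
  refine ⟨b.toFinset, by simpa using hb1, ?_, fun x hx => hsepb x fun i hi => hx i (by simpa using hi)⟩
  rw [Set.toFinset_card]
  apply le_antisymm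
  · have h1 := LinearIndependent.fintype_card_le_finrank hb3
    rwa [Subspace.dual_finrank_eq] at h1
  · have h1 := LinearMap.finrank_le_finrank_of_injective
      (f := LinearMap.pi fun i : b => ψ i) (by
        rw [← LinearMap.ker_eq_bot, LinearMap.ker_eq_bot']
        intro x hx
        exact hsepb x fun i hi => congrFun hx ⟨i, hi⟩)
    rwa [Module.finrank_fintype_fun_eq_card] at h1

/-! ### Rational vectors -/

/-- rational vectors -/
abbrev V (q n : ℕ) : Type := (Fin q → ℚ) × (Fin n → ℚ)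

/-- integral vectors -/
abbrev U (q n : ℕ) : Type := (Fin q → ℤ) × (Fin n → ℤ)

variable {q n : ℕ}

/-- the inclusion -/
def io (z : U q n) : V q n := (fun y => (z.1 y : ℚ), fun j => (z.2 j : ℚ))

theorem io_add (a b : U q n) : io (a + b) = io a + io b := by
  unfold io
  ext <;> simp

theorem io_sub (a b : U q n) : io (a - b) = io a - io b := by
  unfold io
  ext <;> simp

theorem io_nsmul (k : ℕ) (a : U q n) : io (k • a) = (k : ℚ) • io a := by
  unfold io
  ext <;> simp

theorem io_zero : io (0 : U q n) = 0 := by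
  unfold io
  ext <;> simp

theorem io_inj {a b : U q n} (h : io a = io b) : a = b := by
  unfold io at h
  have h1 := congrArg Prod.fst h
  have h2 := congrArg Prod.snd h
  ext i
  · have h3 : ((a.1 i : ℤ) : ℚ) = (b.1 i : ℤ) := congrFun h1 i
    exact_mod_cast h3
  · have h3 : ((a.2 i : ℤ) : ℚ) = (b.2 i : ℤ) := congrFun h2 i
    exact_mod_cast h3

/-- multiples of the vectors in the span are differences of elements of the monoid -/
theorem rep (Z : AddSubmonoid (U q n)) (x : V q n)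
    (hx : x ∈ Submodule.span ℚ (io '' (Z : Set (U q n)))) :
    ∃ k : ℕ, 0 < k ∧ ∃ a ∈ Z, ∃ b ∈ Z, (k : ℚ) • x = io a - io b := by
  induction hx using Submodule.span_induction with
  | mem y hy =>
    obtain ⟨a, ha, rfl⟩ := hy
    exact ⟨1, one_pos, a, ha, 0, Z.zero_mem, by rw [io_zero, sub_zero, Nat.cast_one, one_smul]⟩
  | zero => exact ⟨1, one_pos, 0, Z.zero_mem, 0, Z.zero_mem, by simp⟩
  | add y z _ _ hy hz =>
    obtain ⟨k, hk, a, ha, b, hb, h1⟩ := hy
    obtain ⟨l, hl, a', ha', b', hb', h2⟩ := hz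
    refine ⟨k * l, Nat.mul_pos hk hl, l • a + k • a', Z.add_mem (Z.nsmul_mem ha l)
      (Z.nsmul_mem ha' k), l • b + k • b', Z.add_mem (Z.nsmul_mem hb l) (Z.nsmul_mem hb' k), ?_⟩
    rw [io_add, io_add, io_nsmul, io_nsmul, io_nsmul, io_nsmul]
    have e1 : ((k * l : ℕ) : ℚ) • (y + z) = (l : ℚ) • ((k : ℚ) • y) + (k : ℚ) • ((l : ℚ) • z) := by
      rw [smul_smul, smul_smul, smul_add]
      push_cast
      rw [mul_comm (l : ℚ) k]
    rw [e1, h1, h2]
    module
  | smul t y _ hy =>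
    obtain ⟨k, hk, a, ha, b, hb, h1⟩ := hy
    have e1 : ((k * t.den : ℕ) : ℚ) • (t • y) = (t.num : ℚ) • (io a - io b) := by
      rw [← h1, smul_smul, smul_smul]
      congr 1
      push_cast
      rw [← Rat.mul_den_eq_num t]
      ring
    rcases Int.natAbs_eq t.num with h2 | h2
    · obtain ⟨p, hp⟩ : ∃ p : ℕ, t.num = p := ⟨_, h2⟩
      refine ⟨k * t.den, Nat.mul_pos hk t.den_pos, p • a, Z.nsmul_mem ha _,
        p • b, Z.nsmul_mem hb _, ?_⟩
      rw [e1, io_nsmul, io_nsmul, ← smul_sub, hp, Int.cast_natCast]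
    · obtain ⟨p, hp⟩ : ∃ p : ℕ, t.num = -(p : ℤ) := ⟨_, h2⟩
      refine ⟨k * t.den, Nat.mul_pos hk t.den_pos, p • b, Z.nsmul_mem hb _,
        p • a, Z.nsmul_mem ha _, ?_⟩
      rw [e1, io_nsmul, io_nsmul, ← smul_sub, hp, Int.cast_neg, Int.cast_natCast]
      module

/-! ### The cone -/

variable {c : ℕ}

theorem vl_sum (F : Fan n) (T : Finset (Fin F.N)) (v : Fin n → ℤ) (s : Fin F.q → ℤ)
    (e : Fin F.q → ℤ) (m : Fin n → ℤ) :
    vl (v + ∑ i ∈ T, F.v i) (s + ∑ i ∈ T, F.sv i) e m = vl v s e m + ∑ i ∈ T, F.val i e m := by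
  classical
  induction T using Finset.induction_on with
  | empty => simp
  | insert i T hi ih =>
    rw [Finset.sum_insert hi, Finset.sum_insert hi, Finset.sum_insert hi,
      show v + (F.v i + ∑ i ∈ T, F.v i) = (v + ∑ i ∈ T, F.v i) + F.v i by abel,
      show s + (F.sv i + ∑ i ∈ T, F.sv i) = (s + ∑ i ∈ T, F.sv i) + F.sv i by abel, vl_add, ih,
      ← val_eq]
    ring

theorem Psi_sum (F : Fan n) (T : Finset (Fin F.N)) (u : Fin n → ℝ) (α : Fin F.q → ℝ)
    (h : ∀ i, Psi u α (F.v i) (F.sv i) ≤ 1) (v : Fin n → ℤ) (s : Fin F.q → ℤ) :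
    Psi u α (v + ∑ i ∈ T, F.v i) (s + ∑ i ∈ T, F.sv i) ≤ Psi u α v s + T.card := by
  classical
  induction T using Finset.induction_on with
  | empty => simp
  | insert i T hi ih =>
    rw [Finset.sum_insert hi, Finset.sum_insert hi,
      show v + (F.v i + ∑ i ∈ T, F.v i) = (v + ∑ i ∈ T, F.v i) + F.v i by abel,
      show s + (F.sv i + ∑ i ∈ T, F.sv i) = (s + ∑ i ∈ T, F.sv i) + F.sv i by abel, Psi_add,
      Finset.card_insert_of_notMem hi]
    push_cast
    linarith [h i]

/-- the characters with the value zero -/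
def Zs (F : Fan n) (v : Fin n → ℤ) (s : Fin F.q → ℤ) : AddSubmonoid (U F.q n) where
  carrier := {z | F.Mem z.1 z.2 ∧ vl v s z.1 z.2 = 0}
  add_mem' := by
    intro a b ha hb
    refine ⟨Mem_add ha.1 hb.1, ?_⟩
    show vl v s (a.1 + b.1) (a.2 + b.2) = 0
    rw [vl_add', ha.2, hb.2, add_zero]
  zero_mem' := ⟨Mem_zero F, vl_zero' v s⟩

/-- the functionals of the divisors -/
def fi (F : Fan n) (i : Fin F.N) : V F.q n →ₗ[ℚ] ℚ where
  toFun x := (F.mu i : ℚ) * x.1 (F.pt i) + ∑ j, x.2 j * (F.v i j : ℚ)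
  map_add' x y := by
    simp only [Prod.fst_add, Prod.snd_add, Pi.add_apply, add_mul, Finset.sum_add_distrib]
    ring
  map_smul' a x := by
    simp only [Prod.smul_fst, Prod.smul_snd, Pi.smul_apply, smul_eq_mul, RingHom.id_apply, mul_add,
      Finset.mul_sum]
    congr 1
    · ring
    · exact Finset.sum_congr rfl fun j _ => by ring

theorem fi_io (F : Fan n) (i : Fin F.N) (z : U F.q n) : fi F i (io z) = (F.val i z.1 z.2 : ℚ) := by
  show (F.mu i : ℚ) * (z.1 (F.pt i) : ℚ) + ∑ j, (z.2 j : ℚ) * (F.v i j : ℚ) = _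
  unfold Fan.val pr
  push_cast
  rfl

/-- the span -/
def Ls (F : Fan n) (v : Fin n → ℤ) (s : Fin F.q → ℤ) : Submodule ℚ (V F.q n) :=
  Submodule.span ℚ (io '' (Zs F v s : Set (U F.q n)))

theorem io_mem {F : Fan n} {v : Fin n → ℤ} {s : Fin F.q → ℤ} {z : U F.q n} (h : z ∈ Zs F v s) :
    io z ∈ Ls F v s := Submodule.subset_span ⟨z, h, rfl⟩

/-- the divisors separate the points of the span -/
theorem sep {F : Fan n} (hF : F.IsCone) (v : Fin n → ℤ) (s : Fin F.q → ℤ) (x : V F.q n)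
    (hx : x ∈ Ls F v s) (h : ∀ i, fi F i x = 0) : x = 0 := by
  obtain ⟨k, hk, a, ha, b, hb, h1⟩ := rep (Zs F v s) x hx
  rw [← io_sub] at h1
  have h2 : ∀ i, F.val i (a - b).1 (a - b).2 = 0 := by
    intro i
    have h3 := congrArg (fi F i) h1
    rw [map_smul, h i, smul_zero, fi_io] at h3
    exact_mod_cast h3.symm
  have h3 : ∑ y, (a - b).1 y = 0 := by
    have e1 : ∑ y, (a - b).1 y = ∑ y, a.1 y - ∑ y, b.1 y := by
      rw [← Finset.sum_sub_distrib]
      rfl
    rw [e1, ha.1.1, hb.1.1, sub_zero]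
  obtain ⟨h4, h5⟩ := hF.full _ _ h3 h2
  have h6 : a - b = 0 := Prod.ext h4 h5
  rw [h6, io_zero] at h1
  have hk0 : (k : ℚ) ≠ 0 := by exact_mod_cast hk.ne'
  exact (smul_eq_zero.1 h1).resolve_left hk0

/-- the choice of the divisors -/
theorem pick {F : Fan n} (hF : F.IsCone) (v : Fin n → ℤ) (s : Fin F.q → ℤ) (S0 : Set (Fin F.N))
    (h0 : LinearIndepOn ℚ (fun i => (fi F i).domRestrict (Ls F v s)) S0) :
    ∃ T : Finset (Fin F.N), S0 ⊆ ↑T ∧ T.card = Module.finrank ℚ (Ls F v s) ∧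
      ∀ e m, F.Mem e m → vl v s e m = 0 → (∀ i ∈ T, F.val i e m = 0) → e = 0 ∧ m = 0 := by
  obtain ⟨T, h1, h2, h3⟩ := sel (fun i => (fi F i).domRestrict (Ls F v s)) S0 h0 (by
    intro x hx
    have h4 := sep hF v s x.1 x.2 fun i => hx i
    exact Subtype.ext h4)
  refine ⟨T, h1, h2, fun e m hm hv hi => ?_⟩
  have hz : ((e, m) : U F.q n) ∈ Zs F v s := ⟨hm, hv⟩
  have h4 := h3 ⟨io (e, m), io_mem hz⟩ (fun i hiT => by
    show fi F i (io (e, m)) = 0
    rw [fi_io, hi i hiT, Int.cast_zero])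
  have h5 : io ((e, m) : U F.q n) = io 0 := by
    rw [io_zero]
    exact congrArg Subtype.val h4
  have h6 := io_inj h5
  exact ⟨congrArg Prod.fst h6, congrArg Prod.snd h6⟩

/-- the new vector is interior -/
theorem interior {F : Fan n} {v : Fin n → ℤ} {s : Fin F.q → ℤ}
    (hb : ∀ e m, F.Mem e m → 0 ≤ vl v s e m) {T : Finset (Fin F.N)}
    (hT : ∀ e m, F.Mem e m → vl v s e m = 0 → (∀ i ∈ T, F.val i e m = 0) → e = 0 ∧ m = 0) :
    ∀ e m, F.Mem e m → (e ≠ 0 ∨ m ≠ 0) →
      0 < vl (v + ∑ i ∈ T, F.v i) (s + ∑ i ∈ T, F.sv i) e m := by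
  intro e m hm hne
  rw [vl_sum]
  have h1 := hb e m hm
  have h2 : 0 ≤ ∑ i ∈ T, F.val i e m := Finset.sum_nonneg fun i _ => hm.2 i
  rcases (add_nonneg h1 h2).lt_or_eq with h3 | h3
  · exact h3
  · exfalso
    have h4 : vl v s e m = 0 := by linarith
    have h5 : ∑ i ∈ T, F.val i e m = 0 := by linarith
    have h6 := (Finset.sum_eq_zero_iff_of_nonneg fun i _ => hm.2 i).1 h5
    obtain ⟨h7, h8⟩ := hT e m hm h4 h6
    rcases hne with h | h
    · exact h h7
    · exact h h8

/-- the projection -/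
def P (s : Fin q → ℤ) : V q n →ₗ[ℚ] (Fin q ⊕ Fin n → ℚ) where
  toFun x := Sum.elim (fun y => if s y = 0 then 0 else x.1 y) x.2
  map_add' x y := by
    funext i
    rcases i with i | i
    · simp only [Sum.elim_inl, Pi.add_apply, Prod.fst_add]
      split_ifs <;> simp
    · simp
  map_smul' a x := by
    funext i
    rcases i with i | i
    · simp only [Sum.elim_inl, Pi.smul_apply, Prod.smul_fst, RingHom.id_apply]
      split_ifs <;> simp
    · simp

theorem P_io (s : Fin q → ℤ) (e : Fin q → ℤ) (m : Fin n → ℤ) : P s (io (e, m)) = prj s e m := rfl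

/-- the choice of the characters -/
theorem pick2 (F : Fan n) (v : Fin n → ℤ) (s : Fin F.q → ℤ) :
    ∃ (E : Fin (Module.finrank ℚ (LinearMap.range ((P s).domRestrict (Ls F v s)))) → Fin F.q → ℤ)
      (M : Fin (Module.finrank ℚ (LinearMap.range ((P s).domRestrict (Ls F v s)))) → Fin n → ℤ),
      (∀ a, F.Mem (E a) (M a) ∧ vl v s (E a) (M a) = 0) ∧
      LinearIndependent ℚ (fun a => prj s (E a) (M a)) := by
  classical
  obtain ⟨b, hb1, hb2, hb3⟩ := exists_linearIndependent ℚ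
    (P s '' (io '' (Zs F v s : Set (U F.q n))))
  have hfin : b.Finite := hb3.setFinite
  have := hfin.fintype
  have h1 : Module.finrank ℚ (LinearMap.range ((P s).domRestrict (Ls F v s))) = Fintype.card b := by
    have h2 : LinearMap.range ((P s).domRestrict (Ls F v s)) = Submodule.span ℚ b := by
      rw [LinearMap.range_domRestrict, hb2]
      unfold Ls
      rw [Submodule.map_span]
    rw [h2]
    have h3 := finrank_span_eq_card hb3
    rw [Subtype.range_coe] at h3
    exact h3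
  have e0 : Fin (Module.finrank ℚ (LinearMap.range ((P s).domRestrict (Ls F v s)))) ≃ b :=
    (finCongr h1).trans (Fintype.equivFin b).symm
  have h2 : ∀ y : b, ∃ z ∈ Zs F v s, P s (io z) = y.1 := by
    intro y
    obtain ⟨_, ⟨z, hz, rfl⟩, h3⟩ := hb1 y.2
    exact ⟨z, hz, h3⟩
  choose z hz hz2 using h2
  refine ⟨fun a => (z (e0 a)).1, fun a => (z (e0 a)).2, fun a => hz (e0 a), ?_⟩
  have h3 : (fun a => prj s (z (e0 a)).1 (z (e0 a)).2) = fun a => ((e0 a : b) : Fin F.q ⊕ Fin n → ℚ) := by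
    funext a
    rw [← hz2 (e0 a)]
    rfl
  rw [h3]
  exact hb3.comp e0 e0.injective

theorem s_nonneg {F : Fan n} {s : Fin F.q → ℤ} (hs : ∀ y, 0 ≤ s y) (T : Finset (Fin F.N))
    (y : Fin F.q) : 0 ≤ (s + ∑ i ∈ T, F.sv i) y := by
  rw [Pi.add_apply, Finset.sum_apply]
  refine add_nonneg (hs y) (Finset.sum_nonneg fun i _ => ?_)
  unfold Fan.sv
  rw [Pi.single_apply]
  split_ifs
  · exact Int.natCast_nonneg _
  · exact le_rfl

/-- first case -/
theorem case2 {F : Fan n} (hF : F.IsCone) (u : Fin n → ℝ) (α : Fin F.q → ℝ)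
    (h : ∀ i, Psi u α (F.v i) (F.sv i) ≤ 1) (v : Fin n → ℤ) (s : Fin F.q → ℤ)
    (hs : ∀ y, 0 ≤ s y) (hb : ∀ e m, F.Mem e m → 0 ≤ vl v s e m)
    (hno : ∀ a ∈ Zs F v s, ∀ b ∈ Zs F v s, a.2 = b.2 → a = b) :
    ∃ v1 s1, F.Int v1 s1 ∧ (∀ y, 0 ≤ s1 y) ∧ Psi u α v1 s1 ≤ Psi u α v s +
      (Module.finrank ℚ (LinearMap.range ((P s).domRestrict (Ls F v s))) : ℕ) := by
  obtain ⟨T, -, hT1, hT2⟩ := pick hF v s ∅ (linearIndepOn_empty _ _)
  refine ⟨v + ∑ i ∈ T, F.v i, s + ∑ i ∈ T, F.sv i, interior hb hT2, s_nonneg hs T, ?_⟩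
  refine (Psi_sum F T u α h v s).trans ?_
  have h1 := LinearMap.finrank_range_add_finrank_ker ((P s).domRestrict (Ls F v s))
  have h2 : LinearMap.ker ((P s).domRestrict (Ls F v s)) = ⊥ := by
    rw [LinearMap.ker_eq_bot']
    intro x hx
    apply Subtype.ext
    show x.1 = 0
    have hx' : P s x.1 = 0 := hx
    have hx2 : x.1.2 = 0 := by
      funext j
      exact congrFun hx' (Sum.inr j)
    obtain ⟨k, hk, a, ha, b, hbb, h3⟩ := rep (Zs F v s) x.1 x.2
    have h4 : a = b := by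
      apply hno a ha b hbb
      funext j
      have h5 := congrFun (congrArg Prod.snd h3) j
      have h6 : ((k : ℚ) • x.1).2 j = 0 := by
        rw [Prod.smul_snd, hx2, smul_zero]
        rfl
      have h7 : (io a - io b).2 j = (a.2 j : ℚ) - b.2 j := rfl
      rw [h6, h7] at h5
      have h8 : (a.2 j : ℚ) = b.2 j := by linarith
      exact_mod_cast h8
    rw [h4, sub_self] at h3
    have hk0 : (k : ℚ) ≠ 0 := by exact_mod_cast hk.ne'
    exact (smul_eq_zero.1 h3).resolve_left hk0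
  rw [h2, finrank_bot, add_zero] at h1
  rw [hT1, h1]

/-- the least exponents -/
theorem least {F : Fan n} (hF : F.IsCone) (e m) (hem : F.Mem e m) :
    ∃ b : Fin F.q → ℤ, (∀ i, 0 ≤ (F.mu i : ℤ) * b (F.pt i) + pr m (F.v i)) ∧
      ∀ e', F.Mem e' m → ∀ y, b y ≤ e' y := by
  classical
  have h1 : ∀ y, ∃ t : ℤ, (∀ i, F.pt i = y → 0 ≤ (F.mu i : ℤ) * t + pr m (F.v i)) ∧
      ∀ t', (∀ i, F.pt i = y → 0 ≤ (F.mu i : ℤ) * t' + pr m (F.v i)) → t ≤ t' := by
    intro y
    obtain ⟨i, hi, hmu⟩ := hF.onto y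
    refine Int.exists_least_of_bdd
      (P := fun t => ∀ i, F.pt i = y → 0 ≤ (F.mu i : ℤ) * t + pr m (F.v i))
      ⟨-|pr m (F.v i)|, fun t ht => ?_⟩ ⟨e y, fun i hi => ?_⟩
    · have h2 := ht i hi
      have h3 : (1 : ℤ) ≤ F.mu i := by exact_mod_cast hmu
      have h4 := le_abs_self (pr m (F.v i))
      by_contra hcon
      push Not at hcon
      have h5 := abs_nonneg (pr m (F.v i))
      nlinarith
    · have h2 := hem.2 i
      unfold Fan.val at h2
      rw [hi] at h2
      exact h2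
  choose b hb1 hb2 using h1
  refine ⟨b, fun i => hb1 _ i rfl, fun e' he' y => hb2 y _ fun i hi => ?_⟩
  have h2 := he'.2 i
  unfold Fan.val at h2
  rw [hi] at h2
  exact h2

/-- second case -/
theorem case1 {c : ℕ} {F : Fan n} (hF : F.IsCone) (u : Fin n → ℝ) (α : Fin F.q → ℝ)
    (hq : c + 1 ≤ F.q) (hα : ∑ y, (1 - α y) = c + 1)
    (h : ∀ i, Psi u α (F.v i) (F.sv i) ≤ 1) (v : Fin n → ℤ) (s : Fin F.q → ℤ)
    (hs : Trop c s) (hb : ∀ e m, F.Mem e m → 0 ≤ vl v s e m)
    (e0 e1 : Fin F.q → ℤ) (m : Fin n → ℤ) (h0 : F.Mem e0 m) (h1 : F.Mem e1 m)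
    (h0' : vl v s e0 m = 0) (hne : e0 ≠ e1) :
    ∃ v1 s1, F.Int v1 s1 ∧ (∀ y, 0 ≤ s1 y) ∧
      (∀ y y', s y = 0 → s y' = 0 → ∃ e e' m, F.Mem e m ∧ vl v s e m = 0 ∧ F.Mem e' m ∧
            vl v s e' m = 0 ∧ e - e' = Pi.single y 1 - Pi.single y' 1) ∧
      Psi u α v1 s1 ≤ Psi u α v s +
        (Module.finrank ℚ (LinearMap.range ((P s).domRestrict (Ls F v s))) : ℕ) + c -
        (Finset.univ.filter fun y => s y ≠ 0).card := by
  classical
  obtain ⟨b, hb1, hb2⟩ := least hF e0 m h0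
  obtain ⟨k, hk⟩ : ∃ k : ℤ, k = -∑ y, b y := ⟨_, rfl⟩
  have hle0 : ∑ y, b y ≤ 0 := by
    rw [← h0.1]
    exact Finset.sum_le_sum fun y _ => hb2 e0 h0 y
  have hk1 : 1 ≤ k := by
    rcases hle0.lt_or_eq with h2 | h2
    · omega
    · exfalso
      apply hne
      have h3 : ∀ e, F.Mem e m → e = b := by
        intro e he
        have h4 : ∑ y, b y = ∑ y, e y := by rw [h2, he.1]
        have h5 := (Finset.sum_eq_sum_iff_of_le fun y _ => hb2 e he y).1 h4
        funext y
        exact (h5 y (Finset.mem_univ y)).symm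
      rw [h3 e0 h0, h3 e1 h1]
  -- the characters
  obtain ⟨zz, hzz⟩ : ∃ zz : Fin F.q → Fin F.q → Fin F.q → ℤ, zz = fun y y' =>
    b + Pi.single y (k - 1) + Pi.single y' 1 := ⟨_, rfl⟩
  have hbz : ∀ y y' t, b t ≤ zz y y' t := by
    intro y y' t
    rw [hzz]
    simp only [Pi.add_apply, Pi.single_apply]
    split_ifs <;> omega
  have hzm : ∀ y y', F.Mem (zz y y') m := by
    intro y y'
    refine ⟨?_, fun i => ?_⟩
    · rw [hzz]
      simp only [Pi.add_apply, Finset.sum_add_distrib, Finset.sum_pi_single', Finset.mem_univ,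
        if_true]
      omega
    · unfold Fan.val
      have h2 := hb1 i
      have h3 : (F.mu i : ℤ) * b (F.pt i) ≤ (F.mu i : ℤ) * zz y y' (F.pt i) :=
        mul_le_mul_of_nonneg_left (hbz y y' _) (Int.natCast_nonneg _)
      linarith
  have hzv : ∀ y y', s y = 0 → s y' = 0 → vl v s (zz y y') m = 0 := by
    intro y y' hy hy'
    apply le_antisymm _ (hb _ _ (hzm y y'))
    rw [← h0']
    unfold vl
    have h2 : ∑ t, s t * zz y y' t = ∑ t, s t * b t := by
      refine Finset.sum_congr rfl fun t _ => ?_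
      rw [hzz]
      simp only [Pi.add_apply, Pi.single_apply]
      split_ifs with h3 h4 h4
      · rw [h3, hy]; ring
      · rw [h3, hy]; ring
      · rw [h4, hy']; ring
      · ring
    rw [h2]
    have h3 : ∑ t, s t * b t ≤ ∑ t, s t * e0 t :=
      Finset.sum_le_sum fun t _ => mul_le_mul_of_nonneg_left (hb2 e0 h0 t) (hs.1 t)
    linarith
  have hz : ∀ y y', s y = 0 → s y' = 0 → ((zz y y', m) : U F.q n) ∈ Zs F v s := fun y y' hy hy' =>
    ⟨hzm y y', hzv y y' hy hy'⟩
  -- one divisor over every hyperplane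
  have hD : ∀ y, ∃ i, F.pt i = y ∧ 0 < F.mu i := hF.onto
  choose D hD1 hD2 using hD
  obtain ⟨S0, hS0⟩ : ∃ S0 : Set (Fin F.N), S0 = {i | s (F.pt i) = 0 ∧ D (F.pt i) = i} := ⟨_, rfl⟩
  have hind : LinearIndepOn ℚ (fun i => (fi F i).domRestrict (Ls F v s)) S0 := by
    rw [linearIndepOn_iff']
    intro t g ht hsum i0 hi0
    have hev : ∀ x ∈ Ls F v s, ∑ i ∈ t, g i * fi F i x = 0 := by
      intro x hx
      have h2 := LinearMap.congr_fun hsum ⟨x, hx⟩
      rw [LinearMap.sum_apply] at h2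
      exact h2
    have hm0 : ∀ i ∈ t, s (F.pt i) = 0 ∧ D (F.pt i) = i := fun i hi => by
      have := ht hi
      rw [hS0] at this
      exact this
    -- all products are equal
    have hκ : ∀ i1 ∈ t, g i1 * F.mu i1 = g i0 * F.mu i0 := by
      intro i1 hi1
      have h2 := hev (io (zz (F.pt i0) (F.pt i0), m) - io (zz (F.pt i0) (F.pt i1), m))
        (Submodule.sub_mem _ (io_mem (hz _ _ (hm0 i0 hi0).1 (hm0 i0 hi0).1))
          (io_mem (hz _ _ (hm0 i0 hi0).1 (hm0 i1 hi1).1)))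
      have h3 : ∀ i ∈ t, g i * fi F i (io (zz (F.pt i0) (F.pt i0), m) -
          io (zz (F.pt i0) (F.pt i1), m)) =
          (if i = i0 then g i * F.mu i else 0) - (if i = i1 then g i * F.mu i else 0) := by
        intro i hi
        rw [map_sub, fi_io, fi_io]
        have h4 : ((F.val i (zz (F.pt i0) (F.pt i0)) m : ℤ) : ℚ) -
            (F.val i (zz (F.pt i0) (F.pt i1)) m : ℤ) = (F.mu i : ℚ) *
            ((if i = i0 then 1 else 0) - (if i = i1 then 1 else 0)) := by
          unfold Fan.val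
          rw [hzz]
          have h5 : ∀ j ∈ t, (F.pt i = F.pt j ↔ i = j) := fun j hj =>
            ⟨fun h6 => by rw [← (hm0 i hi).2, h6, (hm0 j hj).2], fun h6 => by rw [h6]⟩
          simp only [Pi.add_apply, Pi.single_apply, h5 i0 hi0, h5 i1 hi1]
          push_cast
          ring
        show g i * ((F.val i (zz (F.pt i0) (F.pt i0)) m : ℤ) -
            (F.val i (zz (F.pt i0) (F.pt i1)) m : ℤ) : ℚ) = _
        rw [h4]
        split_ifs <;> ring
      rw [Finset.sum_congr rfl h3, Finset.sum_sub_distrib, Finset.sum_ite_eq' t i0,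
        Finset.sum_ite_eq' t i1, if_pos hi0, if_pos hi1] at h2
      linarith
    -- evaluation at a positive vector
    have h2 := hev (io (zz (F.pt i0) (F.pt i0), m))
      (io_mem (hz _ _ (hm0 i0 hi0).1 (hm0 i0 hi0).1))
    have hmu : ∀ i ∈ t, (0 : ℚ) < F.mu i := by
      intro i hi
      have h3 := hD2 (F.pt i)
      rw [(hm0 i hi).2] at h3
      exact_mod_cast h3
    have h3 : ∑ i ∈ t, g i * fi F i (io (zz (F.pt i0) (F.pt i0), m)) =
        (g i0 * F.mu i0) * ∑ i ∈ t, (F.val i (zz (F.pt i0) (F.pt i0)) m : ℚ) / F.mu i := by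
      rw [Finset.mul_sum]
      refine Finset.sum_congr rfl fun i hi => ?_
      rw [fi_io, ← hκ i hi]
      have := (hmu i hi).ne'
      field_simp
    rw [h3] at h2
    have h4 : 0 < ∑ i ∈ t, (F.val i (zz (F.pt i0) (F.pt i0)) m : ℚ) / F.mu i := by
      refine Finset.sum_pos' (fun i hi => div_nonneg ?_ (hmu i hi).le) ⟨i0, hi0, ?_⟩
      · exact_mod_cast (hzm _ _).2 i
      · apply div_pos _ (hmu i0 hi0)
        have h5 : 0 < F.val i0 (zz (F.pt i0) (F.pt i0)) m := by
          unfold Fan.val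
          rw [hzz]
          simp only [Pi.add_apply, Pi.single_eq_same]
          have h6 := hb1 i0
          have h7 : (0 : ℤ) < F.mu i0 := by exact_mod_cast hmu i0 hi0
          nlinarith
        exact_mod_cast h5
    rcases mul_eq_zero.1 h2 with h5 | h5
    · rcases mul_eq_zero.1 h5 with h6 | h6
      · exact h6
      · exact absurd h6 (hmu i0 hi0).ne'
    · exact absurd h5 h4.ne'
  obtain ⟨T, hT0, hT1, hT2⟩ := pick hF v s S0 hind
  -- the dimension of the kernel
  obtain ⟨y0, hy0⟩ : ∃ y0, s y0 = 0 := by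
    by_contra hcon
    push Not at hcon
    have h2 : (Finset.univ.filter fun y => s y ≠ 0) = Finset.univ :=
      Finset.filter_true_of_mem fun y _ => hcon y
    have h3 := hs.2
    rw [h2, Finset.card_univ, Fintype.card_fin] at h3
    omega
  have hker : Module.finrank ℚ (LinearMap.ker ((P s).domRestrict (Ls F v s))) + 1 +
      (Finset.univ.filter fun y => s y ≠ 0).card ≤ F.q := by
    have hsum0 : ∀ x ∈ Ls F v s, ∑ y, x.1 y = 0 := by
      intro x hx
      obtain ⟨k', hk', a, ha, b', hb', h3⟩ := rep (Zs F v s) x hx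
      have h4 : (k' : ℚ) * ∑ y, x.1 y = ((∑ y, a.1 y : ℤ) : ℚ) - ((∑ y, b'.1 y : ℤ) : ℚ) := by
        rw [Finset.mul_sum]
        push_cast
        rw [← Finset.sum_sub_distrib]
        refine Finset.sum_congr rfl fun y _ => ?_
        exact congrFun (congrArg Prod.fst h3) y
      rw [ha.1.1, hb'.1.1, Int.cast_zero, sub_zero] at h4
      have hk0 : (k' : ℚ) ≠ 0 := by exact_mod_cast hk'.ne'
      exact (mul_eq_zero.1 h4).resolve_left hk0
    let R : LinearMap.ker ((P s).domRestrict (Ls F v s)) →ₗ[ℚ]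
        ({y : Fin F.q // s y = 0 ∧ y ≠ y0} → ℚ) :=
      { toFun := fun x y => x.1.1.1 y.1
        map_add' := fun _ _ => rfl
        map_smul' := fun _ _ => rfl }
    have key : ∀ z : V F.q n, z ∈ Ls F v s → P s z = 0 →
        (∀ y, s y = 0 → y ≠ y0 → z.1 y = 0) → z = 0 := by
      intro z hzL hx1 hz2
      have hx2 : ∀ y, y ≠ y0 → z.1 y = 0 := by
        intro y hy
        by_cases hsy : s y = 0
        · exact hz2 y hsy hy
        · have h3 := congrFun hx1 (Sum.inl y)
          have h4 : (if s y = 0 then 0 else z.1 y) = 0 := h3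
          rwa [if_neg hsy] at h4
      have hx3 := hsum0 z hzL
      rw [Finset.sum_eq_single y0 (fun y _ hy => hx2 y hy)
        (fun h => absurd (Finset.mem_univ y0) h)] at hx3
      have hx4 : z.2 = 0 := by
        funext j
        exact congrFun hx1 (Sum.inr j)
      refine Prod.ext ?_ hx4
      funext y
      by_cases hy : y = y0
      · rw [hy]; exact hx3
      · exact hx2 y hy
    have hR : Function.Injective R := by
      intro x x' hxx'
      have hx : P s x.1.1 = 0 := x.2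
      have hx' : P s x'.1.1 = 0 := x'.2
      apply Subtype.ext
      apply Subtype.ext
      apply sub_eq_zero.1
      refine key _ (Submodule.sub_mem _ x.1.2 x'.1.2) ?_ fun y h3 h4 => ?_
      · rw [map_sub, hx, hx', sub_zero]
      · have h5 : x.1.1.1 y = x'.1.1.1 y := congrFun hxx' ⟨y, h3, h4⟩
        show x.1.1.1 y - x'.1.1.1 y = 0
        rw [h5, sub_self]
    have h2 := LinearMap.finrank_le_finrank_of_injective hR
    rw [Module.finrank_fintype_fun_eq_card, Fintype.card_subtype] at h2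
    have h3 : (Finset.univ.filter fun y : Fin F.q => s y = 0 ∧ y ≠ y0).card + 1 =
        (Finset.univ.filter fun y : Fin F.q => s y = 0).card := by
      have h4 : (Finset.univ.filter fun y : Fin F.q => s y = 0 ∧ y ≠ y0) =
          (Finset.univ.filter fun y : Fin F.q => s y = 0).erase y0 := by
        ext y
        simp only [Finset.mem_filter, Finset.mem_univ, true_and, Finset.mem_erase]
        tauto
      rw [h4]
      exact Finset.card_erase_add_one (Finset.mem_filter.2 ⟨Finset.mem_univ y0, hy0⟩)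
    have h4 := Finset.card_filter_add_card_filter_not (s := (Finset.univ : Finset (Fin F.q)))
      (fun y => s y = 0)
    rw [Finset.card_univ, Fintype.card_fin] at h4
    have h5 : (Finset.univ.filter fun y : Fin F.q => ¬ s y = 0) =
      (Finset.univ.filter fun y : Fin F.q => s y ≠ 0) := rfl
    rw [h5] at h4
    omega
  have hrk := LinearMap.finrank_range_add_finrank_ker ((P s).domRestrict (Ls F v s))
  refine ⟨v + ∑ i ∈ T, F.v i, (s + ∑ i ∈ T, F.sv i) + fun _ => -1, ?_, ?_, ?_, ?_⟩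
  · intro e m' hm' hne'
    have h2 := interior hb hT2 e m' hm' hne'
    have h3 := vl_add (v + ∑ i ∈ T, F.v i) 0 (s + ∑ i ∈ T, F.sv i) (fun _ => -1) e m'
    rw [add_zero, vl_const _ _ hm'.1, add_zero] at h3
    rw [h3]
    exact h2
  · intro y
    show 0 ≤ (s + ∑ i ∈ T, F.sv i) y + -1
    have h2 : 1 ≤ (s + ∑ i ∈ T, F.sv i) y := by
      by_cases hy : s y = 0
      · have h3 : D y ∈ T := by
          apply hT0
          rw [hS0]
          refine ⟨?_, ?_⟩
          · rw [hD1]; exact hy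
          · rw [hD1]
        rw [Pi.add_apply, Finset.sum_apply, hy, zero_add]
        have h4 : F.sv (D y) y ≤ ∑ i ∈ T, F.sv i y := by
          refine Finset.single_le_sum (f := fun i => F.sv i y) (fun i _ => ?_) h3
          show 0 ≤ F.sv i y
          unfold Fan.sv
          rw [Pi.single_apply]
          split_ifs
          · exact Int.natCast_nonneg _
          · exact le_rfl
        refine le_trans ?_ h4
        unfold Fan.sv
        rw [hD1, Pi.single_eq_same]
        exact_mod_cast hD2 y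
      · have h3 := hs.1 y
        rw [Pi.add_apply, Finset.sum_apply]
        have h4 : 0 ≤ ∑ i ∈ T, F.sv i y := by
          refine Finset.sum_nonneg fun i _ => ?_
          unfold Fan.sv
          rw [Pi.single_apply]
          split_ifs
          · exact Int.natCast_nonneg _
          · exact le_rfl
        omega
    omega
  · intro y y' hy hy'
    refine ⟨zz y y, zz y y', m, hzm y y, hzv y y hy hy, hzm y y', hzv y y' hy hy', ?_⟩
    rw [hzz]
    simp only
    abel
  · have h2 := Psi_sum F T u α h v s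
    have h3 := Psi_add u α (v + ∑ i ∈ T, F.v i) 0 (s + ∑ i ∈ T, F.sv i) (fun _ => -1)
    rw [add_zero] at h3
    rw [h3]
    have h4 : Psi u α (0 : Fin n → ℤ) (fun _ : Fin F.q => (-1 : ℤ)) = -∑ y, α y := by
      unfold Psi
      simp
    have h5 : ∑ y, α y = F.q - c - 1 := by
      rw [Finset.sum_sub_distrib, Finset.sum_const, Finset.card_univ, Fintype.card_fin,
        nsmul_eq_mul, mul_one] at hα
      linarith
    rw [h4, h5]
    rw [hT1, ← hrk] at h2
    push_cast at h2
    have h6 : (Module.finrank ℚ (LinearMap.ker ((P s).domRestrict (Ls F v s))) : ℝ) + 1 +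
      (Finset.univ.filter fun y => s y ≠ 0).card ≤ F.q := by exact_mod_cast hker
    linarith

end AddL

theorem add : S_ADD := by
  classical
  intro c n F u α hF hq hα h v s hs hb
  obtain ⟨E, M, h1, h2⟩ := AddL.pick2 F v s
  refine ⟨_, E, M, h1, h2, ?_⟩
  by_cases hno : ∀ a ∈ AddL.Zs F v s, ∀ b ∈ AddL.Zs F v s, a.2 = b.2 → a = b
  · obtain ⟨v1, s1, h3, h4, h5⟩ := AddL.case2 hF u α h v s hs.1 hb hno
    exact ⟨v1, s1, h3, h4, Or.inl h5⟩
  · push Not at hno
    obtain ⟨a, ha, b, hb', hab, hne⟩ := hno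
    have hne' : a.1 ≠ b.1 := fun h' => hne (Prod.ext h' hab)
    obtain ⟨v1, s1, h3, h4, h5, h6⟩ := AddL.case1 (c := c) hF u α hq hα h v s hs hb a.1 b.1 a.2 ha.1
      (by rw [hab]; exact hb'.1) ha.2 hne'
    exact ⟨v1, s1, h3, h4, Or.inr ⟨h5, h6⟩⟩

end Pool.Agent.Helper58K9.AR
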