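import Pool.Agent.Helper58K9.AR.Stm

/-!
[BDD] the exponents of the linear forms are bounded by the sum of the orders.
-/

set_option autoImplicit false

namespace Pool.Agent.Helper58K9.AR

open Pool.Agent.TH165.ACC (pr)

namespace BddL

theorem clear {ι : Type} [Fintype ι] (x : ι → ℚ) :
    ∃ D : ℕ, 0 < D ∧ ∃ z : ι → ℤ, ∀ i, (z i : ℚ) = D * x i := by
  refine ⟨∏ i, (x i).den, Finset.prod_pos fun i _ => (x i).den_pos, ?_⟩
  have h : ∀ i, ∃ z : ℤ, (z : ℚ) = ((∏ i, (x i).den : ℕ) : ℚ) * x i := by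
    intro i
    obtain ⟨k, hk⟩ := Finset.dvd_prod_of_mem (fun i => (x i).den) (Finset.mem_univ i)
    refine ⟨k * (x i).num, ?_⟩
    rw [hk]
    push_cast
    have h1 : ((x i).den : ℚ) * x i = (x i).num := by
      rw [mul_comm]
      exact Rat.mul_den_eq_num (x i)
    rw [mul_comm ((x i).den : ℚ) (k : ℚ), mul_assoc, h1]
  choose z hz using h
  exact ⟨z, hz⟩

/-- the vectors of degree zero over the rational numbers -/
def V (q n : ℕ) : Submodule ℚ ((Fin q → ℚ) × (Fin n → ℚ)) where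
  carrier := {w | ∑ y, w.1 y = 0}
  add_mem' {a b} ha hb := by
    change ∑ y, (a.1 y + b.1 y) = 0
    rw [Finset.sum_add_distrib]
    change ∑ y, a.1 y + ∑ y, b.1 y = 0
    rw [show ∑ y, a.1 y = 0 from ha, show ∑ y, b.1 y = 0 from hb, add_zero]
  zero_mem' := by simp
  smul_mem' c a ha := by
    change ∑ y, c * a.1 y = 0
    rw [← Finset.mul_sum, show ∑ y, a.1 y = 0 from ha, mul_zero]

variable {n : ℕ} (F : Fan n)

/-- the orders over the rational numbers -/
noncomputable def psi : V F.q n →ₗ[ℚ] (Fin F.N → ℚ) where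
  toFun w i := (F.mu i : ℚ) * w.1.1 (F.pt i) + ∑ j, w.1.2 j * (F.v i j : ℚ)
  map_add' a b := by
    funext i
    change (F.mu i : ℚ) * (a.1.1 (F.pt i) + b.1.1 (F.pt i))
      + ∑ j, (a.1.2 j + b.1.2 j) * (F.v i j : ℚ) = _
    simp only [add_mul, Finset.sum_add_distrib, Pi.add_apply]
    ring
  map_smul' c a := by
    funext i
    change (F.mu i : ℚ) * (c * a.1.1 (F.pt i)) + ∑ j, (c * a.1.2 j) * (F.v i j : ℚ) = _
    simp only [mul_assoc, ← Finset.mul_sum, RingHom.id_apply, Pi.smul_apply, smul_eq_mul]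
    ring

theorem psi_inj (h : F.IsCone) : Function.Injective (psi F) := by
  rw [← LinearMap.ker_eq_bot, LinearMap.ker_eq_bot']
  rintro ⟨⟨e, m⟩, he⟩ h0
  obtain ⟨D, hD, z, hz⟩ := clear (Sum.elim e m)
  have hD' : (D : ℚ) ≠ 0 := by exact_mod_cast hD.ne'
  have he0 : ∑ y, e y = 0 := he
  have hze : ∀ y, ((z (Sum.inl y) : ℤ) : ℚ) = D * e y := fun y => hz (Sum.inl y)
  have hzm : ∀ j, ((z (Sum.inr j) : ℤ) : ℚ) = D * m j := fun j => hz (Sum.inr j)
  have h1 : ∑ y, z (Sum.inl y) = 0 := by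
    have h2 : ((∑ y, z (Sum.inl y) : ℤ) : ℚ) = 0 := by
      push_cast
      simp only [hze]
      rw [← Finset.mul_sum, he0, mul_zero]
    exact_mod_cast h2
  have h2 : ∀ i, F.val i (fun y => z (Sum.inl y)) (fun j => z (Sum.inr j)) = 0 := by
    intro i
    have h3 : (F.mu i : ℚ) * e (F.pt i) + ∑ j, m j * (F.v i j : ℚ) = 0 := congrFun h0 i
    have h4 : ((F.val i (fun y => z (Sum.inl y)) (fun j => z (Sum.inr j)) : ℤ) : ℚ)
        = D * ((F.mu i : ℚ) * e (F.pt i) + ∑ j, m j * (F.v i j : ℚ)) := by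
      unfold Fan.val pr
      push_cast
      simp only [hze, hzm]
      rw [mul_add, Finset.mul_sum]
      congr 1
      · ring
      · exact Finset.sum_congr rfl fun j _ => by ring
    rw [h3, mul_zero] at h4
    exact_mod_cast h4
  obtain ⟨h3, h4⟩ := h.full _ _ h1 h2
  have h5 : e = 0 := by
    funext y
    have h6 := hze y
    rw [congrFun h3 y] at h6
    rw [Pi.zero_apply, Int.cast_zero] at h6
    exact (mul_eq_zero.1 h6.symm).resolve_left hD'
  have h6 : m = 0 := by
    funext j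
    have h7 := hzm j
    rw [congrFun h4 j] at h7
    rw [Pi.zero_apply, Int.cast_zero] at h7
    exact (mul_eq_zero.1 h7.symm).resolve_left hD'
  apply Subtype.ext
  change (e, m) = (0, 0)
  rw [h5, h6]

end BddL

open BddL in
theorem bdd : S_BDD := by
  intro n F hF
  obtain ⟨g, hg⟩ := LinearMap.exists_leftInverse_of_injective (psi F)
    (LinearMap.ker_eq_bot.2 (psi_inj F hF))
  -- the coefficients
  let β : Fin F.q → Fin F.N → ℚ := fun y i => (g (Pi.single i 1)).1.1 y
  obtain ⟨k, hk⟩ := exists_nat_ge (∑ y, ∑ i, |β y i|)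
  refine ⟨k, fun e m hem y => ?_⟩
  have hβ : ∀ i, |β y i| ≤ k := by
    intro i
    refine le_trans ?_ hk
    refine le_trans ?_ (Finset.single_le_sum (f := fun y => ∑ i, |β y i|)
      (fun y _ => Finset.sum_nonneg fun i _ => abs_nonneg _) (Finset.mem_univ y))
    exact Finset.single_le_sum (f := fun i => |β y i|) (fun i _ => abs_nonneg _)
      (Finset.mem_univ i)
  let w : V F.q n := ⟨(fun y => (e y : ℚ), fun j => (m j : ℚ)), by
    change ∑ y, (e y : ℚ) = 0
    exact_mod_cast hem.1⟩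
  have hw : ∀ i, psi F w i = ((F.val i e m : ℤ) : ℚ) := by
    intro i
    change (F.mu i : ℚ) * (e (F.pt i) : ℚ) + ∑ j, (m j : ℚ) * (F.v i j : ℚ) = _
    unfold Fan.val pr
    push_cast
    rfl
  have h1 : g (psi F w) = w := LinearMap.congr_fun hg w
  have h2 : psi F w = ∑ i, psi F w i • (Pi.single i (1 : ℚ) : Fin F.N → ℚ) := by
    funext j
    rw [Finset.sum_apply, Finset.sum_eq_single j]
    · rw [Pi.smul_apply, Pi.single_eq_same, smul_eq_mul, mul_one]
    · intro b _ hb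
      rw [Pi.smul_apply, Pi.single_eq_of_ne (Ne.symm hb), smul_zero]
    · intro h; exact absurd (Finset.mem_univ _) h
  have h3 : (e y : ℚ) = ∑ i, ((F.val i e m : ℤ) : ℚ) * β y i := by
    have h4 : (e y : ℚ) = (g (psi F w)).1.1 y := by rw [h1]
    rw [h4, h2, map_sum, Submodule.coe_sum, Prod.fst_sum, Finset.sum_apply]
    refine Finset.sum_congr rfl fun i _ => ?_
    rw [map_smul, hw]
    rfl
  have h4 : (e y : ℚ) ≤ ∑ i, ((F.val i e m : ℤ) : ℚ) * k := by
    rw [h3]
    refine Finset.sum_le_sum fun i _ => ?_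
    have h5 : (0 : ℚ) ≤ ((F.val i e m : ℤ) : ℚ) := by exact_mod_cast hem.2 i
    exact mul_le_mul_of_nonneg_left ((le_abs_self _).trans (hβ i)) h5
  have h5 : (e y : ℚ) ≤ ((k * ∑ i, F.val i e m : ℤ) : ℚ) := by
    refine h4.trans (le_of_eq ?_)
    push_cast
    rw [← Finset.sum_mul, mul_comm]
  exact_mod_cast h5

end Pool.Agent.Helper58K9.AR
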