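import Pool.Agent.Helper58K9.AR.Lin

/-!
# Torus coordinates
-/

set_option autoImplicit false

namespace Pool.Agent.Helper58K9.AR

open Pool.Agent.H436R3.Fol Pool.Agent.H436R3.KT Pool.Agent.W497.Mld MvPolynomial

namespace CoordL

variable {K : Type} [Field K] [Algebra ℂ K]

theorem alg_of_frac {N : ℕ} (y : Fin N → K)
    (h : ∀ f : K, ∃ a b : MvPolynomial (Fin N) ℂ, aeval y b ≠ 0 ∧ f * aeval y b = aeval y a) :
    Algebra.IsAlgebraic (Algebra.adjoin ℂ (Set.range y)) K := by
  constructor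
  intro f
  obtain ⟨a, b, hb, hab⟩ := h f
  have hmem : ∀ p : MvPolynomial (Fin N) ℂ, aeval y p ∈ Algebra.adjoin ℂ (Set.range y) := by
    intro p
    rw [Algebra.adjoin_range_eq_range_aeval]
    exact ⟨p, rfl⟩
  refine ⟨Polynomial.C ⟨aeval y b, hmem b⟩ * Polynomial.X - Polynomial.C ⟨aeval y a, hmem a⟩,
    ?_, ?_⟩
  · intro h0
    have h1 := congrArg (fun p => Polynomial.coeff p 1) h0
    simp only [Polynomial.coeff_sub, Polynomial.coeff_C_mul, Polynomial.coeff_X_one, mul_one,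
      Polynomial.coeff_zero] at h1
    rw [Polynomial.coeff_C_of_ne_zero one_ne_zero, sub_zero] at h1
    exact hb (congrArg Subtype.val h1)
  · have h2 : algebraMap (Algebra.adjoin ℂ (Set.range y)) K ⟨aeval y b, hmem b⟩ = aeval y b := rfl
    have h3 : algebraMap (Algebra.adjoin ℂ (Set.range y)) K ⟨aeval y a, hmem a⟩ = aeval y a := rfl
    rw [map_sub, map_mul, Polynomial.aeval_C, Polynomial.aeval_C, Polynomial.aeval_X, h2, h3,
      mul_comm, hab, sub_self]

/-- `N` generators of a field of transcendence degree `N` are independent -/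
theorem indep {N : ℕ} (t y : Fin N → K)
    (ht : ∀ p : MvPolynomial (Fin N) ℂ, aeval t p = 0 → p = 0)
    (ht' : ∀ f : K, ∃ a b : MvPolynomial (Fin N) ℂ, aeval t b ≠ 0 ∧ f * aeval t b = aeval t a)
    (hy : ∀ f : K, ∃ a b : MvPolynomial (Fin N) ℂ, aeval y b ≠ 0 ∧ f * aeval y b = aeval y a)
    (p : MvPolynomial (Fin N) ℂ) (hp : aeval y p = 0) : p = 0 := by
  have := alg_of_frac y hy
  have h1 : AlgebraicIndependent ℂ t := algebraicIndependent_iff.2 ht
  have h2 : IsTranscendenceBasis ℂ t :=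
    isTranscendenceBasis_iff_algebraicIndependent_isAlgebraic.2 ⟨h1, alg_of_frac t ht'⟩
  have h3 := Algebra.IsAlgebraic.isTranscendenceBasis_of_le_trdeg_of_finite ℂ y h2.cardinalMk_eq_trdeg.le
  exact algebraicIndependent_iff.1 h3.1 p hp

theorem mem_of_frac {N : ℕ} (t : Fin N → K) (F : IntermediateField ℂ K) (hF : ∀ i, t i ∈ F)
    (ht' : ∀ f : K, ∃ a b : MvPolynomial (Fin N) ℂ, aeval t b ≠ 0 ∧ f * aeval t b = aeval t a)
    (f : K) : f ∈ F := by
  have hp : ∀ p : MvPolynomial (Fin N) ℂ, aeval t p ∈ F := by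
    intro p
    have h1 : Algebra.adjoin ℂ (Set.range t) ≤ F.toSubalgebra := by
      rw [Algebra.adjoin_le_iff]
      rintro _ ⟨i, rfl⟩
      exact hF i
    apply h1
    rw [Algebra.adjoin_range_eq_range_aeval]
    exact ⟨p, rfl⟩
  obtain ⟨a, b, hb, hab⟩ := ht' f
  have h2 : f = aeval t a / aeval t b := by rw [← hab, mul_div_cancel_right₀ _ hb]
  rw [h2]
  exact F.div_mem (hp a) (hp b)

theorem frac_of_mem {N : ℕ} (y : Fin N → K) (f : K)
    (h : f ∈ IntermediateField.adjoin ℂ (Set.range y)) :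
    ∃ a b : MvPolynomial (Fin N) ℂ, aeval y b ≠ 0 ∧ f * aeval y b = aeval y a := by
  rw [IntermediateField.mem_adjoin_range_iff] at h
  obtain ⟨r, s, h⟩ := h
  by_cases hs : aeval y s = 0
  · refine ⟨0, 1, by simp, ?_⟩
    rw [h, hs, div_zero, zero_mul, map_zero]
  · refine ⟨r, s, hs, ?_⟩
    rw [h, div_mul_cancel₀ _ hs]

/-- linear combinations of the `l (J i)`, divided by `l (J 0)` -/
theorem comb_mem {N : ℕ} (F : IntermediateField ℂ K) (f : Fin (N + 1) → K) (h0 : f 0 ≠ 0)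
    (h : ∀ i : Fin N, f i.succ / f 0 ∈ F) (γ : Fin (N + 1) → ℂ) :
    (∑ i, algebraMap ℂ K (γ i) * f i) / f 0 ∈ F := by
  rw [Finset.sum_div]
  refine F.sum_mem fun i _ => ?_
  rw [mul_div_assoc]
  refine F.mul_mem (F.algebraMap_mem _) ?_
  refine Fin.cases ?_ (fun j => h j) i
  rw [div_self h0]
  exact F.one_mem

end CoordL

theorem coord (hl : S_LIN) : S_COORD := by
  intro c n K _ _ g J hJ
  set F : IntermediateField ℂ K := IntermediateField.adjoin ℂ (Set.range (coJ g J)) with hF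
  have hmem : ∀ k, coJ g J k ∈ F := fun k => IntermediateField.subset_adjoin _ _ ⟨k, rfl⟩
  have hcast : ∀ i : Fin c, g.l (J i.succ) / g.l (J 0) ∈ F := by
    intro i
    have h1 := hmem (Fin.castAdd n i)
    rwa [coJ, Fin.append_left] at h1
  have hx : ∀ j : Fin n, g.x j ∈ F := by
    intro j
    have h1 := hmem (Fin.natAdd c j)
    rwa [coJ, Fin.append_right] at h1
  have hl0 : ∀ y, g.l y / g.l (J 0) ∈ F := by
    intro y
    obtain ⟨β, hβ, -⟩ := hl c n K g J hJ y
    rw [hβ]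
    exact CoordL.comb_mem F (fun i => g.l (J i)) (l_ne g _) hcast β
  have hJ0 : ∀ i, g.l (g.J0 i) = (Fin.cons 1 g.z : Fin (c + 1) → K) i := by
    intro i
    rw [ArrGerm.l, lf, g.hJ0 i, Finset.sum_eq_single i]
    · simp
    · intro b _ hb
      simp [hb]
    · intro h
      exact absurd (Finset.mem_univ _) h
  have hz : ∀ i : Fin c, g.z i ∈ F := by
    intro i
    have h1 := hl0 (g.J0 0)
    have h2 := hl0 (g.J0 i.succ)
    rw [hJ0] at h1 h2
    simp only [Fin.cons_zero, Fin.cons_succ] at h1 h2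
    have h3 := F.div_mem h2 h1
    rwa [div_div_div_cancel_right₀ (l_ne g (J 0)), div_one] at h3
  have hall : ∀ f : K, f ∈ F := by
    intro f
    refine CoordL.mem_of_frac (Fin.append g.z g.x) F ?_ g.frac f
    intro k
    refine Fin.addCases (fun i => ?_) (fun j => ?_) k
    · rw [Fin.append_left]
      exact hz i
    · rw [Fin.append_right]
      exact hx j
  have hfr : ∀ f : K, ∃ a b : MvPolynomial (Fin (c + n)) ℂ, aeval (coJ g J) b ≠ 0 ∧
      f * aeval (coJ g J) b = aeval (coJ g J) a := fun f => CoordL.frac_of_mem _ f (hall f)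
  exact ⟨fun p hp => CoordL.indep (Fin.append g.z g.x) (coJ g J) g.free g.frac hfr p hp, hfr⟩

end Pool.Agent.Helper58K9.AR
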