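import Pool.Agent.Helper58K9.AR.Low

/-!
# General arrangement varieties: [CORE] (helper38)
-/

set_option autoImplicit false

namespace Pool.Agent.Helper58K9.AR

open Pool.Agent.H436R3.Fol Pool.Agent.H436R3.KT Pool.Agent.W497.Mld MvPolynomial
open Pool.Agent.TH165.ACC (pr)

namespace CoreL

variable {c n : ℕ} {K : Type} [Field K] [Algebra ℂ K]

theorem pr_append (a a' : Fin c → ℤ) (b b' : Fin n → ℤ) :
    pr (Fin.append a b) (Fin.append a' b') = ∑ i, a i * a' i + pr b b' := by
  unfold pr
  rw [Fin.sum_univ_add]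
  simp

/-- a sum over the hyperplanes as a sum over `J` -/
theorem sum_supp {q : ℕ} {s : Fin q → ℤ} {J : Fin (c + 1) → Fin q} (hJ : Function.Injective J)
    (h0 : s (J 0) = 0) (h : ∀ y, s y ≠ 0 → y ∈ Set.range J) (e : Fin q → ℤ) :
    ∑ y, s y * e y = ∑ i : Fin c, s (J i.succ) * e (J i.succ) := by
  have h1 := LowL.sum_J (s := fun y => s y * e y) hJ fun y hy => h y (left_ne_zero_of_mul hy)
  rw [← h1, Fin.sum_univ_succ, h0, zero_mul, zero_add]

omit [Algebra ℂ K] in
theorem zpow_sum₀ {ι : Type} (T : Finset ι) (a : ι → ℤ) {x : K} (hx : x ≠ 0) :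
    x ^ (∑ i ∈ T, a i) = ∏ i ∈ T, x ^ a i := by
  classical
  induction T using Finset.induction_on with
  | empty => simp
  | insert b T hb ih => rw [Finset.sum_insert hb, Finset.prod_insert hb, zpow_add₀ hx, ih]

omit [Algebra ℂ K] in
theorem prod_single {q : ℕ} (l : Fin q → K) (A : Fin q) :
    ∏ y, l y ^ (if y = A then (1 : ℤ) else 0) = l A := by
  classical
  rw [Finset.prod_eq_single A]
  · rw [if_pos rfl, zpow_one]
  · intro b _ hb
    rw [if_neg hb, zpow_zero]
  · intro h
    exact absurd (Finset.mem_univ A) h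

/-- the degree zero exponent of a monomial in the ratios -/
def ez {q : ℕ} (J : Fin (c + 1) → Fin q) (a : Fin c → ℤ) (y : Fin q) : ℤ :=
  ∑ i : Fin c, a i * ((if y = J i.succ then 1 else 0) - (if y = J 0 then 1 else 0))

theorem ez_sum {q : ℕ} (J : Fin (c + 1) → Fin q) (a : Fin c → ℤ) : ∑ y, ez J a y = 0 := by
  unfold ez
  rw [Finset.sum_comm]
  refine Finset.sum_eq_zero fun i _ => ?_
  rw [← Finset.mul_sum, Finset.sum_sub_distrib]
  simp

theorem ez_mul {q : ℕ} (J : Fin (c + 1) → Fin q) (a : Fin c → ℤ) (s : Fin q → ℤ)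
    (h0 : s (J 0) = 0) : ∑ y, s y * ez J a y = ∑ i, a i * s (J i.succ) := by
  unfold ez
  simp only [Finset.mul_sum]
  rw [Finset.sum_comm]
  refine Finset.sum_congr rfl fun i _ => ?_
  have h1 : ∀ y, s y * (a i * ((if y = J i.succ then 1 else 0) - (if y = J 0 then 1 else 0))) =
      (if y = J i.succ then a i * s y else 0) - (if y = J 0 then a i * s y else 0) := by
    intro y
    split_ifs <;> ring
  simp only [h1]
  rw [Finset.sum_sub_distrib, Finset.sum_ite_eq', Finset.sum_ite_eq']
  simp [h0]

theorem prod_ez (g : ArrGerm c n K) (J : Fin (c + 1) → Fin g.F.q) (a : Fin c → ℤ) :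
    ∏ y, g.l y ^ ez J a y = ∏ i : Fin c, (g.l (J i.succ) / g.l (J 0)) ^ a i := by
  have h1 : ∀ y, g.l y ^ ez J a y = ∏ i : Fin c,
      g.l y ^ (a i * ((if y = J i.succ then 1 else 0) - (if y = J 0 then 1 else 0))) := fun y =>
    zpow_sum₀ _ _ (l_ne g y)
  rw [Finset.prod_congr rfl fun y _ => h1 y, Finset.prod_comm]
  refine Finset.prod_congr rfl fun i _ => ?_
  have h2 : ∀ y, g.l y ^ (a i * ((if y = J i.succ then 1 else 0) - (if y = J 0 then 1 else 0))) =
      (g.l y ^ (if y = J i.succ then (1 : ℤ) else 0) / g.l y ^ (if y = J 0 then (1 : ℤ) else 0)) ^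
        a i := by
    intro y
    rw [zpow_mul', zpow_sub₀ (l_ne g y)]
  rw [Finset.prod_congr rfl fun y _ => h2 y, Finset.prod_zpow, Finset.prod_div_distrib,
    prod_single, prod_single]

/-- monomials in the torus coordinates are characters -/
theorem mon_ch (g : ArrGerm c n K) (J : Fin (c + 1) → Fin g.F.q) (m : Fin (c + n) → ℤ) :
    ∏ k, coJ g J k ^ m k = ch g.l g.x (ez J fun i => m (Fin.castAdd n i))
      (fun j => m (Fin.natAdd c j)) := by
  unfold ch coJ
  rw [Fin.prod_univ_add, prod_ez]
  simp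

end CoreL

open CoreL in
theorem core (hL : S_LIN) (hC : S_COORD) (hD : S_DETJ) (hT : S_TCAN) : S_CORE := by
  classical
  intro c n K _ _ g v s hs hprim
  obtain ⟨J, hJ, hJ0, hsupp⟩ := LowL.exists_J c g.F.q s hs (le_q g)
  obtain ⟨W, hW⟩ : ∃ W : Fin (c + n) → ℤ, W = Fin.append (fun i => s (J i.succ)) v := ⟨_, rfl⟩
  obtain ⟨hfree, hfrac⟩ := hC c n K g J hJ
  obtain ⟨e, m, he, hem⟩ := hprim
  have hpr : ∃ m', pr m' W = 1 := by
    refine ⟨Fin.append (fun i => e (J i.succ)) m, ?_⟩
    rw [hW, pr_append, ← hem]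
    unfold vl
    rw [sum_supp hJ hJ0 hsupp]
    congr 1
    exact Finset.sum_congr rfl fun i _ => mul_comm _ _
  obtain ⟨w, S, hfg, hloc, hS, hw, hpol, hdet0, hcan⟩ :=
    hT (c + n) K g.X.d g.X.T g.e (coJ g J) W g.X.top hfree hfrac hpr
  -- the orders
  have hx : ∀ j, w.ord (g.x j) = v j := by
    intro j
    have h1 := hw (Fin.natAdd c j)
    rw [hW, Fin.append_right] at h1
    rw [← h1]
    unfold coJ
    rw [Fin.append_right]
  have hr : ∀ i : Fin c, w.ord (g.l (J i.succ) / g.l (J 0)) = s (J i.succ) := by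
    intro i
    have h1 := hw (Fin.castAdd n i)
    rw [hW, Fin.append_left] at h1
    rw [← h1]
    unfold coJ
    rw [Fin.append_left]
  obtain ⟨t, ht⟩ : ∃ t, t = w.ord (g.l (J 0)) := ⟨_, rfl⟩
  have hJs : ∀ i : Fin (c + 1), w.ord (g.l (J i)) = t + s (J i) := by
    intro i
    refine Fin.cases ?_ (fun i => ?_) i
    · rw [hJ0, ← ht, add_zero]
    · have h1 := hr i
      rw [w.ord_div (l_ne g _) (l_ne g _), ← ht] at h1
      omega
  have hty : IsTy g w v s := by
    refine ⟨hx, t, fun y => ?_⟩
    by_cases hy : y ∈ Set.range J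
    · obtain ⟨i, rfl⟩ := hy
      exact hJs i
    · have hsy : s y = 0 := by
        by_contra h
        exact hy (hsupp y h)
      obtain ⟨β, hβ1, hβ2⟩ := hL c n K g J hJ y
      have hβ := hβ2 hy
      -- the ratio as a polynomial
      obtain ⟨p, hp⟩ : ∃ p : MvPolynomial (Fin (c + n)) ℂ, p = C (β 0) +
          ∑ i : Fin c, C (β i.succ) * X (Fin.castAdd n i) := ⟨_, rfl⟩
      have hpe : aeval (coJ g J) p = g.l y / g.l (J 0) := by
        rw [hp, hβ1, Fin.sum_univ_succ, add_div, Finset.sum_div]
        simp only [map_add, map_sum, map_mul, aeval_C, aeval_X]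
        congr 1
        · rw [mul_div_assoc, div_self (l_ne g _), mul_one]
        · refine Finset.sum_congr rfl fun i _ => ?_
          unfold coJ
          rw [Fin.append_left, mul_div_assoc]
      have hp0 : p ≠ 0 := by
        intro h
        rw [h, map_zero] at hpe
        exact div_ne_zero (l_ne g _) (l_ne g _) hpe.symm
      have hco : p.coeff 0 = β 0 := by
        rw [hp, coeff_add, coeff_sum, coeff_C, if_pos rfl, Finset.sum_eq_zero, add_zero]
        intro i _
        rw [coeff_C_mul, coeff_X, if_neg, mul_zero]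
        intro h2
        have := DFunLike.congr_fun h2 (Fin.castAdd n i)
        simp at this
      obtain ⟨⟨a, ha1, ha2⟩, hup⟩ := hpol p hp0
      have h1 : w.ord (aeval (coJ g J) p) ≤ 0 := by
        have h2 := hup 0 (by
          rw [mem_support_iff, hco]
          exact hβ 0)
        refine h2.trans (le_of_eq ?_)
        simp [pr, Pool.Agent.TH165.ACC.ex]
      have h2 : 0 ≤ w.ord (aeval (coJ g J) p) := by
        rw [ha2]
        -- the exponents of the coordinates of the torus are zero
        have h3 : ∀ j : Fin n, a (Fin.natAdd c j) = 0 := by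
          intro j
          by_contra hne
          rw [mem_support_iff] at ha1
          apply ha1
          rw [hp, coeff_add, coeff_sum, coeff_C, if_neg, Finset.sum_eq_zero, add_zero]
          · intro i _
            rw [coeff_C_mul, coeff_X, if_neg, mul_zero]
            intro h4
            have h5 := DFunLike.congr_fun h4 (Fin.natAdd c j)
            rw [Finsupp.single_apply, if_neg] at h5
            · exact hne h5.symm
            · intro h6
              have h7 := congrArg Fin.val h6
              simp only [Fin.val_castAdd, Fin.val_natAdd] at h7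
              have := i.2
              omega
          · intro h4
            rw [← h4] at hne
            exact hne rfl
        unfold pr
        rw [Fin.sum_univ_add]
        apply add_nonneg
        · refine Finset.sum_nonneg fun i _ => ?_
          rw [hW, Fin.append_left]
          exact mul_nonneg (by unfold Pool.Agent.TH165.ACC.ex; positivity) (hs.1 _)
        · refine Finset.sum_nonneg fun j _ => ?_
          unfold Pool.Agent.TH165.ACC.ex
          rw [h3 j]
          simp
      rw [hpe, w.ord_div (l_ne g _) (l_ne g _), ← ht] at h1 h2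
      rw [hsy]
      omega
  refine ⟨w, S, hfg, hloc, hS.trans ?_, hty, ?_⟩
  · unfold HSA
    refine Algebra.adjoin_mono ?_
    rintro f ⟨m', hm', rfl⟩
    refine ⟨ez J fun i => m' (Fin.castAdd n i), fun j => m' (Fin.natAdd c j), ez_sum J _, ?_,
      mon_ch g J m'⟩
    unfold vl
    rw [ez_mul J _ s hJ0]
    refine hm'.trans (le_of_eq ?_)
    unfold pr
    rw [Fin.sum_univ_add, hW]
    simp
  · -- the canonical order
    obtain ⟨lam, hlam, hdet⟩ := hD c n K g J hJ
    have hl : algebraMap ℂ K lam ≠ 0 := by simpa using hlam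
    have hp1 : (∏ k, coJ g J k) ≠ 0 := Finset.prod_ne_zero_iff.2 fun k _ => LowL.coJ_ne g J k
    have hp2 : (∏ i, g.l (g.J0 i)) ≠ 0 := Finset.prod_ne_zero_iff.2 fun i _ => l_ne g _
    have hp3 : (∏ i, g.l (J i)) ≠ 0 := Finset.prod_ne_zero_iff.2 fun i _ => l_ne g _
    have h2 : ∑ i, w.ord (g.l (J i)) = (c + 1) * t + ∑ y, s y := by
      rw [← LowL.sum_J hJ hsupp]
      simp only [hJs, Finset.sum_add_distrib, Finset.sum_const, Finset.card_univ, Fintype.card_fin,
        nsmul_eq_mul]
      push_cast
      ring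
    have h3 : ∑ i, w.ord (g.l (g.J0 i)) = (c + 1) * t + ∑ i, s (g.J0 i) := by
      obtain ⟨_, t', ht'⟩ := hty
      have htt : t' = t := by
        have := ht' (J 0)
        rw [hJ0, add_zero, ← ht] at this
        exact this.symm
      simp only [ht', htt, Finset.sum_add_distrib, Finset.sum_const, Finset.card_univ,
        Fintype.card_fin, nsmul_eq_mul]
      push_cast
      ring
    have h4 : ∑ y, kap g y * s y - 1 = ∑ k, W k - 1 -
        w.ord (Matrix.of fun j k : Fin (c + n) => g.X.T.D (g.e.symm j) (coJ g J k)).det := by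
      rw [hdet, w.ord_div (mul_ne_zero (mul_ne_zero hl hp1) hp2) hp3,
        w.map_mul _ _ (mul_ne_zero hl hp1) hp2, w.map_mul _ _ hl hp1, w.const lam hlam,
        w.ord_prod _ _ fun k _ => LowL.coJ_ne g J k, w.ord_prod _ _ fun i _ => l_ne g _,
        w.ord_prod _ _ fun i _ => l_ne g _, h2, h3, LowL.sum_kap,
        Finset.sum_congr rfl fun k _ => hw k]
      ring
    rw [h4]
    exact hcan

end Pool.Agent.Helper58K9.AR
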