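import Pool.Agent.Helper58K9.AR.Lin

/-!
# The Jacobian of the torus coordinates
-/

set_option autoImplicit false

namespace Pool.Agent.Helper58K9.AR

open Pool.Agent.H436R3.Fol Pool.Agent.H436R3.KT Pool.Agent.W497.Mld MvPolynomial

namespace DetjL

variable {K : Type} [Field K]

/-- the determinant of the Schur complement of the linear forms -/
theorem schur {c : ℕ} (a : Matrix (Fin (c + 1)) (Fin (c + 1)) K) (ζ : Fin (c + 1) → K)
    (h1 : ζ 0 = 1) (L : Fin (c + 1) → K) (hL : ∀ i, L i = ∑ j, ζ j * a i j) (h0 : L 0 ≠ 0) :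
    L 0 * (Matrix.of fun i j : Fin c => a i.succ j.succ - L i.succ / L 0 * a 0 j.succ).det =
      a.det := by
  have hN : (a.updateCol 0 (fun k => ∑ i, ζ i • a k i)).det = a.det := by
    rw [Matrix.det_updateCol_sum, h1, one_smul]
  set N := a.updateCol 0 (fun k => ∑ i, ζ i • a k i) with hNdef
  have hN0 : ∀ i, N i 0 = L i := by
    intro i
    rw [hNdef, Matrix.updateCol_self, hL i]
    rfl
  have hNs : ∀ i (j : Fin c), N i j.succ = a i j.succ := by
    intro i j
    rw [hNdef, Matrix.updateCol_ne (Fin.succ_ne_zero j)]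
  have hB : (Matrix.of fun i j : Fin (c + 1) => N i j + (if i = 0 then 0 else -(L i / L 0)) *
      N 0 j).det = N.det := by
    refine Matrix.det_eq_of_forall_row_eq_smul_add_const
      (fun i => if i = 0 then 0 else -(L i / L 0)) 0 (by simp) fun i j => rfl
  rw [← hN, ← hB, Matrix.det_succ_column_zero, Fin.sum_univ_succ, Finset.sum_eq_zero, add_zero]
  · have h2 : (Matrix.of fun i j : Fin (c + 1) => N i j + (if i = 0 then 0 else -(L i / L 0)) *
        N 0 j) 0 0 = L 0 := by
      rw [Matrix.of_apply, if_pos rfl, zero_mul, add_zero, hN0]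
    rw [h2]
    simp only [Fin.val_zero, pow_zero, one_mul]
    congr 2
    ext i j
    rw [Matrix.submatrix_apply, Matrix.of_apply, Matrix.of_apply, Fin.succAbove_zero,
      if_neg (Fin.succ_ne_zero i), hNs, hNs]
    ring
  · intro i _
    have h2 : (Matrix.of fun i j : Fin (c + 1) => N i j + (if i = 0 then 0 else -(L i / L 0)) *
        N 0 j) i.succ 0 = 0 := by
      rw [Matrix.of_apply, if_neg (Fin.succ_ne_zero i), hN0, hN0]
      field_simp
      ring
    rw [h2]
    ring

/-- a block diagonal matrix -/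
theorem block {c n : ℕ} (M : Matrix (Fin (c + n)) (Fin (c + n)) K) (A : Matrix (Fin c) (Fin c) K)
    (x : Fin n → K) (h11 : ∀ i j, M (Fin.castAdd n i) (Fin.castAdd n j) = A i j)
    (h12 : ∀ i j, M (Fin.castAdd n i) (Fin.natAdd c j) = 0)
    (h21 : ∀ i j, M (Fin.natAdd c i) (Fin.castAdd n j) = 0)
    (h22 : ∀ i j, M (Fin.natAdd c i) (Fin.natAdd c j) = if i = j then x j else 0) :
    M.det = A.det * ∏ j, x j := by
  have h : M.submatrix finSumFinEquiv finSumFinEquiv =
      Matrix.fromBlocks A 0 0 (Matrix.diagonal x) := by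
    ext i j
    rcases i with i | i <;> rcases j with j | j
    · simp [h11]
    · simp [h12]
    · simp [h21]
    · simp only [Matrix.submatrix_apply, finSumFinEquiv_apply_right, h22,
        Matrix.fromBlocks_apply₂₂, Matrix.diagonal_apply]
      split_ifs with hij
      · rw [hij]
      · rfl
  rw [← Matrix.det_submatrix_equiv_self finSumFinEquiv M, h, Matrix.det_fromBlocks_zero₂₁,
    Matrix.det_diagonal]

end DetjL

theorem detj : S_DETJ := by
  intro c n K _ _ g J hJ
  set D : Fin (c + n) → Derivation ℂ K K := fun j => g.X.T.D (g.e.symm j) with hD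
  have hDt : ∀ j k, D j (Fin.append g.z g.x k) = if j = k then Fin.append g.z g.x k else 0 := by
    intro j k
    rw [hD]
    simp only
    rw [g.hT (g.e.symm j) k, Equiv.apply_symm_apply]
  have hcn : ∀ (i : Fin c) (j : Fin n), Fin.castAdd n i ≠ Fin.natAdd c j := by
    intro i j h
    have := congrArg Fin.val h
    simp only [Fin.val_castAdd, Fin.val_natAdd] at this
    have := i.2
    omega
  have hzz : ∀ i k : Fin c, D (Fin.castAdd n i) (g.z k) = if i = k then g.z k else 0 := by
    intro i k
    have h1 := hDt (Fin.castAdd n i) (Fin.castAdd n k)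
    rw [Fin.append_left] at h1
    rw [h1]
    by_cases h : i = k
    · rw [if_pos h, if_pos (by rw [h])]
    · rw [if_neg h, if_neg fun h' => h (Fin.castAdd_injective c n h')]
  have hzx : ∀ (i : Fin c) (k : Fin n), D (Fin.castAdd n i) (g.x k) = 0 := by
    intro i k
    have h1 := hDt (Fin.castAdd n i) (Fin.natAdd c k)
    rw [Fin.append_right, if_neg (hcn i k)] at h1
    exact h1
  have hxz : ∀ (i : Fin n) (k : Fin c), D (Fin.natAdd c i) (g.z k) = 0 := by
    intro i k
    have h1 := hDt (Fin.natAdd c i) (Fin.castAdd n k)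
    rw [Fin.append_left, if_neg fun h => hcn k i h.symm] at h1
    exact h1
  have hxx : ∀ i k : Fin n, D (Fin.natAdd c i) (g.x k) = if i = k then g.x k else 0 := by
    intro i k
    have h1 := hDt (Fin.natAdd c i) (Fin.natAdd c k)
    rw [Fin.append_right] at h1
    rw [h1]
    by_cases h : i = k
    · rw [if_pos h, if_pos (by rw [h])]
    · rw [if_neg h, if_neg fun h' => h (Fin.natAdd_injective n c h')]
  have hDl : ∀ (E : Derivation ℂ K K) (y : Fin g.F.q), E (g.l y) =
      ∑ j : Fin c, algebraMap ℂ K (g.A y j.succ) * E (g.z j) := by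
    intro E y
    rw [lf_eq, map_add, Derivation.map_algebraMap, zero_add, map_sum]
    refine Finset.sum_congr rfl fun j _ => ?_
    rw [← Algebra.smul_def, ← Algebra.smul_def, Derivation.map_smul]
  have hzl : ∀ (i : Fin c) (y : Fin g.F.q), D (Fin.castAdd n i) (g.l y) =
      algebraMap ℂ K (g.A y i.succ) * g.z i := by
    intro i y
    rw [hDl, Finset.sum_eq_single i]
    · rw [hzz, if_pos rfl]
    · intro b _ hb
      rw [hzz, if_neg (Ne.symm hb), mul_zero]
    · intro h
      exact absurd (Finset.mem_univ _) h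
  have hxl : ∀ (i : Fin n) (y : Fin g.F.q), D (Fin.natAdd c i) (g.l y) = 0 := by
    intro i y
    rw [hDl]
    exact Finset.sum_eq_zero fun j _ => by rw [hxz, mul_zero]
  have hl0 := l_ne g (J 0)
  -- the matrix of the coefficients
  set a : Matrix (Fin (c + 1)) (Fin (c + 1)) K := Matrix.of fun i j =>
    algebraMap ℂ K (g.A (J i) j) with ha
  have hadet : a.det = algebraMap ℂ K (Matrix.of fun i j => g.A (J i) j).det := by
    rw [RingHom.map_det]
    rfl
  have hS := DetjL.schur a (Fin.cons 1 g.z) rfl (fun i => g.l (J i))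
    (fun i => by
      rw [ArrGerm.l, lf]
      refine Finset.sum_congr rfl fun j _ => ?_
      rw [ha, Matrix.of_apply, mul_comm]) hl0
  refine ⟨(Matrix.of fun i j => g.A (J i) j).det, g.gen J hJ, ?_⟩
  rw [DetjL.block (Matrix.of fun j k : Fin (c + n) => g.X.T.D (g.e.symm j) (coJ g J k))
    (Matrix.of fun j i : Fin c => (g.z j / g.l (J 0)) *
      (a i.succ j.succ - g.l (J i.succ) / g.l (J 0) * a 0 j.succ)) g.x]
  · have h1 : (Matrix.of fun j i : Fin c => (g.z j / g.l (J 0)) *
        (a i.succ j.succ - g.l (J i.succ) / g.l (J 0) * a 0 j.succ)).det =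
        (∏ j, (g.z j / g.l (J 0))) * (Matrix.of fun i j : Fin c =>
          a i.succ j.succ - g.l (J i.succ) / g.l (J 0) * a 0 j.succ).det := by
      rw [← Matrix.det_transpose (Matrix.of fun i j : Fin c =>
          a i.succ j.succ - g.l (J i.succ) / g.l (J 0) * a 0 j.succ), ← Matrix.det_mul_column]
      rfl
    have h2 : (Matrix.of fun i j : Fin c =>
          a i.succ j.succ - g.l (J i.succ) / g.l (J 0) * a 0 j.succ).det =
        algebraMap ℂ K (Matrix.of fun i j => g.A (J i) j).det / g.l (J 0) := by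
      rw [eq_div_iff hl0, mul_comm, hS, hadet]
    rw [h1, h2]
    have hJ0 : ∀ i, g.l (g.J0 i) = (Fin.cons 1 g.z : Fin (c + 1) → K) i := by
      intro i
      rw [ArrGerm.l, lf, g.hJ0 i, Finset.sum_eq_single i]
      · simp
      · intro b _ hb
        simp [hb]
      · intro h
        exact absurd (Finset.mem_univ _) h
    have h3 : ∏ i, g.l (g.J0 i) = ∏ j, g.z j := by
      rw [Fin.prod_univ_succ, hJ0, Fin.cons_zero, one_mul]
      exact Finset.prod_congr rfl fun j _ => by rw [hJ0, Fin.cons_succ]
    have h4 : ∏ k, coJ g J k = (∏ i : Fin c, g.l (J i.succ)) / g.l (J 0) ^ c * ∏ j, g.x j := by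
      rw [Fin.prod_univ_add]
      simp only [coJ, Fin.append_left, Fin.append_right, Finset.prod_div_distrib,
        Finset.prod_const, Finset.card_univ, Fintype.card_fin]
    have h5 : ∏ i, g.l (J i) = g.l (J 0) * ∏ i : Fin c, g.l (J i.succ) := Fin.prod_univ_succ _
    have h6 : ∏ i : Fin c, g.l (J i.succ) ≠ 0 := Finset.prod_ne_zero_iff.2 fun i _ => l_ne g _
    rw [h3, h4, h5, Finset.prod_div_distrib, Finset.prod_const, Finset.card_univ,
      Fintype.card_fin]
    field_simp
  · intro i j
    have h1 : coJ g J (Fin.castAdd n j) = g.l (J j.succ) / g.l (J 0) := by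
      rw [coJ, Fin.append_left]
    rw [Matrix.of_apply, h1, Matrix.of_apply]
    change D (Fin.castAdd n i) _ = _
    rw [Derivation.leibniz_div, hzl, hzl, ha, Matrix.of_apply, Matrix.of_apply]
    simp only [smul_eq_mul]
    field_simp
  · intro i j
    have h1 : coJ g J (Fin.natAdd c j) = g.x j := by
      rw [coJ, Fin.append_right]
    rw [Matrix.of_apply, h1]
    exact hzx i j
  · intro i j
    have h1 : coJ g J (Fin.castAdd n j) = g.l (J j.succ) / g.l (J 0) := by
      rw [coJ, Fin.append_left]
    rw [Matrix.of_apply, h1]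
    change D (Fin.natAdd c i) _ = _
    rw [Derivation.leibniz_div, hxl, hxl]
    simp
  · intro i j
    have h1 : coJ g J (Fin.natAdd c j) = g.x j := by
      rw [coJ, Fin.append_right]
    rw [Matrix.of_apply, h1]
    exact hxx i j

end Pool.Agent.Helper58K9.AR
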