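import Pool.Agent.Helper58K9.AR.Stm

/-!
[HOR] there is a horizontal interior vector.
-/

set_option autoImplicit false

namespace Pool.Agent.Helper58K9.AR

open Pool.Agent.TH165.ACC (pr pr_add pr_zero pr_smul_right)

namespace HorL

theorem pr_add_right {n : ℕ} (m u u' : Fin n → ℤ) : pr m (u + u') = pr m u + pr m u' := by
  simp only [pr, Pi.add_apply, mul_add, Finset.sum_add_distrib]

theorem pr_zero_right {n : ℕ} (m : Fin n → ℤ) : pr m (0 : Fin n → ℤ) = 0 := by
  simp [pr]

theorem pr_sum_right {n : ℕ} {ι : Type} (m : Fin n → ℤ) (s : Finset ι) (u : ι → Fin n → ℤ) :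
    pr m (∑ i ∈ s, u i) = ∑ i ∈ s, pr m (u i) := by
  classical
  induction s using Finset.induction_on with
  | empty => rw [Finset.sum_empty, Finset.sum_empty, pr_zero_right]
  | insert a s ha ih => rw [Finset.sum_insert ha, Finset.sum_insert ha, pr_add_right, ih]

end HorL

open HorL in
theorem hor : S_HOR := by
  classical
  intro n F hF
  choose D hD1 hD2 using hF.onto
  let L : ℕ := ∏ i, if F.mu i = 0 then 1 else F.mu i
  have hL0 : 0 < L := Finset.prod_pos fun i _ => by
    split_ifs with h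
    · exact one_pos
    · exact Nat.pos_of_ne_zero h
  have hL : ∀ i, F.mu i ≠ 0 → ∃ k : ℕ, 0 < k ∧ L = k * F.mu i := by
    intro i hi
    obtain ⟨k, hk⟩ := Finset.dvd_prod_of_mem (fun i => if F.mu i = 0 then 1 else F.mu i)
      (Finset.mem_univ i)
    change L = _ at hk
    rw [if_neg hi] at hk
    refine ⟨k, ?_, by rw [hk, mul_comm]⟩
    rcases Nat.eq_zero_or_pos k with h | h
    · rw [h, mul_zero] at hk
      exact absurd hk hL0.ne'
    · exact h
  choose κ hκ0 hκ using hL
  let kk : Fin F.N → ℕ := fun i => if h : F.mu i ≠ 0 then κ i h else 0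
  have hkk : ∀ i, F.mu i ≠ 0 → 0 < kk i ∧ L = kk i * F.mu i := fun i hi => by
    simp only [kk]
    rw [dif_pos hi]
    exact ⟨hκ0 i hi, hκ i hi⟩
  let W : Fin F.N → Fin n → ℤ := fun i =>
    if F.mu i = 0 then F.v i else
      (kk i : ℤ) • F.v i + ∑ y ∈ Finset.univ.erase (F.pt i), (kk (D y) : ℤ) • F.v (D y)
  refine ⟨∑ i, W i, fun e m hem => ?_⟩
  rw [pr_sum_right]
  refine Finset.sum_le_sum fun i _ => ?_
  by_cases hi : F.mu i = 0
  · have h1 : W i = F.v i := if_pos hi
    rw [h1]
    unfold Fan.val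
    rw [hi, Nat.cast_zero, zero_mul, zero_add]
  · have h1 : W i = (kk i : ℤ) • F.v i
        + ∑ y ∈ Finset.univ.erase (F.pt i), (kk (D y) : ℤ) • F.v (D y) := if_neg hi
    have h2 : pr m (W i) = (kk i : ℤ) * F.val i e m
        + ∑ y ∈ Finset.univ.erase (F.pt i), (kk (D y) : ℤ) * F.val (D y) e m := by
      rw [h1, pr_add_right, pr_sum_right, pr_smul_right]
      simp only [pr_smul_right]
      have h3 : ∀ y, (kk (D y) : ℤ) * F.val (D y) e m
          = L * e y + (kk (D y) : ℤ) * pr m (F.v (D y)) := by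
        intro y
        have h4 := (hkk (D y) (hD2 y).ne').2
        unfold Fan.val
        rw [hD1 y, h4]
        push_cast
        ring
      have h5 : (kk i : ℤ) * F.val i e m = L * e (F.pt i) + (kk i : ℤ) * pr m (F.v i) := by
        have h4 := (hkk i hi).2
        unfold Fan.val
        rw [h4]
        push_cast
        ring
      rw [h5]
      simp only [h3, Finset.sum_add_distrib]
      have h6 : ∑ y ∈ Finset.univ.erase (F.pt i), (L : ℤ) * e y = - (L * e (F.pt i)) := by
        rw [← Finset.mul_sum]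
        have h7 := Finset.add_sum_erase Finset.univ e (Finset.mem_univ (F.pt i))
        rw [hem.1] at h7
        have h8 : ∑ y ∈ Finset.univ.erase (F.pt i), e y = - e (F.pt i) := by linarith
        rw [h8, mul_neg]
      rw [h6]
      ring
    rw [h2]
    have h3 : 0 ≤ ∑ y ∈ Finset.univ.erase (F.pt i), (kk (D y) : ℤ) * F.val (D y) e m :=
      Finset.sum_nonneg fun y _ => mul_nonneg (Int.natCast_nonneg _) (hem.2 _)
    have h4 : F.val i e m ≤ (kk i : ℤ) * F.val i e m := by
      have h5 : (1 : ℤ) ≤ kk i := by exact_mod_cast (hkk i hi).1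
      nlinarith [hem.2 i]
    linarith

end Pool.Agent.Helper58K9.AR
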