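import Pool.Agent.Helper58K9.AR.Stm

/-!
# General arrangement varieties: the leaves INT and OVERP
-/

set_option autoImplicit false

namespace Pool.Agent.Helper58K9.AR

open Pool.Agent.H436R3.Fol Pool.Agent.H436R3.KT Pool.Agent.W497.Mld MvPolynomial
open Pool.Agent.TH165.ACC (pr)

namespace IntOver

variable {c n : ℕ} {K : Type} [Field K] [Algebra ℂ K]

theorem pos_zero (w : DVal K) : w.Pos 0 := Or.inl rfl

theorem pos_smul (w : DVal K) (a : ℂ) {f : K} (hf : w.Pos f) : w.Pos (a • f) := by
  rw [Algebra.smul_def]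
  exact w.pos_mul_left (w.reg_const a) hf

theorem reg_smul (w : DVal K) (a : ℂ) {f : K} (hf : w.Reg f) : w.Reg (a • f) := by
  rw [Algebra.smul_def]
  exact w.reg_mul (w.reg_const a) hf

theorem span_pos (w : DVal K) (T : Set K) (hT : ∀ f ∈ T, w.Pos f) (f : K)
    (hf : f ∈ Submodule.span ℂ T) : w.Pos f := by
  induction hf using Submodule.span_induction with
  | mem x hx => exact hT x hx
  | zero => exact pos_zero w
  | add x y _ _ hx hy => exact w.pos_add hx hy
  | smul a x _ hx => exact pos_smul w a hx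

theorem span_reg (w : DVal K) (T : Set K) (hT : ∀ f ∈ T, w.Reg f) (f : K)
    (hf : f ∈ Submodule.span ℂ T) : w.Reg f := by
  induction hf using Submodule.span_induction with
  | mem x hx => exact hT x hx
  | zero => exact w.reg_zero
  | add x y _ _ hx hy => exact w.reg_add hx hy
  | smul a x _ hx => exact reg_smul w a hx

theorem adj_reg (w : DVal K) (T : Set K) (hT : ∀ f ∈ T, w.Reg f) (f : K)
    (hf : f ∈ Algebra.adjoin ℂ T) : w.Reg f := by
  induction hf using Algebra.adjoin_induction with
  | mem x hx => exact hT x hx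
  | algebraMap r => exact w.reg_const r
  | add x y _ _ hx hy => exact w.reg_add hx hy
  | mul x y _ _ hx hy => exact w.reg_mul hx hy

/-- regular functions are regular -/
theorem R_reg (g : ArrGerm c n K) (w : DVal K)
    (h : ∀ e m, g.F.Mem e m → w.Reg (ch g.l g.x e m)) (f : K) (hf : f ∈ g.X.R) : w.Reg f := by
  have h1 : f ∈ Submodule.span ℂ {f | ∃ e m, g.F.Mem e m ∧ f = ch g.l g.x e m} := by
    rw [← span_R]
    exact hf
  apply span_reg w _ _ f h1
  rintro _ ⟨e, m, hem, rfl⟩
  exact h e m hem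

end IntOver

open IntOver in
/-- [INT] -/
theorem int : S_INT := by
  intro c n K _ _ g v s w hty hov e m hem h0
  have h1 : ch g.l g.x e m ∈ g.X.R := ch_mem g hem
  have h2 : g.P ⟨_, h1⟩ = 0 := g.hP ⟨_, h1⟩ e m hem h0 rfl
  have h3 := (hov.2 ⟨_, h1⟩).2 h2
  have h4 := h3.resolve_left (ch_ne g e m)
  rw [ord_ch hty m hem.1] at h4
  exact h4

open IntOver in
/-- [OVERP] -/
theorem overp : S_OVERP := by
  intro c n K _ _ g v s w S hty hint hfg hloc
  have hchs : ∀ f ∈ chs g, w.Pos f := by
    rintro _ ⟨e, m, hem, h0, rfl⟩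
    right
    rw [ord_ch hty m hem.1]
    exact hint e m hem h0
  have hreg : ∀ e m, g.F.Mem e m → w.Reg (ch g.l g.x e m) := by
    intro e m hem
    by_cases h0 : e ≠ 0 ∨ m ≠ 0
    · have := hchs _ ⟨e, m, hem, h0, rfl⟩
      rcases this with h | h
      · exact Or.inl h
      · exact Or.inr h.le
    · push Not at h0
      rw [h0.1, h0.2, ch_zero]
      exact w.reg_one
  have hR := R_reg g w hreg
  refine ⟨⟨g.X.R ⊔ S, ?_, le_sup_left, ?_, ?_⟩, ?_⟩
  · exact g.X.fg.sup hfg
  · intro f hf
    have h1 : g.X.R ⊔ S = Algebra.adjoin ℂ ((g.X.R : Set K) ∪ (S : Set K)) := by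
      rw [Algebra.adjoin_union, Algebra.adjoin_eq, Algebra.adjoin_eq]
    rw [h1] at hf
    apply adj_reg w _ _ f hf
    rintro x (hx | hx)
    · exact hR x hx
    · exact hloc.1 x hx
  · intro f hf
    obtain ⟨a, b, ha, hb, hb0, hob, hab⟩ := hloc.2 f hf
    exact ⟨a, b, le_sup_right (a := g.X.R) ha, le_sup_right (a := g.X.R) hb, hb0, hob, hab⟩
  · intro f
    have h1 := span_pos w _ hchs _ (rep g f)
    constructor
    · intro hf
      by_contra hP
      have h2 : w.Pos (algebraMap ℂ K (g.P f)) := by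
        have h3 : algebraMap ℂ K (g.P f) =
            (f : K) + (-1 : ℂ) • ((f : K) - algebraMap ℂ K (g.P f)) := by
          rw [Algebra.smul_def, map_neg, map_one]
          ring
        rw [h3]
        exact w.pos_add hf (pos_smul w _ h1)
      rcases h2 with h2 | h2
      · apply hP
        rwa [FaithfulSMul.algebraMap_eq_zero_iff] at h2
      · rw [w.const _ hP] at h2
        exact lt_irrefl _ h2
    · intro hP
      rw [hP, map_zero, sub_zero] at h1
      exact h1

end Pool.Agent.Helper58K9.AR
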