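import Pool.Agent.TH165.ACC.Main

/-!
# The ascending chain condition for profiles: the sequences
-/

set_option autoImplicit false

namespace Pool.Agent.Helper58K9.AR.LimL

open Filter Topology Set
open Pool.Agent.TH165.ACC (IsDCC IsACC subseq_coef subseq_groups lift_close)

variable {r s : ℕ}

/-- the data of a profile with value `m` -/
structure Dat (D : Set ℝ) (m : ℝ) (a : Fin r → ℝ) (M : Fin r → Fin s → ℤ)
    (x : Fin r → ℝ) : Prop where
  ha : ∀ j, 1 - a j ∈ D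
  hM : ∀ j i, -1 ≤ M j i
  hx : ∀ j, 0 < x j
  fin : ∃ L : ℕ, 0 < L ∧ ∀ j, ∃ z : ℤ, (L : ℝ) * x j = z
  int : ∀ i, ∃ z : ℕ, ∑ j, x j * (M j i : ℝ) = z
  eq : m = ∑ j, x j * a j
  le : ∀ x' : Fin r → ℝ, (∀ j, 0 < x' j) →
      (∃ (k : ℤ) (l : Fin r → ℤ), ∀ j, x' j = k * x j + l j) →
      (∀ i, 0 ≤ ∑ j, x' j * (M j i : ℝ)) → m ≤ ∑ j, x' j * a j

/-- the group generated by `x` -/
def grp (x : Fin r → ℝ) : AddSubgroup (Fin r → UnitAddCircle) :=
  AddSubgroup.zmultiples (fun j => (x j : UnitAddCircle))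

lemma coe_int (z : ℤ) : ((z : ℝ) : UnitAddCircle) = 0 := by
  have : ((z : ℤ) : ℝ) = z • (1 : ℝ) := by simp
  rw [this, AddCircle.coe_zsmul, AddCircle.coe_period, smul_zero]

lemma grp_finite {x : Fin r → ℝ} (h : ∃ L : ℕ, 0 < L ∧ ∀ j, ∃ z : ℤ, (L : ℝ) * x j = z) :
    Finite (grp x) := by
  obtain ⟨L, hL, hz⟩ := h
  have h1 : L • (fun j => (x j : UnitAddCircle)) = 0 := by
    funext j
    obtain ⟨z, hz⟩ := hz j
    rw [Pi.smul_apply, Pi.zero_apply, ← AddCircle.coe_nsmul, nsmul_eq_mul, hz]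
    exact coe_int z
  have h2 : IsOfFinAddOrder (fun j => (x j : UnitAddCircle)) :=
    isOfFinAddOrder_iff_nsmul_eq_zero.2 ⟨L, hL, h1⟩
  have h3 := (finite_zmultiples (a := fun j => (x j : UnitAddCircle))).2 h2
  exact h3

lemma exists_int {t : ℝ} (h : ((t : ℝ) : UnitAddCircle) = 0) : ∃ z : ℤ, t = z := by
  rw [AddCircle.coe_eq_zero_iff] at h
  obtain ⟨z, hz⟩ := h
  refine ⟨z, ?_⟩
  rw [← hz]
  simp

theorem no_seq {D : Set ℝ} (a : ℕ → Fin r → ℝ) (M : ℕ → Fin r → Fin s → ℤ) (x : ℕ → Fin r → ℝ)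
    (u : ℕ → ℝ) (hu : StrictMono u) (h : ∀ k, Dat D (u k) (a k) (M k) (x k))
    (ha : ∀ k j, a k j ≤ a 0 j) (hM : ∀ k j i, M 0 j i ≤ M k j i)
    (hG : ∀ ε : ℝ, 0 < ε → ∀ᶠ l in atTop, ∃ g' ∈ grp (x l),
      dist g' (fun j => (x 0 j : UnitAddCircle)) < ε) : False := by
  have h0 := h 0
  -- the constants
  set A : ℝ := ∑ j, |a 0 j| with hA
  have hA0 : 0 ≤ A := Finset.sum_nonneg fun _ _ => abs_nonneg _
  set B : ℝ := ∑ i : Fin s, ∑ j, |(M 0 j i : ℝ)| with hB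
  have hB0 : 0 ≤ B := Finset.sum_nonneg fun _ _ => Finset.sum_nonneg fun _ _ => abs_nonneg _
  have h01 : u 0 < u 1 := hu one_pos
  obtain ⟨μ, hμ0, hμ⟩ : ∃ μ : ℝ, 0 < μ ∧ ∀ j, μ ≤ x 0 j := by
    by_cases hn : Nonempty (Fin r)
    · obtain ⟨i0, hi0⟩ := Finite.exists_min (x 0)
      exact ⟨x 0 i0, h0.hx i0, hi0⟩
    · exact ⟨1, one_pos, fun i => absurd ⟨i⟩ hn⟩
  obtain ⟨ε, hε0, hεμ, hεA, hεB⟩ : ∃ ε : ℝ, 0 < ε ∧ ε ≤ μ ∧ ε * A < u 1 - u 0 ∧ ε * B < 1 := by
    refine ⟨min μ (min ((u 1 - u 0) / (A + 1)) (1 / (B + 1))), ?_, min_le_left _ _, ?_, ?_⟩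
    · refine lt_min hμ0 (lt_min (div_pos (by linarith) (by linarith)) (by positivity))
    · calc min μ (min ((u 1 - u 0) / (A + 1)) (1 / (B + 1))) * A
          ≤ (u 1 - u 0) / (A + 1) * A :=
            mul_le_mul_of_nonneg_right ((min_le_right _ _).trans (min_le_left _ _)) hA0
        _ < u 1 - u 0 := by
            rw [div_mul_eq_mul_div, div_lt_iff₀ (by linarith)]
            nlinarith
    · calc min μ (min ((u 1 - u 0) / (A + 1)) (1 / (B + 1))) * B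
          ≤ 1 / (B + 1) * B :=
            mul_le_mul_of_nonneg_right ((min_le_right _ _).trans (min_le_right _ _)) hB0
        _ < 1 := by
            rw [div_mul_eq_mul_div, div_lt_iff₀ (by linarith)]
            linarith
  obtain ⟨l, hl1, g', hg', hdist⟩ := ((eventually_ge_atTop 1).and (hG ε hε0)).exists
  obtain ⟨x', hx'g, hx'⟩ := lift_close (x 0) g' ε hε0 hdist
  have hpos : ∀ j, 0 < x' j := by
    intro j
    have e1 := (abs_lt.1 (hx' j)).1
    have e2 := hμ j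
    linarith
  -- the coordinates
  have hrel : ∃ (k : ℤ) (l' : Fin r → ℤ), ∀ j, x' j = k * x l j + l' j := by
    obtain ⟨k, hk⟩ := AddSubgroup.mem_zmultiples_iff.1 hg'
    have h1 : ∀ j, ∃ z : ℤ, x' j - k * x l j = z := by
      intro j
      apply exists_int
      have h2 := congrFun hk j
      have h3 := congrFun hx'g j
      simp only [Pi.smul_apply] at h2
      rw [AddCircle.coe_sub]
      have h4 : ((k * x l j : ℝ) : UnitAddCircle) = k • (x l j : UnitAddCircle) := by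
        rw [← zsmul_eq_mul, AddCircle.coe_zsmul]
      rw [h4, h2, h3, sub_self]
    choose l' hl' using h1
    exact ⟨k, l', fun j => by rw [← hl' j]; ring⟩
  have hint : ∀ i, ∃ z : ℤ, ∑ j, x' j * (M l j i : ℝ) = z := by
    intro i
    obtain ⟨k, l', hkl⟩ := hrel
    obtain ⟨z, hz⟩ := (h l).int i
    refine ⟨k * z + ∑ j, l' j * M l j i, ?_⟩
    push_cast
    have e1 : ∑ j, x' j * (M l j i : ℝ) = k * ∑ j, x l j * (M l j i : ℝ) +
        ∑ j, (l' j : ℝ) * (M l j i : ℝ) := by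
      rw [Finset.mul_sum, ← Finset.sum_add_distrib]
      refine Finset.sum_congr rfl fun j _ => ?_
      rw [hkl j]
      ring
    rw [e1, hz]
  have hnn : ∀ i, 0 ≤ ∑ j, x' j * (M l j i : ℝ) := by
    intro i
    obtain ⟨z, hz⟩ := hint i
    obtain ⟨z0, hz0⟩ := h0.int i
    have e1 : ∑ j, x' j * (M 0 j i : ℝ) ≤ ∑ j, x' j * (M l j i : ℝ) :=
      Finset.sum_le_sum fun j _ =>
        mul_le_mul_of_nonneg_left (by exact_mod_cast hM l j i) (hpos j).le
    have e2 : ∑ j, x 0 j * (M 0 j i : ℝ) - ε * ∑ j, |(M 0 j i : ℝ)| ≤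
        ∑ j, x' j * (M 0 j i : ℝ) := by
      rw [Finset.mul_sum, ← Finset.sum_sub_distrib]
      refine Finset.sum_le_sum fun j _ => ?_
      have e3 : -(ε * |(M 0 j i : ℝ)|) ≤ (x' j - x 0 j) * (M 0 j i : ℝ) := by
        have e4 : |(x' j - x 0 j) * (M 0 j i : ℝ)| ≤ ε * |(M 0 j i : ℝ)| := by
          rw [abs_mul]
          exact mul_le_mul_of_nonneg_right (hx' j).le (abs_nonneg _)
        exact (abs_le.1 e4).1
      linarith
    have e5 : ∑ j, |(M 0 j i : ℝ)| ≤ B := by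
      rw [hB]
      exact Finset.single_le_sum (f := fun i : Fin s => ∑ j, |(M 0 j i : ℝ)|)
        (fun _ _ => Finset.sum_nonneg fun _ _ => abs_nonneg _) (Finset.mem_univ i)
    have e6 : ε * ∑ j, |(M 0 j i : ℝ)| ≤ ε * B := mul_le_mul_of_nonneg_left e5 hε0.le
    have e7 : (0 : ℝ) ≤ z0 := Nat.cast_nonneg _
    have e8 : (-1 : ℝ) < z := by
      rw [← hz]
      linarith
    have e9 : (-1 : ℤ) < z := by exact_mod_cast e8
    rw [hz]
    exact_mod_cast (by omega : (0 : ℤ) ≤ z)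
  have hfin := (h l).le x' hpos hrel hnn
  have e1 : ∑ j, x' j * a l j ≤ ∑ j, x' j * a 0 j :=
    Finset.sum_le_sum fun j _ => mul_le_mul_of_nonneg_left (ha l j) (hpos j).le
  have e2 : ∑ j, x' j * a 0 j ≤ ∑ j, x 0 j * a 0 j + ε * A := by
    rw [hA, Finset.mul_sum, ← Finset.sum_add_distrib]
    refine Finset.sum_le_sum fun j _ => ?_
    have e4 : |(x' j - x 0 j) * a 0 j| ≤ ε * |a 0 j| := by
      rw [abs_mul]
      exact mul_le_mul_of_nonneg_right (hx' j).le (abs_nonneg _)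
    have := (abs_le.1 e4).2
    linarith
  have e3 : u 1 ≤ u l := hu.monotone hl1
  have e4 := h0.eq
  linarith

theorem subseq_M (M : ℕ → Fin r → Fin s → ℤ) (h : ∀ k j i, -1 ≤ M k j i) :
    ∃ θ : ℕ → ℕ, StrictMono θ ∧ Monotone (M ∘ θ) := by
  let c' : ℕ → Fin r → Fin s → ℕ := fun k j i => (M k j i + 1).toNat
  obtain ⟨g, hg⟩ := (wellQuasiOrdered_le (α := Fin r → Fin s → ℕ)).exists_monotone_subseq c'
  refine ⟨g, g.strictMono, fun a b hab j i => ?_⟩
  have h1 : c' (g a) j i ≤ c' (g b) j i := hg a b hab j i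
  have h2 := h (g a) j i
  have h3 := h (g b) j i
  simp only [c'] at h1
  simp only [Function.comp_apply]
  omega

theorem no_strict {D : Set ℝ} (hD : IsDCC D) (u : ℕ → ℝ) (hu : StrictMono u)
    (h : ∀ k, ∃ (a : Fin r → ℝ) (M : Fin r → Fin s → ℤ) (x : Fin r → ℝ), Dat D (u k) a M x) :
    False := by
  choose a M x hd using h
  obtain ⟨θ1, h1, h1'⟩ := subseq_coef hD (fun k j => 1 - a k j) (fun k j => (hd k).ha j)
  obtain ⟨θ2, h2, h2'⟩ := subseq_M (fun k => M (θ1 k)) (fun k => (hd _).hM)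
  obtain ⟨θ3, h3, h3'⟩ := subseq_groups (fun k => grp (x (θ1 (θ2 k))))
    (fun k => grp_finite (hd _).fin)
  refine no_seq (D := D) (fun k => a (θ1 (θ2 (θ3 k)))) (fun k => M (θ1 (θ2 (θ3 k))))
    (fun k => x (θ1 (θ2 (θ3 k)))) (fun k => u (θ1 (θ2 (θ3 k))))
    (hu.comp (h1.comp (h2.comp h3))) (fun k => hd _) ?_ ?_ ?_
  · intro k j
    have h4 := h1' ((h2.comp h3).monotone (Nat.zero_le k)) j
    simp only [Function.comp_apply] at h4
    linarith
  · intro k j i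
    exact h2' (h3.monotone (Nat.zero_le k)) j i
  · intro ε hε
    exact h3' 0 _ (AddSubgroup.mem_zmultiples _) ε hε

theorem acc {D : Set ℝ} (hD : IsDCC D) : IsACC {m : ℝ | ∃ (a : Fin r → ℝ)
    (M : Fin r → Fin s → ℤ) (x : Fin r → ℝ), Dat D m a M x} := by
  intro u hu hmem
  by_contra hcon
  push Not at hcon
  choose f hf hf' using hcon
  have hlt : ∀ K, u K < u (f K) := fun K => lt_of_le_of_ne (hu (hf K)) (hf' K).symm
  let g : ℕ → ℕ := fun k => Nat.rec 0 (fun _ x => f x) k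
  have hg : StrictMono (u ∘ g) := strictMono_nat_of_lt_succ fun k => hlt (g k)
  exact no_strict (r := r) (s := s) hD (u ∘ g) hg fun k => hmem (g k)

end Pool.Agent.Helper58K9.AR.LimL
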