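import Pool.Agent.Helper58K9.AR.Stm
import Pool.Agent.Helper58K9.AR.LimA

/-!
# The ascending chain condition for profiles
-/

set_option autoImplicit false

namespace Pool.Agent.Helper58K9.AR

theorem lim : S_LIM := by
  intro r s D hD
  have h := LimL.acc (r := r) (s := s) hD
  have e : prof r s D = {m : ℝ | ∃ (a : Fin r → ℝ) (M : Fin r → Fin s → ℤ) (x : Fin r → ℝ),
      LimL.Dat D m a M x} := by
    ext m
    constructor
    · rintro ⟨a, M, x, h1, h2, h3, h4, h5, h6, h7⟩
      exact ⟨a, M, x, h1, h2, h3, h4, h5, h6, h7⟩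
    · rintro ⟨a, M, x, h⟩
      exact ⟨a, M, x, h.ha, h.hM, h.hx, h.fin, h.int, h.eq, h.le⟩
  rw [e]
  exact h

end Pool.Agent.Helper58K9.AR
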