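import Pool.Agent.Helper58K9.AR.Stm

/-!
# Every linear form is a combination of `c + 1` of them
-/

set_option autoImplicit false

namespace Pool.Agent.Helper58K9.AR

open Pool.Agent.H436R3.Fol Pool.Agent.H436R3.KT Pool.Agent.W497.Mld MvPolynomial

namespace LinL

/-- coordinates of a vector in a basis of rows -/
theorem exists_coord {N : ℕ} (M : Matrix (Fin N) (Fin N) ℂ) (hM : M.det ≠ 0) (a : Fin N → ℂ) :
    ∃ β : Fin N → ℂ, a = ∑ i, β i • M i := by
  have hu : IsUnit M.det := isUnit_iff_ne_zero.2 hM
  refine ⟨Matrix.vecMul a M⁻¹, ?_⟩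
  have h1 : Matrix.vecMul (Matrix.vecMul a M⁻¹) M = a := by
    rw [Matrix.vecMul_vecMul, Matrix.nonsing_inv_mul M hu, Matrix.vecMul_one]
  funext j
  have h2 := congrFun h1 j
  rw [Matrix.vecMul, dotProduct] at h2
  rw [← h2, Finset.sum_apply]
  rfl

/-- a row of a product of coordinates -/
theorem coord_ne {N : ℕ} (M : Matrix (Fin N) (Fin N) ℂ) (β : Fin N → ℂ) (i : Fin N)
    (h : (M.updateRow i (∑ k, β k • M k)).det ≠ 0) : β i ≠ 0 := by
  intro h0
  apply h
  rw [Matrix.det_updateRow_sum, h0, zero_smul]

end LinL

theorem lin : S_LIN := by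
  intro c n K _ _ g J hJ y
  obtain ⟨β, hβ⟩ := LinL.exists_coord _ (g.gen J hJ) (g.A y)
  refine ⟨β, ?_, ?_⟩
  · simp only [ArrGerm.l, lf, Finset.mul_sum]
    rw [Finset.sum_comm]
    refine Finset.sum_congr rfl fun j _ => ?_
    have h1 := congrFun hβ j
    rw [Finset.sum_apply] at h1
    rw [h1, map_sum, Finset.sum_mul]
    refine Finset.sum_congr rfl fun i _ => ?_
    simp only [Pi.smul_apply, Matrix.of_apply, smul_eq_mul, map_mul]
    ring
  · intro hy i
    apply LinL.coord_ne (Matrix.of fun i j => g.A (J i) j) β i
    rw [← hβ]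
    have hinj : Function.Injective (Function.update J i y) := by
      intro a b hab
      by_cases ha : a = i
      · by_cases hb : b = i
        · rw [ha, hb]
        · exfalso
          rw [ha, Function.update_self, Function.update_of_ne hb] at hab
          exact hy ⟨b, hab.symm⟩
      · by_cases hb : b = i
        · exfalso
          rw [hb, Function.update_self, Function.update_of_ne ha] at hab
          exact hy ⟨a, hab⟩
        · rw [Function.update_of_ne ha, Function.update_of_ne hb] at hab
          exact hJ hab
    have h1 := g.gen _ hinj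
    convert h1 using 2
    ext a b
    by_cases ha : a = i
    · subst ha
      simp
    · simp [Matrix.updateRow_ne ha, Function.update_of_ne ha]

end Pool.Agent.Helper58K9.AR
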