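import Pool.Agent.Helper58K9.AR.Stm

/-!
# General arrangement varieties: [LOW] (helper38)
-/

set_option autoImplicit false

namespace Pool.Agent.Helper58K9.AR

open Pool.Agent.H436R3.Fol Pool.Agent.H436R3.KT Pool.Agent.W497.Mld MvPolynomial
open Pool.Agent.TH165.ACC (pr)

namespace LowL

/-- `c + 1` hyperplanes which contain the support of a tropical vector -/
theorem exists_J (c q : ℕ) (s : Fin q → ℤ) (hs : Trop c s) (hq : c + 1 ≤ q) :
    ∃ J : Fin (c + 1) → Fin q, Function.Injective J ∧ s (J 0) = 0 ∧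
      ∀ y, s y ≠ 0 → y ∈ Set.range J := by
  classical
  obtain ⟨T, hT1, hT2⟩ := Finset.exists_superset_card_eq (n := c + 1)
    (s := Finset.univ.filter fun y => s y ≠ 0) (hs.2.trans (Nat.le_succ c))
    (by rw [Fintype.card_fin]; exact hq)
  obtain ⟨y0, hy0, hy1⟩ : ∃ y0 ∈ T, s y0 = 0 := by
    by_contra hcon
    push Not at hcon
    have h1 : T ⊆ Finset.univ.filter fun y => s y ≠ 0 := fun y hy =>
      Finset.mem_filter.2 ⟨Finset.mem_univ y, hcon y hy⟩
    have h2 := (Finset.card_le_card h1).trans hs.2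
    omega
  obtain ⟨E⟩ : Nonempty (Fin (c + 1) ≃ T) := ⟨(Fintype.equivFinOfCardEq (by simpa using hT2)).symm⟩
  refine ⟨fun i => (E (Equiv.swap 0 (E.symm ⟨y0, hy0⟩) i) : Fin q), ?_, ?_, fun y hy => ?_⟩
  · intro a b hab
    exact (Equiv.injective _) (E.injective (Subtype.ext hab))
  · show s (E (Equiv.swap 0 (E.symm ⟨y0, hy0⟩) 0) : Fin q) = 0
    rw [Equiv.swap_apply_left, Equiv.apply_symm_apply]
    exact hy1
  · have h1 : y ∈ T := hT1 (Finset.mem_filter.2 ⟨Finset.mem_univ y, hy⟩)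
    refine ⟨(Equiv.swap 0 (E.symm ⟨y0, hy0⟩)).symm (E.symm ⟨y, h1⟩), ?_⟩
    show ((E (Equiv.swap 0 (E.symm ⟨y0, hy0⟩) ((Equiv.swap 0 (E.symm ⟨y0, hy0⟩)).symm
      (E.symm ⟨y, h1⟩))) : T) : Fin q) = y
    rw [Equiv.apply_symm_apply, Equiv.apply_symm_apply]

/-- the sum over an injective family which contains the support -/
theorem sum_J {c q : ℕ} {s : Fin q → ℤ} {J : Fin (c + 1) → Fin q} (hJ : Function.Injective J)
    (h : ∀ y, s y ≠ 0 → y ∈ Set.range J) : ∑ i, s (J i) = ∑ y, s y := by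
  classical
  rw [← Finset.sum_image (f := s) (s := Finset.univ) (g := J) fun a _ b _ hab => hJ hab]
  refine Finset.sum_subset (Finset.subset_univ _) fun y _ hy => ?_
  by_contra hne
  obtain ⟨i, hi⟩ := h y hne
  exact hy (Finset.mem_image.2 ⟨i, Finset.mem_univ i, hi⟩)

variable {c n : ℕ} {K : Type} [Field K] [Algebra ℂ K]

/-- the contribution of the canonical form -/
theorem sum_kap (g : ArrGerm c n K) (s : Fin g.F.q → ℤ) :
    ∑ y, kap g y * s y = ∑ y, s y - ∑ i, s (g.J0 i) := by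
  classical
  have h1 : ∑ i, s (g.J0 i) = ∑ y, if y ∈ Set.range g.J0 then s y else 0 := by
    rw [← Finset.sum_image (f := s) (s := Finset.univ) (g := g.J0) fun a _ b _ hab => J0_inj g hab,
      ← Finset.sum_filter]
    refine Finset.sum_congr ?_ fun _ _ => rfl
    ext y
    simp
  rw [h1, ← Finset.sum_sub_distrib]
  refine Finset.sum_congr rfl fun y _ => ?_
  unfold kap
  by_cases h : y ∈ Set.range g.J0
  · rw [if_pos h, if_pos h]; ring
  · rw [if_neg h, if_neg h]; ring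

theorem coJ_ne (g : ArrGerm c n K) (J : Fin (c + 1) → Fin g.F.q) (k : Fin (c + n)) :
    coJ g J k ≠ 0 := by
  unfold coJ
  refine Fin.addCases (fun i => ?_) (fun i => ?_) k
  · rw [Fin.append_left]
    exact div_ne_zero (l_ne g _) (l_ne g _)
  · rw [Fin.append_right]
    exact x_ne g i

end LowL

open LowL in
theorem low (hD : S_DETJ) : S_LOW := by
  intro c n K _ _ g w v s k hty hs hcan
  obtain ⟨J, hJ, hJ0, hsupp⟩ := LowL.exists_J c g.F.q s hs (le_q g)
  obtain ⟨lam, hlam, hdet⟩ := hD c n K g J hJ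
  obtain ⟨_, t, ht⟩ := hty
  have hl : algebraMap ℂ K lam ≠ 0 := by simpa using hlam
  have hp1 : (∏ k, coJ g J k) ≠ 0 := Finset.prod_ne_zero_iff.2 fun k _ => coJ_ne g J k
  have hp2 : (∏ i, g.l (g.J0 i)) ≠ 0 := Finset.prod_ne_zero_iff.2 fun i _ => l_ne g _
  have hp3 : (∏ i, g.l (J i)) ≠ 0 := Finset.prod_ne_zero_iff.2 fun i _ => l_ne g _
  have hd0 : (Matrix.of fun j k : Fin (c + n) => g.X.T.D (g.e.symm j) (coJ g J k)).det ≠ 0 := by
    rw [hdet]
    exact div_ne_zero (mul_ne_zero (mul_ne_zero hl hp1) hp2) hp3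
  have h1 := can_ge w hcan g.e (fun j => g.X.T.D (g.e.symm j)) (fun i => by simp) (coJ g J)
    (coJ_ne g J) hd0
  rw [hdet, w.ord_div (mul_ne_zero (mul_ne_zero hl hp1) hp2) hp3,
    w.map_mul _ _ (mul_ne_zero hl hp1) hp2, w.map_mul _ _ hl hp1, w.const lam hlam,
    w.ord_prod _ _ fun k _ => coJ_ne g J k, w.ord_prod _ _ fun i _ => l_ne g _,
    w.ord_prod _ _ fun i _ => l_ne g _] at h1
  have h2 : ∑ i, w.ord (g.l (J i)) = (c + 1) * t + ∑ y, s y := by
    rw [← sum_J hJ hsupp]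
    simp only [ht, Finset.sum_add_distrib, Finset.sum_const, Finset.card_univ, Fintype.card_fin,
      nsmul_eq_mul]
    push_cast
    ring
  have h3 : ∑ i, w.ord (g.l (g.J0 i)) = (c + 1) * t + ∑ i, s (g.J0 i) := by
    simp only [ht, Finset.sum_add_distrib, Finset.sum_const, Finset.card_univ, Fintype.card_fin,
      nsmul_eq_mul]
    push_cast
    ring
  rw [h2, h3] at h1
  rw [sum_kap]
  linarith

end Pool.Agent.Helper58K9.AR
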