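import Pool.Agent.Helper58K9.AR.IntOver

/-!
# General arrangement varieties: the leaf ONP
-/

set_option autoImplicit false

namespace Pool.Agent.Helper58K9.AR

open Pool.Agent.H436R3.Fol Pool.Agent.H436R3.KT Pool.Agent.W497.Mld MvPolynomial
open Pool.Agent.TH165.ACC (pr)

namespace OnpL

variable {c n : ℕ} {K : Type} [Field K] [Algebra ℂ K]

/-- the characters with a non-negative value -/
def Hs (g : ArrGerm c n K) (v : Fin n → ℤ) (s : Fin g.F.q → ℤ) : Set K :=
  {f | ∃ e m, ∑ y, e y = 0 ∧ 0 ≤ vl v s e m ∧ f = ch g.l g.x e m}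

/-- the characters with a positive value -/
def Ms (g : ArrGerm c n K) (v : Fin n → ℤ) (s : Fin g.F.q → ℤ) : Set K :=
  {f | ∃ e m, ∑ y, e y = 0 ∧ 0 < vl v s e m ∧ f = ch g.l g.x e m}

/-- the characters whose degree lies in `T` -/
def Cs (g : ArrGerm c n K) (v0 : Fin n → ℤ) (T : Set ℤ) : Set K :=
  {f | ∃ e m, ∑ y, e y = 0 ∧ pr m v0 ∈ T ∧ f = ch g.l g.x e m}

theorem HSA_span (g : ArrGerm c n K) (v : Fin n → ℤ) (s : Fin g.F.q → ℤ) :
    Subalgebra.toSubmodule (HSA g v s) = Submodule.span ℂ (Hs g v s) := by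
  rw [HSA, Algebra.adjoin_eq_span]
  congr 1
  apply subset_antisymm _ Submonoid.subset_closure
  intro f hf
  induction hf using Submonoid.closure_induction with
  | mem x hx => exact hx
  | one => exact ⟨0, 0, by simp, by rw [vl_zero'], (ch_zero g).symm⟩
  | mul x y _ _ hx hy =>
    obtain ⟨e, m, h, h', rfl⟩ := hx
    obtain ⟨e', m', h1, h1', rfl⟩ := hy
    refine ⟨e + e', m + m', ?_, ?_, (ch_add g _ _ _ _).symm⟩
    · simp [Finset.sum_add_distrib, h, h1]
    · rw [vl_add']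
      exact add_nonneg h' h1'

theorem mul_M {g : ArrGerm c n K} {v : Fin n → ℤ} {s : Fin g.F.q → ℤ} {x y : K}
    (hx : x ∈ Submodule.span ℂ (Hs g v s)) (hy : y ∈ Submodule.span ℂ (Ms g v s)) :
    x * y ∈ Submodule.span ℂ (Ms g v s) := by
  have h := Submodule.mul_mem_mul hx hy
  rw [Submodule.span_mul_span] at h
  refine Submodule.span_mono ?_ h
  rintro _ ⟨_, ⟨e, m, he, hv, rfl⟩, _, ⟨e', m', he', hv', rfl⟩, rfl⟩
  refine ⟨e + e', m + m', ?_, ?_, (ch_add g _ _ _ _).symm⟩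
  · simp [Finset.sum_add_distrib, he, he']
  · rw [vl_add']
    exact add_pos_of_nonneg_of_pos hv hv'

theorem pr_add' (m m' v : Fin n → ℤ) : pr (m + m') v = pr m v + pr m' v := by
  simp only [pr, Pi.add_apply, add_mul, Finset.sum_add_distrib]

theorem mul_C {g : ArrGerm c n K} {v0 : Fin n → ℤ} {T T' T'' : Set ℤ}
    (hT : ∀ a ∈ T, ∀ b ∈ T', a + b ∈ T'') {x y : K}
    (hx : x ∈ Submodule.span ℂ (Cs g v0 T)) (hy : y ∈ Submodule.span ℂ (Cs g v0 T')) :
    x * y ∈ Submodule.span ℂ (Cs g v0 T'') := by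
  have h := Submodule.mul_mem_mul hx hy
  rw [Submodule.span_mul_span] at h
  refine Submodule.span_mono ?_ h
  rintro _ ⟨_, ⟨e, m, he, hv, rfl⟩, _, ⟨e', m', he', hv', rfl⟩, rfl⟩
  refine ⟨e + e', m + m', ?_, ?_, (ch_add g _ _ _ _).symm⟩
  · simp [Finset.sum_add_distrib, he, he']
  · rw [pr_add']
    exact hT _ hv _ hv'

/-! ### The Euler derivation -/

/-- `f` is an eigenvector of the derivation -/
def Eig (E : Derivation ℂ K K) (a : ℂ) (f : K) : Prop := E f = a • f

theorem Eig.mul {E : Derivation ℂ K K} {a b : ℂ} {f h : K} (hf : Eig E a f) (hh : Eig E b h) :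
    Eig E (a + b) (f * h) := by
  unfold Eig at *
  rw [E.leibniz, hf, hh]
  simp only [smul_eq_mul, Algebra.smul_def, map_add]
  ring

theorem Eig.one (E : Derivation ℂ K K) : Eig E 0 (1 : K) := by
  unfold Eig
  rw [E.map_one_eq_zero, zero_smul]

theorem Eig.zpow {E : Derivation ℂ K K} {a : ℂ} {f : K} (hf : Eig E a f) (h0 : f ≠ 0) (k : ℤ) :
    Eig E (k * a) (f ^ k) := by
  unfold Eig at *
  rw [E.leibniz_zpow, hf]
  simp only [smul_eq_mul, Algebra.smul_def, map_mul]
  have h1 : f ^ k = f ^ (k - 1) * f := by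
    rw [zpow_sub_one₀ h0]
    field_simp
  rw [h1]
  have h2 : (algebraMap ℂ K) (k : ℂ) = (k : K) := map_intCast _ k
  have h3 : (algebraMap ℤ K) k = (k : K) := eq_intCast _ k
  rw [h2, h3]
  ring

theorem Eig.prod {E : Derivation ℂ K K} {ι : Type} (T : Finset ι) (a : ι → ℂ) (f : ι → K)
    (h : ∀ i ∈ T, Eig E (a i) (f i)) : Eig E (∑ i ∈ T, a i) (∏ i ∈ T, f i) := by
  classical
  induction T using Finset.induction_on with
  | empty => simpa using Eig.one E
  | insert i T hi ih =>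
    rw [Finset.sum_insert hi, Finset.prod_insert hi]
    exact (h i (by simp)).mul (ih fun j hj => h j (by simp [hj]))

/-- the Euler derivation -/
noncomputable def Eu (g : ArrGerm c n K) (v0 : Fin n → ℤ) : Derivation ℂ K K :=
  ∑ j : Fin n, (v0 j : K) • g.X.T.D (g.e.symm (Fin.natAdd c j))

theorem Eu_apply (g : ArrGerm c n K) (v0 : Fin n → ℤ) (f : K) :
    Eu g v0 f = ∑ j : Fin n, (v0 j : K) * g.X.T.D (g.e.symm (Fin.natAdd c j)) f := by
  rw [Eu]
  have h : ∀ (s : Finset (Fin n)), (∑ j ∈ s, (v0 j : K) •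
      g.X.T.D (g.e.symm (Fin.natAdd c j))) f =
      ∑ j ∈ s, (v0 j : K) * g.X.T.D (g.e.symm (Fin.natAdd c j)) f := by
    classical
    intro s
    induction s using Finset.induction_on with
    | empty => simp
    | insert i s hi ih =>
      rw [Finset.sum_insert hi, Finset.sum_insert hi, Derivation.add_apply, ih,
        Derivation.smul_apply, smul_eq_mul]
  exact h _

theorem Eu_z (g : ArrGerm c n K) (v0 : Fin n → ℤ) (k : Fin c) : Eu g v0 (g.z k) = 0 := by
  rw [Eu_apply]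
  apply Finset.sum_eq_zero
  intro j _
  have h := g.hT (g.e.symm (Fin.natAdd c j)) (Fin.castAdd n k)
  rw [Fin.append_left, Equiv.apply_symm_apply, if_neg] at h
  · rw [h, mul_zero]
  · intro h1
    have := congrArg Fin.val h1
    simp only [Fin.val_natAdd, Fin.val_castAdd] at this
    omega

theorem Eu_x (g : ArrGerm c n K) (v0 : Fin n → ℤ) (k : Fin n) :
    Eu g v0 (g.x k) = (v0 k : ℂ) • g.x k := by
  rw [Eu_apply, Finset.sum_eq_single k]
  · have h := g.hT (g.e.symm (Fin.natAdd c k)) (Fin.natAdd c k)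
    rw [Fin.append_right, Equiv.apply_symm_apply, if_pos rfl] at h
    rw [h, Algebra.smul_def, map_intCast]
  · intro j _ hj
    have h := g.hT (g.e.symm (Fin.natAdd c j)) (Fin.natAdd c k)
    rw [Fin.append_right, Equiv.apply_symm_apply, if_neg] at h
    · rw [h, mul_zero]
    · intro h1
      apply hj
      have := congrArg Fin.val h1
      simp only [Fin.val_natAdd] at this
      exact Fin.ext (by omega)
  · intro h
    exact absurd (Finset.mem_univ _) h

theorem Eu_l (g : ArrGerm c n K) (v0 : Fin n → ℤ) (y : Fin g.F.q) : Eig (Eu g v0) 0 (g.l y) := by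
  unfold Eig
  rw [lf_eq, zero_smul, map_add, map_sum, Derivation.map_algebraMap, zero_add]
  apply Finset.sum_eq_zero
  intro j _
  rw [Derivation.leibniz, Eu_z, Derivation.map_algebraMap, smul_zero, smul_zero, add_zero]

theorem Eu_ch (g : ArrGerm c n K) (v0 : Fin n → ℤ) (e : Fin g.F.q → ℤ) (m : Fin n → ℤ) :
    Eig (Eu g v0) ((pr m v0 : ℤ) : ℂ) (ch g.l g.x e m) := by
  have h1 : Eig (Eu g v0) (∑ y : Fin g.F.q, (e y : ℂ) * 0) (∏ y, g.l y ^ e y) :=
    Eig.prod _ _ _ fun y _ => (Eu_l g v0 y).zpow (l_ne g y) _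
  have h2 : Eig (Eu g v0) (∑ j, (m j : ℂ) * (v0 j : ℂ)) (∏ j, g.x j ^ m j) :=
    Eig.prod _ _ _ fun j _ => Eig.zpow (Eu_x g v0 j) (x_ne g j) _
  have h3 := h1.mul h2
  have h4 : (∑ y : Fin g.F.q, (e y : ℂ) * 0) + ∑ j, (m j : ℂ) * (v0 j : ℂ) =
      ((pr m v0 : ℤ) : ℂ) := by
    simp [pr]
  rw [h4] at h3
  exact h3

theorem span_C_le (g : ArrGerm c n K) (v0 : Fin n → ℤ) (T : Set ℤ) :
    Submodule.span ℂ (Cs g v0 T) ≤ ⨆ μ ∈ ((fun d : ℤ => (d : ℂ)) '' T),
      Module.End.eigenspace (Eu g v0 : K →ₗ[ℂ] K) μ := by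
  rw [Submodule.span_le]
  rintro _ ⟨e, m, -, hd, rfl⟩
  have h1 : ch g.l g.x e m ∈ Module.End.eigenspace (Eu g v0 : K →ₗ[ℂ] K)
      ((pr m v0 : ℤ) : ℂ) := by
    rw [Module.End.mem_eigenspace_iff]
    exact Eu_ch g v0 e m
  have hle := le_biSup (fun μ => Module.End.eigenspace (Eu g v0 : K →ₗ[ℂ] K) μ)
    (Set.mem_image_of_mem (fun d : ℤ => (d : ℂ)) hd)
  exact hle h1

theorem disj (g : ArrGerm c n K) (v0 : Fin n → ℤ) {T T' : Set ℤ} (h : Disjoint T T') :
    Disjoint (Submodule.span ℂ (Cs g v0 T)) (Submodule.span ℂ (Cs g v0 T')) := by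
  have h1 := (Module.End.eigenspaces_iSupIndep
    (Eu g v0 : K →ₗ[ℂ] K)).disjoint_biSup_biSup
    (s := (fun d : ℤ => (d : ℂ)) '' T) (t := (fun d : ℤ => (d : ℂ)) '' T')
    ((Set.disjoint_image_iff Int.cast_injective).2 h)
  exact h1.mono (span_C_le g v0 T) (span_C_le g v0 T')

/-- homogeneous components -/
theorem split {g : ArrGerm c n K} {v : Fin n → ℤ} {s : Fin g.F.q → ℤ} (v0 : Fin n → ℤ)
    {T T' : Set ℤ} (h : Disjoint T T') (hT : ∀ d, d ∈ T ∨ d ∈ T') {x y : K}
    (hx : x ∈ Submodule.span ℂ (Cs g v0 T)) (hy : y ∈ Submodule.span ℂ (Cs g v0 T'))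
    (hxy : x + y ∈ Submodule.span ℂ (Ms g v s)) : x ∈ Submodule.span ℂ (Ms g v s) := by
  have key : ∀ a ∈ Submodule.span ℂ (Ms g v s), ∃ a₁ a₂, a₁ ∈ Submodule.span ℂ (Ms g v s) ∧
      a₁ ∈ Submodule.span ℂ (Cs g v0 T) ∧ a₂ ∈ Submodule.span ℂ (Cs g v0 T') ∧
      a = a₁ + a₂ := by
    intro a ha
    induction ha using Submodule.span_induction with
    | mem a ha =>
      obtain ⟨e, m, he, hv, rfl⟩ := ha
      rcases hT (pr m v0) with hd | hd
      · exact ⟨_, 0, Submodule.subset_span ⟨e, m, he, hv, rfl⟩,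
          Submodule.subset_span ⟨e, m, he, hd, rfl⟩, zero_mem _, (add_zero _).symm⟩
      · exact ⟨0, _, zero_mem _, zero_mem _,
          Submodule.subset_span ⟨e, m, he, hd, rfl⟩, (zero_add _).symm⟩
    | zero => exact ⟨0, 0, zero_mem _, zero_mem _, zero_mem _, (add_zero _).symm⟩
    | add a b _ _ ha hb =>
      obtain ⟨a₁, a₂, h1, h2, h3, rfl⟩ := ha
      obtain ⟨b₁, b₂, k1, k2, k3, rfl⟩ := hb
      exact ⟨a₁ + b₁, a₂ + b₂, add_mem h1 k1, add_mem h2 k2, add_mem h3 k3, by ring⟩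
    | smul t a _ ha =>
      obtain ⟨a₁, a₂, h1, h2, h3, rfl⟩ := ha
      exact ⟨t • a₁, t • a₂, Submodule.smul_mem _ _ h1, Submodule.smul_mem _ _ h2,
        Submodule.smul_mem _ _ h3, smul_add _ _ _⟩
  obtain ⟨a₁, a₂, h1, h2, h3, h4⟩ := key _ hxy
  have h5 : x - a₁ ∈ Submodule.span ℂ (Cs g v0 T) := sub_mem hx h2
  have h6 : x - a₁ ∈ Submodule.span ℂ (Cs g v0 T') := by
    have : x - a₁ = a₂ - y := by linear_combination h4
    rw [this]
    exact sub_mem h3 hy
  have h7 := Submodule.disjoint_def.1 (disj g v0 h) _ h5 h6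
  rw [sub_eq_zero] at h7
  rw [h7]
  exact h1

/-- elements of bounded degree -/
theorem bounded {g : ArrGerm c n K} {v : Fin n → ℤ} {s : Fin g.F.q → ℤ} (v0 : Fin n → ℤ)
    {b : K} (hb : b ∈ Submodule.span ℂ (Hs g v s)) :
    ∃ B : ℕ, b ∈ Submodule.span ℂ (Cs g v0 (Set.Icc (-(B : ℤ)) B)) := by
  induction hb using Submodule.span_induction with
  | mem a ha =>
    obtain ⟨e, m, he, hv, rfl⟩ := ha
    refine ⟨(pr m v0).natAbs, Submodule.subset_span ⟨e, m, he, ?_, rfl⟩⟩
    rw [Set.mem_Icc]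
    omega
  | zero => exact ⟨0, zero_mem _⟩
  | add x y _ _ hx hy =>
    obtain ⟨B, hB⟩ := hx
    obtain ⟨B', hB'⟩ := hy
    refine ⟨max B B', add_mem (Submodule.span_mono ?_ hB) (Submodule.span_mono ?_ hB')⟩
    · rintro _ ⟨e, m, he, hd, rfl⟩
      refine ⟨e, m, he, ?_, rfl⟩
      rw [Set.mem_Icc] at hd ⊢
      push_cast
      constructor
      · have := le_max_left (B : ℤ) B'
        linarith [hd.1]
      · exact hd.2.trans (le_max_left _ _)
    · rintro _ ⟨e, m, he, hd, rfl⟩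
      refine ⟨e, m, he, ?_, rfl⟩
      rw [Set.mem_Icc] at hd ⊢
      push_cast
      constructor
      · have := le_max_right (B : ℤ) B'
        linarith [hd.1]
      · exact hd.2.trans (le_max_right _ _)
  | smul t x _ hx =>
    obtain ⟨B, hB⟩ := hx
    exact ⟨B, Submodule.smul_mem _ _ hB⟩

theorem ch_pow (g : ArrGerm c n K) (e : Fin g.F.q → ℤ) (m : Fin n → ℤ) (k : ℕ) :
    ch g.l g.x e m ^ k = ch g.l g.x ((k : ℤ) • e) ((k : ℤ) • m) := by
  induction k with
  | zero => simp [ch_zero]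
  | succ k ih =>
    rw [pow_succ, ih, ← ch_add]
    congr 1
    · push_cast; rw [add_smul, one_smul]
    · push_cast; rw [add_smul, one_smul]

/-- multiplication by a large power of the character of the edge -/
theorem clear {g : ArrGerm c n K} (i : Fin g.F.N) {e₀ : Fin g.F.q → ℤ} {m₀ : Fin n → ℤ}
    (he₀ : ∑ y, e₀ y = 0) (h0 : g.F.val i e₀ m₀ = 0) (hj : ∀ j, j ≠ i → 0 < g.F.val j e₀ m₀)
    {a : K} (ha : a ∈ Submodule.span ℂ (Hs g (g.F.v i) (g.F.sv i))) :
    ∃ k₀ : ℕ, ∀ k, k₀ ≤ k → a * ch g.l g.x e₀ m₀ ^ k ∈ g.X.R := by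
  induction ha using Submodule.span_induction with
  | mem a ha =>
    obtain ⟨e, m, he, hv, rfl⟩ := ha
    refine ⟨∑ j, (g.F.val j e m).natAbs, fun k hk => ?_⟩
    rw [ch_pow, ← ch_add]
    apply ch_mem
    refine ⟨?_, ?_⟩
    · simp only [Pi.add_apply, Pi.smul_apply, smul_eq_mul, Finset.sum_add_distrib,
        ← Finset.mul_sum, he, he₀, mul_zero, add_zero]
    · intro j
      rw [val_eq, vl_add', vl_smul', ← val_eq, ← val_eq]
      by_cases hji : j = i
      · subst hji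
        rw [h0, mul_zero, add_zero, val_eq]
        exact hv
      · have h1 := hj j hji
        have h2 : (g.F.val j e m).natAbs ≤ k :=
          (Finset.single_le_sum (f := fun j => (g.F.val j e m).natAbs)
            (fun _ _ => Nat.zero_le _) (Finset.mem_univ j)).trans hk
        have h3 : (k : ℤ) ≤ k * g.F.val j e₀ m₀ := by nlinarith
        omega
  | zero => exact ⟨0, fun k _ => by rw [zero_mul]; exact zero_mem _⟩
  | add x y _ _ hx hy =>
    obtain ⟨k₁, h1⟩ := hx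
    obtain ⟨k₂, h2⟩ := hy
    refine ⟨max k₁ k₂, fun k hk => ?_⟩
    rw [add_mul]
    exact add_mem (h1 k ((le_max_left _ _).trans hk)) (h2 k ((le_max_right _ _).trans hk))
  | smul t x _ hx =>
    obtain ⟨k₁, h1⟩ := hx
    refine ⟨k₁, fun k hk => ?_⟩
    rw [smul_mul_assoc]
    exact Subalgebra.smul_mem _ (h1 k hk) t

end OnpL

open OnpL IntOver in
/-- [ONP] -/
theorem onp (hHOR : S_HOR) : S_ONP := by
  intro c n K _ _ g i w S hty hS hloc
  have hS' : ∀ a ∈ S, a ∈ Submodule.span ℂ (Hs g (g.F.v i) (g.F.sv i)) := by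
    intro a ha
    rw [← HSA_span]
    exact hS ha
  have hord : ∀ e m, ∑ y, e y = 0 → w.ord (ch g.l g.x e m) = g.F.val i e m := by
    intro e m he
    rw [ord_ch hty m he, val_eq]
  have hRreg := R_reg g w (fun e m hem => Or.inr (by rw [hord e m hem.1]; exact hem.2 i))
  refine ⟨⟨hRreg, ?_⟩, ?_⟩
  · intro f hf
    obtain ⟨a, b, ha, hb, hb0, hob, hab⟩ := hloc.2 f hf
    obtain ⟨e₀, m₀, he₀, h0, hj⟩ := g.cone.edge i
    obtain ⟨k₁, h1⟩ := clear i he₀ h0 hj (hS' a ha)
    obtain ⟨k₂, h2⟩ := clear i he₀ h0 hj (hS' b hb)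
    set τ := ch g.l g.x e₀ m₀ with hτ
    have hτ0 : τ ≠ 0 := ch_ne g e₀ m₀
    refine ⟨a * τ ^ max k₁ k₂, b * τ ^ max k₁ k₂, h1 _ (le_max_left _ _),
      h2 _ (le_max_right _ _), mul_ne_zero hb0 (pow_ne_zero _ hτ0), ?_, ?_⟩
    · rw [w.map_mul _ _ hb0 (pow_ne_zero _ hτ0), hob, zero_add, hτ, ch_pow, hord, val_eq,
        vl_smul', ← val_eq, h0, mul_zero]
      simp only [Pi.smul_apply, smul_eq_mul, ← Finset.mul_sum, he₀, mul_zero]
    · rw [← mul_assoc, hab]
  · intro f hf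
    by_contra hP
    obtain ⟨v0, hv0⟩ := hHOR n g.F g.cone
    have hf0 : (f : K) ≠ 0 := by
      intro h
      apply hP
      have : f = 0 := Subtype.ext h
      rw [this, map_zero]
    have hof := hf.resolve_left hf0
    obtain ⟨e₁, m₁, he₁, h1⟩ := g.cone.prim i
    set χ := ch g.l g.x e₁ m₁ with hχ
    have hχ0 : χ ≠ 0 := ch_ne g e₁ m₁
    have hoχ : w.ord χ = 1 := by rw [hχ, hord _ _ he₁, h1]
    have hq0 : (f : K) / χ ≠ 0 := div_ne_zero hf0 hχ0
    have hq : w.Reg ((f : K) / χ) := by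
      right
      have h2 : (f : K) / χ * χ = f := div_mul_cancel₀ _ hχ0
      have h3 := w.map_mul _ _ hq0 hχ0
      rw [h2, hoχ] at h3
      omega
    obtain ⟨a, b, ha, hb, hb0, hob, hab⟩ := hloc.2 _ hq
    have hfb : (f : K) * b = a * χ := by
      rw [← hab]
      field_simp
    have hχM : χ ∈ Submodule.span ℂ (Ms g (g.F.v i) (g.F.sv i)) :=
      Submodule.subset_span ⟨e₁, m₁, he₁, by rw [← val_eq, h1]; exact one_pos, rfl⟩
    have hfbM : (f : K) * b ∈ Submodule.span ℂ (Ms g (g.F.v i) (g.F.sv i)) := by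
      rw [hfb]
      exact mul_M (hS' a ha) hχM
    set c₀ := g.P f with hc₀
    set r : K := (-c₀⁻¹ : ℂ) • ((f : K) - algebraMap ℂ K c₀) with hr
    have hrc : r ∈ Submodule.span ℂ (chs g) := Submodule.smul_mem _ _ (rep g f)
    have hrH : r ∈ Submodule.span ℂ (Hs g (g.F.v i) (g.F.sv i)) := by
      refine Submodule.span_mono ?_ hrc
      rintro _ ⟨e, m, hem, -, rfl⟩
      exact ⟨e, m, hem.1, by rw [← val_eq]; exact hem.2 i, rfl⟩
    have hrC : r ∈ Submodule.span ℂ (Cs g v0 (Set.Ici 1)) := by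
      refine Submodule.span_mono ?_ hrc
      rintro _ ⟨e, m, hem, h0, rfl⟩
      refine ⟨e, m, hem.1, ?_, rfl⟩
      rw [Set.mem_Ici]
      have h2 := hv0 e m hem
      have h3 : 0 ≤ ∑ j, g.F.val j e m := Finset.sum_nonneg fun j _ => hem.2 j
      have h4 : ∑ j, g.F.val j e m ≠ 0 := by
        intro h5
        have h6 := (Finset.sum_eq_zero_iff_of_nonneg fun j _ => hem.2 j).1 h5
        have h7 := g.cone.full e m hem.1 fun j => h6 j (Finset.mem_univ j)
        rcases h0 with h0 | h0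
        · exact h0 h7.1
        · exact h0 h7.2
      omega
    have hc₀' : algebraMap ℂ K c₀ ≠ 0 := by
      rwa [Ne, FaithfulSMul.algebraMap_eq_zero_iff]
    have hbr : b - r * b = (c₀⁻¹ : ℂ) • ((f : K) * b) := by
      rw [hr, Algebra.smul_def, Algebra.smul_def, map_neg, map_inv₀]
      field_simp
      ring
    have hbrM : b - r * b ∈ Submodule.span ℂ (Ms g (g.F.v i) (g.F.sv i)) := by
      rw [hbr]
      exact Submodule.smul_mem _ _ hfbM
    have hone : (1 : K) ∈ Submodule.span ℂ (Hs g (g.F.v i) (g.F.sv i)) :=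
      Submodule.subset_span ⟨0, 0, by simp, by rw [vl_zero'], (ch_zero g).symm⟩
    have hpowH : ∀ k : ℕ, ∀ x ∈ Submodule.span ℂ (Ms g (g.F.v i) (g.F.sv i)),
        r ^ k * x ∈ Submodule.span ℂ (Ms g (g.F.v i) (g.F.sv i)) := by
      intro k
      induction k with
      | zero => intro x hx; rwa [pow_zero, one_mul]
      | succ k ih =>
        intro x hx
        rw [pow_succ, mul_assoc]
        exact ih _ (mul_M hrH hx)
    have hall : ∀ k : ℕ, b - r ^ k * b ∈ Submodule.span ℂ (Ms g (g.F.v i) (g.F.sv i)) := by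
      intro k
      induction k with
      | zero => rw [pow_zero, one_mul, sub_self]; exact zero_mem _
      | succ k ih =>
        have : b - r ^ (k + 1) * b = (b - r ^ k * b) + r ^ k * (b - r * b) := by ring
        rw [this]
        exact add_mem ih (hpowH k _ hbrM)
    obtain ⟨B, hB⟩ := bounded v0 (hS' b hb)
    have hpowC : ∀ k : ℕ, r ^ k * b ∈ Submodule.span ℂ (Cs g v0 (Set.Ici ((k : ℤ) - B))) := by
      intro k
      induction k with
      | zero =>
        rw [pow_zero, one_mul]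
        refine Submodule.span_mono ?_ hB
        rintro _ ⟨e, m, he, hd, rfl⟩
        refine ⟨e, m, he, ?_, rfl⟩
        rw [Set.mem_Icc] at hd
        rw [Set.mem_Ici]
        push_cast
        linarith [hd.1]
      | succ k ih =>
        have : r ^ (k + 1) * b = r * (r ^ k * b) := by ring
        rw [this]
        refine mul_C (T := Set.Ici 1) (T' := Set.Ici ((k : ℤ) - B)) ?_ hrC ih
        intro x hx y hy
        rw [Set.mem_Ici] at hx hy ⊢
        push_cast
        linarith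
    have hbM : b ∈ Submodule.span ℂ (Ms g (g.F.v i) (g.F.sv i)) := by
      refine split v0 (T := Set.Iic (B : ℤ)) (T' := Set.Ioi (B : ℤ)) ?_ ?_ ?_ ?_
        (y := -(r ^ (2 * B + 1) * b)) ?_
      · rw [Set.disjoint_left]
        intro d hd hd'
        rw [Set.mem_Iic] at hd
        rw [Set.mem_Ioi] at hd'
        omega
      · intro d
        rw [Set.mem_Iic, Set.mem_Ioi]
        exact le_or_gt _ _
      · refine Submodule.span_mono ?_ hB
        rintro _ ⟨e, m, he, hd, rfl⟩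
        exact ⟨e, m, he, (Set.mem_Icc.1 hd).2, rfl⟩
      · refine neg_mem (Submodule.span_mono ?_ (hpowC (2 * B + 1)))
        rintro _ ⟨e, m, he, hd, rfl⟩
        refine ⟨e, m, he, ?_, rfl⟩
        rw [Set.mem_Ici] at hd
        rw [Set.mem_Ioi]
        push_cast at hd
        linarith
      · rw [← sub_eq_add_neg]
        exact hall _
    have hpos := span_pos w _ (by
      rintro _ ⟨e, m, he, hv, rfl⟩
      right
      rw [ord_ch hty m he]
      exact hv) b hbM
    rcases hpos with h2 | h2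
    · exact hb0 h2
    · omega

end Pool.Agent.Helper58K9.AR
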