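import Pool.Agent.Helper58K9.AR.Stm

/-!
[PRIM] tropical vectors are multiples of primitive ones.
-/

set_option autoImplicit false

namespace Pool.Agent.Helper58K9.AR

open Pool.Agent.TH165.ACC (pr)

theorem prim : S_PRIM := by
  classical
  intro c q n v s hs hcq hne
  -- a hyperplane with the component zero
  obtain ⟨y0, hy0⟩ : ∃ y0, s y0 = 0 := by
    by_contra hcon
    push Not at hcon
    have h1 : (Finset.univ.filter fun y => s y ≠ 0) = Finset.univ :=
      Finset.filter_true_of_mem fun y _ => hcon y
    have h2 := hs.2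
    rw [h1, Finset.card_univ, Fintype.card_fin] at h2
    omega
  -- the greatest common divisor
  let w : Fin n ⊕ Fin q → ℤ := Sum.elim v s
  obtain ⟨g, hg⟩ := (IsPrincipalIdealRing.principal (Ideal.span (Set.range w))).principal
  have hdvd : ∀ i, g ∣ w i := by
    intro i
    rw [← Ideal.mem_span_singleton]
    change w i ∈ Submodule.span ℤ {g}
    rw [← hg]
    exact Ideal.subset_span ⟨i, rfl⟩
  have hg0 : g ≠ 0 := by
    rintro rfl
    obtain ⟨e, m, _, h⟩ := hne
    apply h
    have hv : v = 0 := by
      funext j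
      exact zero_dvd_iff.1 (hdvd (Sum.inl j))
    have hs' : s = 0 := by
      funext j
      exact zero_dvd_iff.1 (hdvd (Sum.inr j))
    rw [hv, hs']
    simp [vl, pr]
  let k : ℕ := g.natAbs
  have hk0 : 0 < k := Int.natAbs_pos.2 hg0
  have hkd : ∀ i, (k : ℤ) ∣ w i := fun i => Int.natAbs_dvd.2 (hdvd i)
  have hkm : (k : ℤ) ∈ Ideal.span (Set.range w) := by
    have h1 : g ∈ Ideal.span (Set.range w) := by
      rw [hg]
      exact Submodule.mem_span_singleton_self g
    rcases Int.natAbs_eq g with h | h
    · change g = (k : ℤ) at h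
      rw [← h]
      exact h1
    · change g = -(k : ℤ) at h
      have h2 : (k : ℤ) = -g := by rw [h, neg_neg]
      rw [h2]
      exact neg_mem h1
  choose u hu using hkd
  obtain ⟨a, ha⟩ := (Ideal.mem_span_range_iff_exists_fun).1 hkm
  have hk0' : (k : ℤ) ≠ 0 := by exact_mod_cast hk0.ne'
  have hau : ∑ i, a i * u i = 1 := by
    have h1 : (k : ℤ) * ∑ i, a i * u i = k * 1 := by
      rw [mul_one, Finset.mul_sum]
      conv_rhs => rw [← ha]
      exact Finset.sum_congr rfl fun i _ => by
        rw [hu i]
        ring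
    exact mul_left_cancel₀ hk0' h1
  have hsu : ∀ y, s y = k * u (Sum.inr y) := fun y => hu (Sum.inr y)
  have hu0 : u (Sum.inr y0) = 0 := by
    have h1 := hsu y0
    rw [hy0] at h1
    exact (mul_eq_zero.1 h1.symm).resolve_left hk0'
  refine ⟨k, fun j => u (Sum.inl j), fun y => u (Sum.inr y), hk0, ?_, ?_, ?_, ?_⟩
  · funext j
    exact hu (Sum.inl j)
  · funext y
    exact hsu y
  · refine ⟨fun y => ?_, ?_⟩
    · have h1 := hs.1 y
      rw [hsu y] at h1
      have h2 : (0 : ℤ) < k := by exact_mod_cast hk0
      exact nonneg_of_mul_nonneg_right h1 h2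
    · have h1 : (Finset.univ.filter fun y => u (Sum.inr y) ≠ 0)
          = Finset.univ.filter fun y => s y ≠ 0 := by
        refine Finset.filter_congr fun y _ => ?_
        rw [hsu y, mul_ne_zero_iff]
        exact ⟨fun h => ⟨hk0', h⟩, fun h => h.2⟩
      rw [h1]
      exact hs.2
  · let b : Fin q → ℤ := fun y => a (Sum.inr y)
    refine ⟨fun y => b y - if y = y0 then ∑ z, b z else 0, fun j => a (Sum.inl j), ?_, ?_⟩
    · rw [Finset.sum_sub_distrib, Finset.sum_ite_eq' Finset.univ y0, if_pos (Finset.mem_univ _),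
        sub_self]
    · unfold vl pr
      have h1 : ∑ y, u (Sum.inr y) * (b y - if y = y0 then ∑ z, b z else 0)
          = ∑ y, a (Sum.inr y) * u (Sum.inr y) := by
        refine Finset.sum_congr rfl fun y _ => ?_
        by_cases hy : y = y0
        · rw [hy, hu0, zero_mul, mul_zero]
        · rw [if_neg hy, sub_zero, mul_comm]
      rw [h1, add_comm, ← Fintype.sum_sum_type (fun i => a i * u i)]
      exact hau

end Pool.Agent.Helper58K9.AR
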