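import Pool.Agent.Helper58K9.AR.Stm

/-!
# The minimum as a combination of boundedly many vectors
-/

set_option autoImplicit false
set_option linter.unusedSectionVars false

namespace Pool.Agent.Helper58K9.AR

open Pool.Agent.TH165.ACC (pr pr_add pr_zero pr_neg pr_sub pr_smul pr_smul_right Cn DualVec
  exists_simplex exists_min)

namespace RepL

variable {c n : ℕ}

section build

variable {F : Fan n} {u : Fin n → ℝ} {α : Fin F.q → ℝ} {v : Fin n → ℤ} {s : Fin F.q → ℤ} {m : ℝ}

/-- the profile of a representation of the minimiser -/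
theorem build (D : Set ℝ) (hInt : F.Int v s)
    (hmin : ∀ v s, F.Int v s → (∀ y, 0 ≤ s y) → m ≤ Psi u α v s) (hm : Psi u α v s = m)
    (hs : ∀ y, 0 ≤ s y) (S0 : Finset (Fin F.q)) {ι : Type} [Fintype ι]
    (Ev : ι → Fin n → ℤ) (Es : ι → Fin F.q → ℤ) (x : ι → ℝ) (hx : ∀ j, 0 < x j)
    (L : ℕ) (hL : 0 < L) (hLx : ∀ j, ∃ z : ℤ, (L : ℝ) * x j = z)
    (h1 : ∀ k, (v k : ℝ) = ∑ j, x j * (Ev j k : ℝ))
    (h2 : ∀ y, (s y : ℝ) = ∑ j, x j * (Es j y : ℝ))
    (h3 : ∀ j y, y ∉ S0 → Es j y = 0) (h4 : ∀ j y, -1 ≤ Es j y)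
    (h5 : ∀ j, 1 - Psi u α (Ev j) (Es j) ∈ D)
    (h6 : ∀ j e m, F.Mem e m → 0 ≤ vl (Ev j) (Es j) e m) :
    m ∈ prof (Fintype.card ι) S0.card D := by
  classical
  have hPs : ∀ (Ew : ι → Fin n → ℤ) (Et : ι → Fin F.q → ℤ) (x' : ι → ℝ) (w : Fin n → ℤ)
      (t : Fin F.q → ℤ), (∀ k, (w k : ℝ) = ∑ j, x' j * (Ew j k : ℝ)) →
      (∀ y, (t y : ℝ) = ∑ j, x' j * (Et j y : ℝ)) →
      Psi u α w t = ∑ j, x' j * Psi u α (Ew j) (Et j) := by
    intro Ew Et x' w t g1 g2
    simp only [Psi, g1, g2, mul_add, Finset.sum_add_distrib, Finset.mul_sum]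
    congr 1
    · rw [Finset.sum_comm]
      exact Finset.sum_congr rfl fun j _ => Finset.sum_congr rfl fun k _ => by ring
    · rw [Finset.sum_comm]
      exact Finset.sum_congr rfl fun j _ => Finset.sum_congr rfl fun k _ => by ring
  have hvl : ∀ (Ew : ι → Fin n → ℤ) (Et : ι → Fin F.q → ℤ) (x' : ι → ℝ) (w : Fin n → ℤ)
      (t : Fin F.q → ℤ), (∀ k, (w k : ℝ) = ∑ j, x' j * (Ew j k : ℝ)) →
      (∀ y, (t y : ℝ) = ∑ j, x' j * (Et j y : ℝ)) → ∀ e m',
      (vl w t e m' : ℝ) = ∑ j, x' j * (vl (Ew j) (Et j) e m' : ℝ) := by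
    intro Ew Et x' w t g1 g2 e m'
    simp only [vl, pr]
    push_cast
    simp only [g1, g2, mul_add, Finset.sum_add_distrib, Finset.mul_sum, Finset.sum_mul]
    congr 1
    · rw [Finset.sum_comm]
      exact Finset.sum_congr rfl fun j _ => Finset.sum_congr rfl fun k _ => by ring
    · rw [Finset.sum_comm]
      exact Finset.sum_congr rfl fun j _ => Finset.sum_congr rfl fun k _ => by ring
  let φ : Fin (Fintype.card ι) ≃ ι := (Fintype.equivFin ι).symm
  let ψ : Fin S0.card ≃ S0 := S0.equivFin.symm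
  refine ⟨fun j => Psi u α (Ev (φ j)) (Es (φ j)), fun j i => Es (φ j) (ψ i), fun j => x (φ j),
    fun j => h5 _, fun j i => h4 _ _, fun j => hx _, ⟨L, hL, fun j => hLx _⟩, ?_, ?_, ?_⟩
  · intro i
    refine ⟨(s (ψ i)).toNat, ?_⟩
    rw [φ.sum_comp fun j => x j * (Es j (ψ i) : ℝ), ← h2]
    have h7 : ((s (ψ i)).toNat : ℤ) = s (ψ i) := Int.toNat_of_nonneg (hs _)
    exact_mod_cast h7.symm
  · rw [← hm, hPs Ev Es x v s h1 h2]
    exact (φ.sum_comp fun j => x j * Psi u α (Ev j) (Es j)).symm
  · rintro x' hx' ⟨k, l, hkl⟩ hnn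
    -- the vector
    let v' : Fin n → ℤ := fun i => k * v i + ∑ j, l (φ.symm j) * Ev j i
    let s' : Fin F.q → ℤ := fun y => k * s y + ∑ j, l (φ.symm j) * Es j y
    have hx'' : ∀ j, x' (φ.symm j) = k * x j + l (φ.symm j) := by
      intro j
      have h := hkl (φ.symm j)
      simp only [Equiv.apply_symm_apply] at h
      exact h
    have g1 : ∀ i, (v' i : ℝ) = ∑ j, x' (φ.symm j) * (Ev j i : ℝ) := by
      intro i
      simp only [v']
      push_cast
      rw [h1, Finset.mul_sum, ← Finset.sum_add_distrib]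
      refine Finset.sum_congr rfl fun j _ => ?_
      rw [hx'' j]
      ring
    have g2 : ∀ y, (s' y : ℝ) = ∑ j, x' (φ.symm j) * (Es j y : ℝ) := by
      intro y
      simp only [s']
      push_cast
      rw [h2, Finset.mul_sum, ← Finset.sum_add_distrib]
      refine Finset.sum_congr rfl fun j _ => ?_
      rw [hx'' j]
      ring
    have e1 : ∑ j, x' j * Psi u α (Ev (φ j)) (Es (φ j)) = Psi u α v' s' := by
      rw [hPs Ev Es (fun j => x' (φ.symm j)) v' s' g1 g2,
        ← φ.sum_comp fun j => x' (φ.symm j) * Psi u α (Ev j) (Es j)]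
      exact Finset.sum_congr rfl fun j _ => by rw [Equiv.symm_apply_apply]
    rw [e1]
    refine hmin v' s' ?_ ?_
    · intro e m' hM hne
      have e2 := hInt e m' hM hne
      have e3 := hvl Ev Es x v s h1 h2 e m'
      have e4 := hvl Ev Es (fun j => x' (φ.symm j)) v' s' g1 g2 e m'
      have e5 : (0 : ℝ) < ∑ j, x j * (vl (Ev j) (Es j) e m' : ℝ) := by
        rw [← e3]
        exact_mod_cast e2
      obtain ⟨j, -, hj⟩ := Finset.exists_lt_of_sum_lt (s := Finset.univ) (f := fun _ : ι => (0 : ℝ))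
        (g := fun j => x j * (vl (Ev j) (Es j) e m' : ℝ)) (by simpa using e5)
      have e6 : (0 : ℝ) < (vl (Ev j) (Es j) e m' : ℝ) := by
        by_contra hcon
        push Not at hcon
        exact absurd hj (not_lt.2 (mul_nonpos_of_nonneg_of_nonpos (hx j).le hcon))
      have e7 : (0 : ℝ) < (vl v' s' e m' : ℝ) := by
        rw [e4]
        refine Finset.sum_pos' (fun i _ => ?_) ⟨j, Finset.mem_univ _, ?_⟩
        · exact mul_nonneg (hx' _).le (by exact_mod_cast h6 i e m' hM)
        · exact mul_pos (hx' _) e6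
      exact_mod_cast e7
    · intro y
      by_cases hy : y ∈ S0
      · have e2 := hnn (ψ.symm ⟨y, hy⟩)
        simp only [Equiv.apply_symm_apply] at e2
        have e3 : (0 : ℝ) ≤ (s' y : ℝ) := by
          rw [g2, ← φ.sum_comp fun j => x' (φ.symm j) * (Es j y : ℝ)]
          simp only [Equiv.symm_apply_apply]
          exact e2
        exact_mod_cast e3
      · have e3 : (s' y : ℝ) = 0 := by
          rw [g2]
          exact Finset.sum_eq_zero fun j _ => by rw [h3 j y hy]; simp
        have e4 : s' y = 0 := by exact_mod_cast e3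
        rw [e4]

end build

/-! ### the number of bad hyperplanes -/

section bad

variable {F : Fan n} {u : Fin n → ℝ} {α : Fin F.q → ℝ} {v : Fin n → ℤ} {s : Fin F.q → ℤ} {m : ℝ}

/-- bad hyperplanes -/
def Bad (F : Fan n) (b : Fin F.N → ℝ) (y : Fin F.q) : Prop :=
  ∃ i, F.pt i = y ∧ 0 < F.mu i ∧ ¬ (F.mu i = 1 ∧ b i = 0)

theorem Psi_ray (i : Fin F.N) :
    Psi u α (F.v i) (F.sv i) = ∑ j, u j * (F.v i j : ℝ) + α (F.pt i) * F.mu i := by
  unfold Psi Fan.sv
  congr 1
  rw [Finset.sum_eq_single (F.pt i)]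
  · simp
  · intro y _ hy
    rw [Pi.single_eq_of_ne hy]
    simp
  · intro h; exact absurd (Finset.mem_univ _) h

theorem choice (hα : ∑ y, (1 - α y) = (c : ℝ) + 1) (b : Fin F.N → ℝ)
    (hb : ∀ i, Psi u α (F.v i) (F.sv i) = 1 - b i) (hInt : F.Int v s)
    (hmin : ∀ v s, F.Int v s → (∀ y, 0 ≤ s y) → m ≤ Psi u α v s) (hm : Psi u α v s = m)
    (hs : ∀ y, 0 ≤ s y) (D : Fin F.q → Fin F.N) (hD : ∀ y, F.pt (D y) = y)
    (hmu : ∀ y, 0 < F.mu (D y)) :
    ∑ y, (1 - (1 - b (D y)) / (F.mu (D y) : ℝ)) ≤ (c : ℝ) + 1 := by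
  classical
  let cof : Fin F.q → ℕ := fun y => ∏ y' ∈ Finset.univ.erase y, F.mu (D y')
  let Lm : ℕ := ∏ y, F.mu (D y)
  have hLm : 0 < Lm := Finset.prod_pos fun y _ => hmu y
  have hcof : ∀ y, cof y * F.mu (D y) = Lm := fun y =>
    Finset.prod_erase_mul _ _ (Finset.mem_univ y)
  let hv : Fin n → ℤ := fun k => ∑ y, (cof y : ℤ) * F.v (D y) k
  have hI : F.Int (v + hv) s := by
    intro e m' hM hne
    have e1 := hInt e m' hM hne
    have e2 : vl (v + hv) s e m' = vl v s e m' + pr m' hv := by
      simp only [vl, pr, Pi.add_apply, mul_add, Finset.sum_add_distrib]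
      ring
    have e3 : pr m' hv = ∑ y, (cof y : ℤ) * F.val (D y) e m' := by
      have e4 : ∑ y, (cof y : ℤ) * F.val (D y) e m' =
          ∑ y, (cof y : ℤ) * pr m' (F.v (D y)) + Lm * ∑ y, e y := by
        rw [Finset.mul_sum, ← Finset.sum_add_distrib]
        refine Finset.sum_congr rfl fun y _ => ?_
        rw [← hcof y]
        unfold Fan.val
        rw [hD y]
        push_cast
        ring
      rw [e4, hM.1, mul_zero, add_zero]
      simp only [pr, hv, Finset.mul_sum]
      rw [Finset.sum_comm]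
      exact Finset.sum_congr rfl fun j _ => Finset.sum_congr rfl fun k _ => by ring
    rw [e2, e3]
    have e5 : 0 ≤ ∑ y, (cof y : ℤ) * F.val (D y) e m' :=
      Finset.sum_nonneg fun y _ => mul_nonneg (Nat.cast_nonneg _) (hM.2 _)
    omega
  have h1 := hmin _ _ hI hs
  have h2 : Psi u α (v + hv) s = Psi u α v s + ∑ j, u j * (hv j : ℝ) := by
    simp only [Psi, Pi.add_apply, Int.cast_add, mul_add, Finset.sum_add_distrib]
    ring
  have h3 : ∑ j, u j * (hv j : ℝ) = ∑ y, (cof y : ℝ) * ∑ j, u j * (F.v (D y) j : ℝ) := by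
    simp only [hv]
    push_cast
    simp only [Finset.mul_sum]
    rw [Finset.sum_comm]
    exact Finset.sum_congr rfl fun j _ => Finset.sum_congr rfl fun k _ => by ring
  have h4 : ∀ y, (cof y : ℝ) * ∑ j, u j * (F.v (D y) j : ℝ) =
      Lm * ((1 - α y) - (1 - (1 - b (D y)) / (F.mu (D y) : ℝ))) := by
    intro y
    have e1 := hb (D y)
    rw [Psi_ray, hD y] at e1
    have e2 : (Lm : ℝ) = cof y * F.mu (D y) := by
      rw [← hcof y]; push_cast; ring
    have e3 : (F.mu (D y) : ℝ) ≠ 0 := by
      have := hmu y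
      positivity
    have e4 : ∑ j, u j * (F.v (D y) j : ℝ) = 1 - b (D y) - α y * F.mu (D y) := by linarith
    rw [e4, e2]
    field_simp
    ring
  have h5 : ∑ j, u j * (hv j : ℝ) = Lm * (((c : ℝ) + 1) -
      ∑ y, (1 - (1 - b (D y)) / (F.mu (D y) : ℝ))) := by
    rw [h3, Finset.sum_congr rfl fun y _ => h4 y, ← Finset.mul_sum, Finset.sum_sub_distrib, hα]
  have h6 : 0 ≤ (Lm : ℝ) * (((c : ℝ) + 1) - ∑ y, (1 - (1 - b (D y)) / (F.mu (D y) : ℝ))) := by
    rw [← h5]
    linarith
  have h7 : (0 : ℝ) < Lm := by exact_mod_cast hLm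
  have h8 := (mul_nonneg_iff_of_pos_left h7).1 h6
  linarith

theorem card_bad (hα : ∑ y, (1 - α y) = (c : ℝ) + 1) (b : Fin F.N → ℝ)
    (hb : ∀ i, Psi u α (F.v i) (F.sv i) = 1 - b i) (hb0 : ∀ i, 0 ≤ b i) {δ : ℝ} (hδ0 : 0 < δ)
    (hδ : ∀ i, b i ≠ 0 → δ ≤ b i) (hC : F.IsCone) (hInt : F.Int v s)
    (hmin : ∀ v s, F.Int v s → (∀ y, 0 ≤ s y) → m ≤ Psi u α v s) (hm : Psi u α v s = m)
    (hs : ∀ y, 0 ≤ s y) (S : Finset (Fin F.q)) (hS : ∀ y ∈ S, Bad F b y) :
    S.card ≤ ⌈((c : ℝ) + 1) / min (1 / 2) δ⌉₊ := by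
  classical
  have hex : ∀ y, ∃ i, F.pt i = y ∧ 0 < F.mu i ∧ (y ∈ S → ¬ (F.mu i = 1 ∧ b i = 0)) := by
    intro y
    by_cases hy : y ∈ S
    · obtain ⟨i, h1, h2, h3⟩ := hS y hy
      exact ⟨i, h1, h2, fun _ => h3⟩
    · obtain ⟨i, h1, h2⟩ := hC.onto y
      exact ⟨i, h1, h2, fun h => absurd h hy⟩
  choose D hD hmu hbad using hex
  have h1 := choice hα b hb hInt hmin hm hs D hD hmu
  have hmin0 : 0 < min (1 / 2) δ := lt_min (by norm_num) hδ0
  have hterm : ∀ y, 0 ≤ 1 - (1 - b (D y)) / (F.mu (D y) : ℝ) := by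
    intro y
    have e1 : (1 : ℝ) ≤ F.mu (D y) := by exact_mod_cast hmu y
    have e2 := hb0 (D y)
    have e3 : (1 - b (D y)) / (F.mu (D y) : ℝ) ≤ 1 := by
      rw [div_le_one (by linarith)]
      linarith
    linarith
  have hterm2 : ∀ y ∈ S, min (1 / 2) δ ≤ 1 - (1 - b (D y)) / (F.mu (D y) : ℝ) := by
    intro y hy
    have e1 : (1 : ℝ) ≤ F.mu (D y) := by exact_mod_cast hmu y
    have e2 := hb0 (D y)
    by_cases h2 : F.mu (D y) = 1
    · have h3 : b (D y) ≠ 0 := fun h => hbad y hy ⟨h2, h⟩
      have h4 := hδ _ h3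
      rw [h2, Nat.cast_one, div_one]
      refine (min_le_right _ _).trans ?_
      linarith
    · have h3 : 2 ≤ F.mu (D y) := by
        have := hmu y
        omega
      have h4 : (2 : ℝ) ≤ F.mu (D y) := by exact_mod_cast h3
      refine (min_le_left _ _).trans ?_
      have e3 : (1 - b (D y)) / (F.mu (D y) : ℝ) ≤ 1 / 2 := by
        rw [div_le_div_iff₀ (by linarith) (by norm_num)]
        linarith
      linarith
  have h2 : (S.card : ℝ) * min (1 / 2) δ ≤ (c : ℝ) + 1 := by
    calc (S.card : ℝ) * min (1 / 2) δ = ∑ _y ∈ S, min (1 / 2) δ := by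
          rw [Finset.sum_const, nsmul_eq_mul]
      _ ≤ ∑ y ∈ S, (1 - (1 - b (D y)) / (F.mu (D y) : ℝ)) := Finset.sum_le_sum hterm2
      _ ≤ ∑ y, (1 - (1 - b (D y)) / (F.mu (D y) : ℝ)) :=
          Finset.sum_le_sum_of_subset_of_nonneg (Finset.subset_univ _) fun y _ _ => hterm y
      _ ≤ _ := h1
  have h3 : (S.card : ℝ) ≤ ((c : ℝ) + 1) / min (1 / 2) δ := by
    rw [le_div_iff₀ hmin0]
    exact h2
  exact_mod_cast h3.trans (Nat.le_ceil _)

end bad

/-! ### independent vectors -/

theorem card_le {N d : ℕ} {A : Fin d → Fin N → ℤ} {D : ℤ} (h : DualVec A D) (T : Finset (Fin N))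
    (hT : ∀ i k, k ∉ T → A i k = 0) : d ≤ T.card := by
  classical
  obtain ⟨hD, hQ⟩ := h
  have hli : LinearIndependent ℚ fun (i : Fin d) (k : T) => (A i k : ℚ) := by
    rw [Fintype.linearIndependent_iff]
    intro g hg i
    obtain ⟨Q, hQ⟩ := hQ i
    have h1 : ∀ k, ∑ j, g j * (A j k : ℚ) = 0 := by
      intro k
      by_cases hk : k ∈ T
      · have := congrFun hg ⟨k, hk⟩
        simpa [Finset.sum_apply] using this
      · exact Finset.sum_eq_zero fun j _ => by rw [hT j k hk]; simp
    have h2 : ∑ j, g j * ((pr Q (A j) : ℤ) : ℚ) = 0 := by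
      simp only [pr]
      push_cast
      simp only [Finset.mul_sum]
      rw [Finset.sum_comm]
      refine Finset.sum_eq_zero fun k _ => ?_
      have h3 : ∑ j, g j * ((Q k : ℚ) * (A j k : ℚ)) = Q k * ∑ j, g j * (A j k : ℚ) := by
        rw [Finset.mul_sum]
        exact Finset.sum_congr rfl fun j _ => by ring
      rw [h3, h1 k, mul_zero]
    rw [Finset.sum_eq_single i] at h2
    · rw [hQ i, if_pos rfl] at h2
      have hD' : (D : ℚ) ≠ 0 := by exact_mod_cast hD.ne'
      exact (mul_eq_zero.1 h2).resolve_right hD'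
    · intro j _ hj
      rw [hQ j, if_neg hj]
      simp
    · intro h; exact absurd (Finset.mem_univ _) h
  have h1 := hli.fintype_card_le_finrank
  simpa using h1

theorem dual_inj {N d : ℕ} {M : ℕ} {E : Fin M → Fin N → ℤ} {a : Fin d → Fin M} {D : ℤ}
    (h : DualVec (fun i => E (a i)) D) : Function.Injective a := by
  obtain ⟨hD, hQ⟩ := h
  intro i j hij
  by_contra hne
  obtain ⟨Q, hQ⟩ := hQ i
  have h1 := hQ i
  have h2 := hQ j
  simp only [if_pos] at h1
  rw [if_neg (Ne.symm hne)] at h2
  simp only [hij] at h1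
  rw [h2] at h1
  exact hD.ne h1

theorem dual_int {N d : ℕ} {A : Fin d → Fin N → ℤ} {D : ℤ} (h : DualVec A D) {w : Fin d → ℝ}
    {t : Fin N → ℤ} (hw : ∀ k, ∑ i, w i * (A i k : ℝ) = t k) (i : Fin d) :
    ∃ z : ℤ, (D : ℝ) * w i = z := by
  obtain ⟨hD, hQ⟩ := h
  obtain ⟨Q, hQ⟩ := hQ i
  refine ⟨pr Q t, ?_⟩
  have h1 : ((pr Q t : ℤ) : ℝ) = ∑ j, w j * ((pr Q (A j) : ℤ) : ℝ) := by
    simp only [pr]
    push_cast
    simp only [Finset.mul_sum]
    rw [Finset.sum_comm]
    refine Finset.sum_congr rfl fun k _ => ?_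
    rw [← hw k, Finset.mul_sum]
    exact Finset.sum_congr rfl fun j _ => by ring
  rw [h1, Finset.sum_eq_single i]
  · rw [hQ i, if_pos rfl]; ring
  · intro j _ hj
    rw [hQ j, if_neg hj]
    simp
  · intro h; exact absurd (Finset.mem_univ _) h

/-! ### the decomposition -/

section dec

variable {F : Fan n} {v : Fin n → ℤ} {s : Fin F.q → ℤ}

/-- the vectors modulo `(0, 1)` -/
def co (y0 : Fin F.q) (v : Fin n → ℤ) (s : Fin F.q → ℤ) : Fin (n + F.q) → ℤ :=
  Fin.append v fun y => s y - s y0

theorem pr_co (y0 : Fin F.q) (v : Fin n → ℤ) (s : Fin F.q → ℤ) (z : Fin (n + F.q) → ℤ) :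
    pr z (co y0 v s) = vl v s (fun y => z (Fin.natAdd n y) -
      if y = y0 then ∑ y', z (Fin.natAdd n y') else 0) (fun k => z (Fin.castAdd F.q k)) := by
  have e1 : ∑ y, s y * (z (Fin.natAdd n y) - if y = y0 then ∑ y', z (Fin.natAdd n y') else 0) =
      ∑ y, z (Fin.natAdd n y) * (s y - s y0) := by
    have e2 : ∑ y, s y * (if y = y0 then ∑ y', z (Fin.natAdd n y') else 0) =
        ∑ y, z (Fin.natAdd n y) * s y0 := by
      rw [Finset.sum_eq_single y0]
      · rw [if_pos rfl, Finset.mul_sum]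
        exact Finset.sum_congr rfl fun y _ => by ring
      · intro y _ hy
        rw [if_neg hy, mul_zero]
      · intro h; exact absurd (Finset.mem_univ _) h
    simp only [mul_sub, Finset.sum_sub_distrib]
    rw [e2]
    congr 1
    exact Finset.sum_congr rfl fun y _ => by ring
  unfold pr co vl
  rw [Fin.sum_univ_add, e1]
  simp only [Fin.append_left, Fin.append_right, pr]
  ring

/-- the minimiser as a combination of independent rays -/
theorem dec (hInt : F.Int v s) (y0 : Fin F.q) (hy0 : s y0 = 0) :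
    ∃ (d : ℕ) (a : Fin d → Fin F.N) (w : Fin d → ℝ) (L : ℕ) (lam : ℝ), Function.Injective a ∧
      (∀ i, 0 < w i) ∧ 0 < L ∧ (∀ i, ∃ z : ℤ, (L : ℝ) * w i = z) ∧
      lam = ∑ i, w i * (F.sv (a i) y0 : ℝ) ∧
      (∀ k, ∑ i, w i * (F.v (a i) k : ℝ) = v k) ∧
      (∀ y, ∑ i, w i * (F.sv (a i) y : ℝ) = s y + lam) ∧
      ∃ D : ℤ, DualVec (fun i => co y0 (F.v (a i)) (F.sv (a i))) D := by
  obtain ⟨d, a, w, hw, hsum, D, hD⟩ := exists_simplex (N := F.N)
    (E := fun i => co y0 (F.v i) (F.sv i)) (u := co y0 v s) (by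
      intro z hz
      rw [pr_co]
      set e : Fin F.q → ℤ := fun y => z (Fin.natAdd n y) -
        if y = y0 then ∑ y', z (Fin.natAdd n y') else 0 with he
      set m' : Fin n → ℤ := fun k => z (Fin.castAdd F.q k) with hm'
      have hM : F.Mem e m' := by
        refine ⟨?_, fun i => ?_⟩
        · rw [he]
          simp
        · rw [val_eq, ← pr_co]
          exact hz i
      by_cases hne : e ≠ 0 ∨ m' ≠ 0
      · exact (hInt e m' hM hne).le
      · push Not at hne
        rw [hne.1, hne.2, vl_zero'])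
  refine ⟨d, a, w, D.toNat, ∑ i, w i * (F.sv (a i) y0 : ℝ),
    dual_inj (E := fun i => co y0 (F.v i) (F.sv i)) hD, hw, ?_, ?_, rfl, ?_, ?_, D, hD⟩
  · have := hD.1
    omega
  · intro i
    obtain ⟨z, hz⟩ := dual_int hD hsum i
    refine ⟨z, ?_⟩
    rw [← hz]
    have h1 : ((D.toNat : ℤ) : ℝ) = D := by
      rw [Int.toNat_of_nonneg hD.1.le]
    rw [← h1]
    norm_cast
  · intro k
    have h1 := hsum (Fin.castAdd F.q k)
    simp only [co, Fin.append_left] at h1
    exact h1
  · intro y
    have h1 := hsum (Fin.natAdd n y)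
    simp only [co, Fin.append_right] at h1
    push_cast at h1
    rw [hy0] at h1
    simp only [mul_sub, Finset.sum_sub_distrib] at h1
    push_cast at h1
    linarith

end dec

theorem sv_nonneg (F : Fan n) (i : Fin F.N) (y : Fin F.q) : 0 ≤ F.sv i y := by
  unfold Fan.sv
  by_cases h : y = F.pt i
  · subst h
    rw [Pi.single_eq_same]
    exact Nat.cast_nonneg _
  · rw [Pi.single_eq_of_ne h]

theorem sv_ne {F : Fan n} {i : Fin F.N} {y : Fin F.q} (h : F.pt i ≠ y) : F.sv i y = 0 := by
  unfold Fan.sv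
  rw [Pi.single_eq_of_ne (Ne.symm h)]

theorem sv_mu {F : Fan n} {i : Fin F.N} {y : Fin F.q} (h : F.mu i = 0) : F.sv i y = 0 := by
  unfold Fan.sv
  rw [h]
  simp

theorem sv_eq {F : Fan n} {i : Fin F.N} {y : Fin F.q} (h : F.pt i = y) : F.sv i y = F.mu i := by
  unfold Fan.sv
  rw [h, Pi.single_eq_same]

theorem Psi_sum {F : Fan n} (u : Fin n → ℝ) (α : Fin F.q → ℝ) {ι : Type} (R : Finset ι)
    (V : ι → Fin n → ℤ) (T : ι → Fin F.q → ℤ) :
    Psi u α (fun k => ∑ i ∈ R, V i k) (fun y => ∑ i ∈ R, T i y - 1) =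
      ∑ i ∈ R, Psi u α (V i) (T i) - ∑ y, α y := by
  simp only [Psi]
  push_cast
  simp only [Finset.mul_sum, mul_sub, mul_one, Finset.sum_add_distrib, Finset.sum_sub_distrib]
  rw [Finset.sum_comm, Finset.sum_comm (s := Finset.univ) (t := R)
    (f := fun y i => α y * (T i y : ℝ))]
  ring

theorem vl_sum {F : Fan n} {ι : Type} (R : Finset ι) (V : ι → Fin n → ℤ) (T : ι → Fin F.q → ℤ)
    {e : Fin F.q → ℤ} (m : Fin n → ℤ) (he : ∑ y, e y = 0) :
    vl (fun k => ∑ i ∈ R, V i k) (fun y => ∑ i ∈ R, T i y - 1) e m =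
      ∑ i ∈ R, vl (V i) (T i) e m := by
  simp only [vl, pr]
  simp only [Finset.mul_sum, sub_mul, one_mul, Finset.sum_add_distrib, Finset.sum_sub_distrib,
    Finset.sum_mul]
  rw [he, sub_zero, Finset.sum_comm, Finset.sum_comm (s := Finset.univ) (t := R)
    (f := fun k i => m k * V i k)]

theorem mem_D {Γ : Set ℝ} {b x : ℝ} (h : b ≠ 0 → b ∈ Γ) : b ∈ insert 0 (insert x Γ) := by
  by_cases hb : b = 0
  · rw [hb]; exact Set.mem_insert _ _
  · exact Set.mem_insert_of_mem _ (Set.mem_insert_of_mem _ (h hb))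

end RepL

open RepL

theorem rep_min : S_REP := by
  classical
  intro c n Γ hΓ
  obtain ⟨δ, hδ0, hδ⟩ := exists_min hΓ
  refine ⟨2 * n + c + ⌈((c : ℝ) + 1) / min (1 / 2) δ⌉₊, ?_⟩
  rintro F m - ⟨hC, hq, u, α, hα, hb, ⟨v, s, hInt, ⟨hs0, hTrop⟩, hPsi⟩, hmin⟩
  choose b hb0 hbΓ hb using hb
  obtain ⟨y0, hy0⟩ : ∃ y0, s y0 = 0 := by
    by_contra hcon
    push Not at hcon
    rw [Finset.filter_true_of_mem (fun y _ => hcon y), Finset.card_univ, Fintype.card_fin] at hTrop
    omega
  obtain ⟨d, a, w, L, lam, ha, hw, hL, hLw, hlam, hv, hs, D, hD⟩ := dec hInt y0 hy0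
  have hlam0 : 0 ≤ lam := by
    rw [hlam]
    exact Finset.sum_nonneg fun i _ => mul_nonneg (hw i).le (by exact_mod_cast sv_nonneg F _ _)
  rcases eq_or_lt_of_le hlam0 with hl | hl
  · -- no negative multiple of `(0, 1)`
    set S0 : Finset (Fin F.q) := Finset.univ.filter fun y => s y ≠ 0 with hS0
    have hzero : ∀ y, y ∉ S0 → ∀ i, F.sv (a i) y = 0 := by
      intro y hy i
      have h1 : s y = 0 := by
        by_contra h
        exact hy (by rw [hS0]; simp [h])
      have h2 := hs y
      rw [h1, ← hl] at h2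
      push_cast at h2
      rw [add_zero, Finset.sum_eq_zero_iff_of_nonneg (fun i _ =>
        mul_nonneg (hw i).le (by exact_mod_cast sv_nonneg F _ _))] at h2
      have h3 := h2 i (Finset.mem_univ _)
      have h4 := (mul_eq_zero.1 h3).resolve_left (hw i).ne'
      exact_mod_cast h4
    have hd : d ≤ n + S0.card := by
      have h1 := card_le hD (Finset.univ.map (Fin.castAddEmb F.q) ∪ S0.map (Fin.natAddEmb n)) (by
        intro i k hk
        rw [Finset.mem_union] at hk
        push Not at hk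
        revert hk
        refine Fin.addCases (fun j => ?_) (fun y => ?_) k
        · intro hk
          exact absurd (by simp) hk.1
        · intro hk
          have hy : y ∉ S0 := fun h => hk.2 (by simp [h])
          have h1 : y0 ∉ S0 := fun h => by
            rw [hS0, Finset.mem_filter] at h
            exact h.2 hy0
          show co y0 (F.v (a i)) (F.sv (a i)) (Fin.natAdd n y) = 0
          simp only [co, Fin.append_right]
          rw [hzero y hy, hzero y0 h1, sub_zero])
      refine h1.trans ((Finset.card_union_le _ _).trans ?_)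
      rw [Finset.card_map, Finset.card_map, Finset.card_univ, Fintype.card_fin]
    refine ⟨Fintype.card (Fin d), ?_, S0.card, ?_, ?_⟩
    · rw [Fintype.card_fin]
      omega
    · omega
    · refine build _ hInt hmin hPsi hs0 S0 (fun i => F.v (a i)) (fun i => F.sv (a i)) w hw L hL hLw
        (fun k => (hv k).symm) (fun y => ?_) (fun i y hy => hzero y hy i) (fun i y => ?_)
        (fun i => ?_) (fun i e m' hM => ?_)
      · have := hs y
        rw [← hl, add_zero] at this
        exact this.symm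
      · have := sv_nonneg F (a i) y
        omega
      · rw [hb, sub_sub_cancel]
        exact mem_D (hbΓ _)
      · rw [← val_eq]
        exact hM.2 _
  · -- the general case
    set U : Fin F.q → Finset (Fin d) := fun y =>
      Finset.univ.filter fun i => F.pt (a i) = y ∧ F.mu (a i) ≠ 0 with hU
    have hU1 : ∀ y, 1 ≤ (U y).card := by
      intro y
      rw [Nat.one_le_iff_ne_zero, Ne, Finset.card_eq_zero]
      intro h
      have h1 : ∑ i, w i * (F.sv (a i) y : ℝ) = 0 := by
        refine Finset.sum_eq_zero fun i _ => ?_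
        have h2 : i ∉ U y := by rw [h]; exact Finset.notMem_empty _
        rw [hU] at h2
        simp only [Finset.mem_filter, Finset.mem_univ, true_and, not_and, not_not] at h2
        by_cases h3 : F.pt (a i) = y
        · rw [sv_mu (h2 h3)]; simp
        · rw [sv_ne h3]; simp
      rw [hs y] at h1
      have h2 : (0 : ℝ) ≤ s y := by exact_mod_cast hs0 y
      linarith
    have hd : d ≤ n + F.q - 1 := by
      have h1 := card_le hD (Finset.univ.erase (Fin.natAdd n y0)) (by
        intro i k hk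
        have hk' : k = Fin.natAdd n y0 := by
          by_contra h
          exact hk (Finset.mem_erase.2 ⟨h, Finset.mem_univ _⟩)
        rw [hk']
        show co y0 (F.v (a i)) (F.sv (a i)) (Fin.natAdd n y0) = 0
        simp only [co, Fin.append_right, sub_self])
      rw [Finset.card_erase_of_mem (Finset.mem_univ _), Finset.card_univ, Fintype.card_fin] at h1
      exact h1
    have hUd : ∑ y, (U y).card ≤ d := by
      have h1 : (Finset.univ.filter fun i : Fin d => F.mu (a i) ≠ 0).card = ∑ y, (U y).card := by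
        rw [Finset.card_eq_sum_card_fiberwise (f := fun i => F.pt (a i)) (t := Finset.univ)
          (fun i _ => Finset.mem_univ _)]
        refine Finset.sum_congr rfl fun y _ => ?_
        congr 1
        ext i
        simp only [hU, Finset.mem_filter, Finset.mem_univ, true_and]
        tauto
      rw [← h1]
      refine (Finset.card_filter_le _ _).trans ?_
      rw [Finset.card_univ, Fintype.card_fin]
    set S0 : Finset (Fin F.q) := Finset.univ.filter fun y =>
      s y ≠ 0 ∨ 2 ≤ (U y).card ∨ Bad F b y with hS0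
    have hS0card : S0.card ≤ c + n + ⌈((c : ℝ) + 1) / min (1 / 2) δ⌉₊ := by
      have h1 : S0 ⊆ (Finset.univ.filter fun y => s y ≠ 0) ∪
          ((Finset.univ.filter fun y => 2 ≤ (U y).card) ∪
            (Finset.univ.filter fun y => Bad F b y)) := by
        intro y hy
        rw [hS0, Finset.mem_filter] at hy
        simp only [Finset.mem_union, Finset.mem_filter, Finset.mem_univ, true_and]
        exact hy.2
      have h2 : (Finset.univ.filter fun y => 2 ≤ (U y).card).card ≤ n := by
        have h3 : F.q + (Finset.univ.filter fun y => 2 ≤ (U y).card).card ≤ ∑ y, (U y).card := by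
          have h4 : F.q + (Finset.univ.filter fun y => 2 ≤ (U y).card).card =
              ∑ y, (1 + if 2 ≤ (U y).card then 1 else 0) := by
            rw [Finset.sum_add_distrib, Finset.sum_const, Finset.card_univ, Fintype.card_fin,
              Finset.card_filter]
            simp
          rw [h4]
          refine Finset.sum_le_sum fun y _ => ?_
          have := hU1 y
          split_ifs <;> omega
        omega
      have h3 := card_bad hα b hb hb0 hδ0 (fun i hi => hδ _ (hbΓ i hi)
        (lt_of_le_of_ne (hb0 i) (Ne.symm hi))) hC hInt hmin hPsi hs0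
        (Finset.univ.filter fun y => Bad F b y) (fun y hy => (Finset.mem_filter.1 hy).2)
      have h4 := Finset.card_le_card h1
      have h5 := Finset.card_union_le (Finset.univ.filter fun y => s y ≠ 0)
        ((Finset.univ.filter fun y => 2 ≤ (U y).card) ∪ (Finset.univ.filter fun y => Bad F b y))
      have h6 := Finset.card_union_le (Finset.univ.filter fun y => 2 ≤ (U y).card)
        (Finset.univ.filter fun y => Bad F b y)
      omega
    -- the hyperplanes outside `S0`
    have hout : ∀ y, y ∉ S0 → s y = 0 ∧ (U y).card = 1 ∧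
        ∀ i ∈ U y, F.mu (a i) = 1 ∧ b (a i) = 0 := by
      intro y hy
      rw [hS0, Finset.mem_filter] at hy
      push Not at hy
      obtain ⟨h1, h2, h3⟩ := hy (Finset.mem_univ _)
      refine ⟨h1, by have := hU1 y; omega, fun i hi => ?_⟩
      rw [hU, Finset.mem_filter] at hi
      by_contra hcon
      exact h3 ⟨a i, hi.2.1, Nat.pos_of_ne_zero hi.2.2, hcon⟩
    set p : Fin d → Prop := fun i => F.mu (a i) = 0 ∨ F.pt (a i) ∈ S0 with hp
    set R0 : Finset (Fin d) := Finset.univ.filter fun i => ¬ p i with hR0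
    have hR0m : ∀ i ∈ R0, F.pt (a i) ∉ S0 ∧ i ∈ U (F.pt (a i)) := by
      intro i hi
      rw [hR0, Finset.mem_filter] at hi
      have h1 := hi.2
      simp only [hp] at h1
      push Not at h1
      exact ⟨h1.2, by rw [hU]; simp [h1.1]⟩
    have hfib : ∀ y, y ∉ S0 → R0.filter (fun i => F.pt (a i) = y) = U y := by
      intro y hy
      ext i
      simp only [hR0, hU, hp, Finset.mem_filter, Finset.mem_univ, true_and]
      constructor
      · rintro ⟨h1, h2⟩
        exact ⟨h2, fun h => h1 (Or.inl h)⟩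
      · rintro ⟨h1, h2⟩
        refine ⟨fun h => ?_, h1⟩
        rcases h with h | h
        · exact h2 h
        · rw [h1] at h; exact hy h
    have hR0c : R0.card + S0.card = F.q := by
      have h1 : R0.card = ∑ y ∈ S0ᶜ, (R0.filter (fun i => F.pt (a i) = y)).card :=
        Finset.card_eq_sum_card_fiberwise (f := fun i => F.pt (a i)) (t := S0ᶜ)
          (fun i hi => by
            rw [Finset.mem_coe, Finset.mem_compl]
            exact (hR0m i hi).1)
      have h2 : ∑ y ∈ S0ᶜ, (R0.filter (fun i => F.pt (a i) = y)).card = ∑ y ∈ S0ᶜ, 1 := by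
        refine Finset.sum_congr rfl fun y hy => ?_
        rw [Finset.mem_compl] at hy
        rw [hfib y hy, (hout y hy).2.1]
      rw [h1, h2, Finset.sum_const, smul_eq_mul, mul_one, add_comm, Finset.card_add_card_compl,
        Fintype.card_fin]
    have hsvR : ∀ y, y ∉ S0 → ∀ f : Fin d → ℝ, ∀ i ∈ R0, F.pt (a i) = y →
        ∑ j, f j * (F.sv (a j) y : ℝ) = f i := by
      intro y hy f i hi hiy
      have h1 := (hR0m i hi).2
      rw [hiy] at h1
      have h2 : U y = {i} := by
        obtain ⟨j, hj⟩ := Finset.card_eq_one.1 (hout y hy).2.1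
        rw [hj] at h1 ⊢
        rw [Finset.mem_singleton.1 h1]
      rw [Finset.sum_eq_single i]
      · rw [sv_eq hiy, ((hout y hy).2.2 i h1).1]
        simp
      · intro j _ hj
        have h3 : j ∉ U y := by rw [h2]; simpa using hj
        rw [hU] at h3
        simp only [Finset.mem_filter, Finset.mem_univ, true_and, not_and, not_not] at h3
        by_cases h4 : F.pt (a j) = y
        · rw [sv_mu (h3 h4)]; simp
        · rw [sv_ne h4]; simp
      · intro h; exact absurd (Finset.mem_univ _) h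
    have hwR : ∀ i ∈ R0, w i = lam := by
      intro i hi
      have h1 := (hR0m i hi).1
      have h2 := hsvR _ h1 w i hi rfl
      rw [hs, (hout _ h1).1] at h2
      push_cast at h2
      rw [← h2, zero_add]
    have hsplit : ∀ f : Fin d → ℝ, ∑ i : {i // p i}, w i.1 * f i.1 + lam * ∑ i ∈ R0, f i =
        ∑ i, w i * f i := by
      intro f
      rw [← Finset.sum_filter_add_sum_filter_not Finset.univ p, Finset.mul_sum]
      congr 1
      · exact (Finset.sum_subtype (Finset.univ.filter p) (by simp) fun i => w i * f i).symm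
      · exact Finset.sum_congr rfl fun i hi => by rw [hwR i hi]
    have hcard : Fintype.card (Option {i // p i}) + R0.card = d + 1 := by
      rw [Fintype.card_option, Fintype.card_subtype]
      have h1 := Finset.card_filter_add_card_filter_not (s := (Finset.univ : Finset (Fin d)))
        (fun i => p i)
      rw [Finset.card_univ, Fintype.card_fin] at h1
      have h2 : R0.card = (Finset.univ.filter fun i => ¬ p i).card := rfl
      omega
    refine ⟨Fintype.card (Option {i // p i}), ?_, S0.card, ?_, ?_⟩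
    · omega
    · omega
    · refine build _ hInt hmin hPsi hs0 S0
        (fun j => j.elim (fun k => ∑ i ∈ R0, F.v (a i) k) fun i => F.v (a i.1))
        (fun j => j.elim (fun y => ∑ i ∈ R0, F.sv (a i) y - 1) fun i => F.sv (a i.1))
        (fun j => j.elim lam fun i => w i.1) ?_ L hL ?_ ?_ ?_ ?_ ?_ ?_ ?_
      · rintro (_ | i)
        · exact hl
        · exact hw _
      · rintro (_ | i)
        · choose z hz using hLw
          refine ⟨∑ i, z i * F.sv (a i) y0, ?_⟩
          show (L : ℝ) * lam = _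
          rw [hlam, Finset.mul_sum]
          push_cast
          refine Finset.sum_congr rfl fun i _ => ?_
          rw [← hz i]
          ring
        · exact hLw _
      · intro k
        rw [Fintype.sum_option]
        simp only [Option.elim_none, Option.elim_some]
        push_cast
        rw [← hv k, ← hsplit]
        ring
      · intro y
        rw [Fintype.sum_option]
        simp only [Option.elim_none, Option.elim_some]
        push_cast
        have h1 := hs y
        rw [← hsplit] at h1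
        linarith
      · rintro (_ | i) y hy
        · show ∑ i ∈ R0, F.sv (a i) y - 1 = 0
          obtain ⟨i, hi⟩ := Finset.card_eq_one.1 (hout y hy).2.1
          have h1 : i ∈ R0.filter (fun i => F.pt (a i) = y) := by
            rw [hfib y hy, hi]; exact Finset.mem_singleton_self _
          rw [Finset.mem_filter] at h1
          rw [Finset.sum_eq_single_of_mem i h1.1]
          · rw [sv_eq h1.2, ((hout y hy).2.2 i (by rw [hi]; exact Finset.mem_singleton_self _)).1]
            norm_num
          · intro j hj hji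
            refine sv_ne fun h => hji ?_
            have h2 : j ∈ R0.filter (fun i => F.pt (a i) = y) := Finset.mem_filter.2 ⟨hj, h⟩
            rw [hfib y hy, hi] at h2
            exact Finset.mem_singleton.1 h2
        · show F.sv (a i.1) y = 0
          rcases i.2 with h | h
          · exact sv_mu h
          · exact sv_ne fun h2 => hy (h2 ▸ h)
      · rintro (_ | i) y
        · show -1 ≤ ∑ i ∈ R0, F.sv (a i) y - 1
          have : 0 ≤ ∑ i ∈ R0, F.sv (a i) y := Finset.sum_nonneg fun i _ => sv_nonneg F _ _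
          omega
        · show -1 ≤ F.sv (a i.1) y
          have := sv_nonneg F (a i.1) y
          omega
      · rintro (_ | i)
        · show 1 - Psi u α (fun k => ∑ i ∈ R0, F.v (a i) k)
            (fun y => ∑ i ∈ R0, F.sv (a i) y - 1) ∈ _
          rw [Psi_sum]
          have h1 : ∑ i ∈ R0, Psi u α (F.v (a i)) (F.sv (a i)) = R0.card := by
            rw [Finset.sum_congr rfl fun i hi => by
              rw [hb, ((hout _ (hR0m i hi).1).2.2 i (hR0m i hi).2).2, sub_zero]]
            simp
          have h2 : ∑ y, α y = F.q - ((c : ℝ) + 1) := by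
            rw [Finset.sum_sub_distrib, Finset.sum_const, Finset.card_univ, Fintype.card_fin,
              nsmul_eq_mul, mul_one] at hα
            linarith
          have h3 : (R0.card : ℝ) + S0.card = F.q := by exact_mod_cast hR0c
          rw [h1, h2]
          refine Set.mem_insert_of_mem _ ?_
          rw [Set.mem_insert_iff]
          left
          linarith
        · show 1 - Psi u α (F.v (a i.1)) (F.sv (a i.1)) ∈ _
          rw [hb, sub_sub_cancel]
          exact mem_D (hbΓ _)
      · rintro (_ | i) e m' hM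
        · show 0 ≤ vl (fun k => ∑ i ∈ R0, F.v (a i) k) (fun y => ∑ i ∈ R0, F.sv (a i) y - 1) e m'
          rw [vl_sum R0 (fun i => F.v (a i)) (fun i => F.sv (a i)) m' hM.1]
          exact Finset.sum_nonneg fun i _ => by
            rw [← val_eq]
            exact hM.2 _
        · show 0 ≤ vl (F.v (a i.1)) (F.sv (a i.1)) e m'
          rw [← val_eq]
          exact hM.2 _

end Pool.Agent.Helper58K9.AR
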