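import Pool.Agent.Helper58K9.AR.Stm

/-!
# Monomial valuations in torus coordinates
-/

set_option autoImplicit false
set_option linter.unusedSectionVars false

namespace Pool.Agent.Helper58K9.AR

open Pool.Agent.H436R3.Fol Pool.Agent.H436R3.KT Pool.Agent.W497.Mld MvPolynomial
open Pool.Agent.TH165.ACC (pr ex ym tv tor Hs LA Prim IsMonomial exists_mon local_Hs fg_Hs can_mon
  ord_ym tor_cv)

namespace TcanL

variable {N : ℕ} {K : Type} [Field K] [Algebra ℂ K]

section tor

variable [Algebra (MvPolynomial (Fin N) ℂ) K] [IsFractionRing (MvPolynomial (Fin N) ℂ) K]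
  [IsScalarTower ℂ (MvPolynomial (Fin N) ℂ) K]

theorem tor_indep : LinearIndependent K (tor K : Fin N → Derivation ℂ K K) := by
  rw [Fintype.linearIndependent_iff]
  intro g hg i
  have h := DFunLike.congr_fun hg (cv K i)
  rw [Derivation.coe_zero, Pi.zero_apply, der_sum_apply] at h
  simp only [tor_cv, mul_ite, mul_zero, Finset.sum_ite_eq', Finset.mem_univ, if_true] at h
  exact (mul_eq_zero.1 h).resolve_right (cv_ne i)

/-- every derivation is a combination of the toric ones -/
theorem der_eq_tor (D : Derivation ℂ K K) : D = ∑ i : Fin N, (D (cv K i) / cv K i) • tor K i := by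
  apply der_ext (ι := Fin N)
  intro j
  rw [der_sum_apply]
  simp only [tor_cv, mul_ite, mul_zero, Finset.sum_ite_eq', Finset.mem_univ, if_true]
  rw [div_mul_cancel₀ _ (cv_ne j)]

theorem span_tor : Submodule.span K (Set.range (tor K : Fin N → Derivation ℂ K K)) = ⊤ := by
  rw [eq_top_iff]
  intro D _
  rw [der_eq_tor (N := N) D]
  exact Submodule.sum_mem _ fun i _ => Submodule.smul_mem _ _ (Submodule.subset_span ⟨i, rfl⟩)

/-- the toric vector fields as a foliation -/
noncomputable def torFol (K : Type) [Field K] [Algebra ℂ K]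
    [Algebra (MvPolynomial (Fin N) ℂ) K] [IsFractionRing (MvPolynomial (Fin N) ℂ) K]
    [IsScalarTower ℂ (MvPolynomial (Fin N) ℂ) K] {d : ℕ} (e : Fin d ≃ Fin N) : Foliation K d where
  D := fun i => tor K (e i)
  indep := tor_indep.comp e e.injective
  closed := by
    intro i j
    have h : Set.range (fun i => tor K (e i)) = Set.range (tor K : Fin N → Derivation ℂ K K) :=
      e.surjective.range_comp (tor K)
    rw [h, span_tor]
    trivial

end tor

/-- change of basis of the vector fields -/
theorem can_change {d : ℕ} (F T : Foliation K d) (v : DVal K) (P : Matrix (Fin d) (Fin d) K)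
    (hP : P.det ≠ 0) (hT : ∀ i, T.D i = ∑ k, P i k • F.D k) {m : ℤ} (h : IsCanOrd F v m) :
    IsCanOrd T v (m - v.ord P.det) := by
  have hrow : ∀ (A : Matrix (Fin d) (Fin d) K) (i : Fin d),
      (∑ j, A i j • T.D j) = ∑ j, (A * P) i j • F.D j := by
    intro A i
    simp only [hT, Finset.smul_sum, Matrix.mul_apply, Finset.sum_smul, smul_smul]
    rw [Finset.sum_comm]
  have hU : IsUnit P.det := isUnit_iff_ne_zero.2 hP
  constructor
  · obtain ⟨A, hA, hA1, hA2⟩ := h.1
    refine ⟨A * P⁻¹, ?_, fun i => ?_, ?_⟩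
    · rw [Matrix.det_mul]
      refine mul_ne_zero hA ?_
      rw [Matrix.det_nonsing_inv, Ring.inverse_eq_inv']
      exact inv_ne_zero hP
    · rw [hrow, Matrix.mul_assoc, Matrix.nonsing_inv_mul _ hU, Matrix.mul_one]
      exact hA1 i
    · have h1 : (A * P⁻¹).det * P.det = A.det := by
        rw [← Matrix.det_mul, Matrix.mul_assoc, Matrix.nonsing_inv_mul _ hU, Matrix.mul_one]
      have h2 : (A * P⁻¹).det ≠ 0 := by
        intro h0
        rw [h0, zero_mul] at h1
        exact hA h1.symm
      have h3 := v.map_mul _ _ h2 hP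
      rw [h1, hA2] at h3
      omega
  · rintro k ⟨A, hA, hA1, rfl⟩
    have h1 : m ≤ v.ord (A * P).det := by
      refine h.2 ⟨A * P, ?_, fun i => ?_, rfl⟩
      · rw [Matrix.det_mul]
        exact mul_ne_zero hA hP
      · rw [← hrow]
        exact hA1 i
    rw [Matrix.det_mul, v.map_mul _ _ hA hP] at h1
    omega

end TcanL

open TcanL in
theorem tcan : S_TCAN := by
  intro N K _ _ d T e y W hT hy hfr hW
  letI : Algebra (MvPolynomial (Fin N) ℂ) K :=
    ((aeval y : MvPolynomial (Fin N) ℂ →ₐ[ℂ] K) : MvPolynomial (Fin N) ℂ →+* K).toAlgebra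
  have hal : ∀ p : MvPolynomial (Fin N) ℂ, algebraMap (MvPolynomial (Fin N) ℂ) K p = aeval y p :=
    fun p => rfl
  haveI : IsScalarTower ℂ (MvPolynomial (Fin N) ℂ) K := by
    refine IsScalarTower.of_algebraMap_eq fun c => ?_
    rw [hal, MvPolynomial.algebraMap_eq, aeval_C]
  have hinj : Function.Injective (algebraMap (MvPolynomial (Fin N) ℂ) K) := by
    rw [injective_iff_map_eq_zero]
    intro p hp
    exact hy p hp
  haveI : IsFractionRing (MvPolynomial (Fin N) ℂ) K := by
    haveI : FaithfulSMul (MvPolynomial (Fin N) ℂ) K :=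
      (faithfulSMul_iff_algebraMap_injective _ _).2 hinj
    refine IsFractionRing.of_field (MvPolynomial (Fin N) ℂ) K fun f => ?_
    obtain ⟨a, b, hb, hab⟩ := hfr f
    refine ⟨a, b, ?_⟩
    rw [hal, hal, ← hab, mul_div_cancel_right₀ _ hb]
  have hjo : ∀ p : MvPolynomial (Fin N) ℂ, jo (Fin N) K p = aeval y p := fun p => rfl
  have hcv : ∀ i, cv K i = y i := fun i => by rw [cv, hjo, aeval_X]
  obtain ⟨w, hw, htv⟩ := exists_mon (K := K) (u := W) hW
  have hord : ∀ k, w.ord (y k) = W k := fun k => by
    rw [← hcv, ← htv]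
    rfl
  have hloc := local_Hs hw
  rw [htv] at hloc
  set M : Matrix (Fin N) (Fin N) K := Matrix.of fun j k : Fin N => T.D (e.symm j) (y k) with hM
  let P : Matrix (Fin d) (Fin d) K := Matrix.of fun i k => T.D i (y (e k)) / y (e k)
  have hTP : ∀ i, T.D i = ∑ k, P i k • (torFol K e).D k := by
    intro i
    conv_lhs => rw [der_eq_tor (N := N) (T.D i)]
    rw [← e.sum_comp]
    refine Finset.sum_congr rfl fun k _ => ?_
    rw [hcv]
    rfl
  have hy0 : ∀ k, y k ≠ 0 := fun k => by
    rw [← hcv]
    exact cv_ne k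
  have hdet : P.det * ∏ k, y k = M.det := by
    have h1 : (M.submatrix e e) = P * Matrix.diagonal fun k => y (e k) := by
      ext i k
      rw [Matrix.mul_diagonal, Matrix.submatrix_apply, hM, Matrix.of_apply, e.symm_apply_apply]
      change _ = T.D i (y (e k)) / y (e k) * y (e k)
      rw [div_mul_cancel₀ _ (hy0 _)]
    rw [← Matrix.det_submatrix_equiv_self e M, h1, Matrix.det_mul, Matrix.det_diagonal,
      e.prod_comp fun k => y k]
  have hPy : ∏ k, y k ≠ 0 := Finset.prod_ne_zero_iff.2 fun k _ => hy0 k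
  have hP0 : P.det ≠ 0 := by
    intro h0
    obtain ⟨u, hu, hu0⟩ := Matrix.exists_vecMul_eq_zero_iff.2 h0
    apply hu
    have h1 : ∑ i, u i • T.D i = 0 := by
      have h2 : ∑ i, u i • T.D i = ∑ k, (Matrix.vecMul u P) k • (torFol K e).D k := by
        have h3 : ∀ i, u i • T.D i = ∑ k, (u i * P i k) • (torFol K e).D k := by
          intro i
          rw [hTP i, Finset.smul_sum]
          exact Finset.sum_congr rfl fun k _ => smul_smul _ _ _
        rw [Finset.sum_congr rfl fun i _ => h3 i, Finset.sum_comm]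
        refine Finset.sum_congr rfl fun k _ => ?_
        rw [← Finset.sum_smul]
        rfl
      rw [h2, hu0]
      simp
    have h4 := Fintype.linearIndependent_iff.1 T.indep u h1
    funext i
    exact h4 i
  have hM0 : M.det ≠ 0 := by
    rw [← hdet]
    exact mul_ne_zero hP0 hPy
  have hc := can_change (torFol K e) T w P hP0 hTP
    (can_mon e (fun i => rfl) hw)
  refine ⟨w, LA K (Hs W), fg_Hs hW, hloc, ?_, hord, ?_, hM0, ?_⟩
  · refine Algebra.adjoin_mono ?_
    rintro _ ⟨m, hm, rfl⟩
    refine ⟨m, hm, ?_⟩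
    rw [ym]
    exact Finset.prod_congr rfl fun k _ => by rw [hcv]
  · intro p hp
    have := hw p hp
    rw [htv, hjo] at this
    exact this
  · have h5 : w.ord M.det = w.ord P.det + ∑ k, W k := by
      rw [← hdet, w.map_mul _ _ hP0 hPy, w.ord_prod _ _ fun k _ => hy0 k]
      congr 1
      exact Finset.sum_congr rfl fun k _ => hord k
    have h6 : ∑ k, W k - 1 - w.ord M.det = -1 - w.ord P.det := by
      rw [h5]
      ring
    rw [h6]
    exact hc

end Pool.Agent.Helper58K9.AR
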