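import Pool.Agent.Helper58K9.AR.Lin

/-!
# Every valuation has a tropical type
-/

set_option autoImplicit false

namespace Pool.Agent.Helper58K9.AR

open Pool.Agent.H436R3.Fol Pool.Agent.H436R3.KT Pool.Agent.W497.Mld MvPolynomial

namespace TyL

variable {K : Type} [Field K] [Algebra ℂ K]

/-- the order of a combination -/
theorem ord_comb (w : DVal K) {N : ℕ} (β : Fin N → ℂ) (f : Fin N → K) (hf : ∀ i, f i ≠ 0) (t : ℤ)
    (h : ∀ i, t ≤ w.ord (f i)) (S : Finset (Fin N)) :
    (∑ i ∈ S, algebraMap ℂ K (β i) * f i) = 0 ∨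
      t ≤ w.ord (∑ i ∈ S, algebraMap ℂ K (β i) * f i) := by
  classical
  induction S using Finset.induction_on with
  | empty => left; simp
  | insert a S ha ih =>
    rw [Finset.sum_insert ha]
    by_cases hb : β a = 0
    · rw [hb, map_zero, zero_mul, zero_add]
      exact ih
    · have h1 : algebraMap ℂ K (β a) ≠ 0 := by
        rw [Ne, map_eq_zero]
        exact hb
      have h2 : t ≤ w.ord (algebraMap ℂ K (β a) * f a) := by
        rw [w.map_mul _ _ h1 (hf a), w.const _ hb, zero_add]
        exact h a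
      by_cases h3 : algebraMap ℂ K (β a) * f a + ∑ i ∈ S, algebraMap ℂ K (β i) * f i = 0
      · left; exact h3
      · right
        rcases ih with h4 | h4
        · rw [h4, add_zero]
          exact h2
        · by_cases h5 : ∑ i ∈ S, algebraMap ℂ K (β i) * f i = 0
          · rw [h5, add_zero]
            exact h2
          · have := w.map_add _ _ (mul_ne_zero h1 (hf a)) h5 h3
            omega

end TyL

theorem ty (hl : S_LIN) : S_TY := by
  intro c n K _ _ g w
  have : Nonempty (Fin g.F.q) := ⟨g.J0 0⟩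
  obtain ⟨y0, hy0⟩ := Finite.exists_min fun y => w.ord (g.l y)
  refine ⟨fun j => w.ord (g.x j), fun y => w.ord (g.l y) - w.ord (g.l y0), ⟨fun j => rfl,
    w.ord (g.l y0), fun y => by ring⟩, fun y => sub_nonneg.2 (hy0 y), ?_⟩
  by_contra hcard
  push Not at hcard
  obtain ⟨S, hS, hS'⟩ := Finset.exists_subset_card_eq (Nat.succ_le_of_lt hcard)
  let J : Fin (c + 1) → Fin g.F.q := fun i => S.orderEmbOfFin hS' i
  have hJ : Function.Injective J := (S.orderEmbOfFin hS').injective
  have hJm : ∀ i, w.ord (g.l y0) + 1 ≤ w.ord (g.l (J i)) := by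
    intro i
    have h1 := hS (S.orderEmbOfFin_mem hS' i)
    rw [Finset.mem_filter] at h1
    have h2 := hy0 (J i)
    have h3 : w.ord (g.l (J i)) - w.ord (g.l y0) ≠ 0 := h1.2
    omega
  obtain ⟨β, hβ, -⟩ := hl c n K g J hJ y0
  have h1 := TyL.ord_comb w β (fun i => g.l (J i)) (fun i => l_ne g _) _ hJm Finset.univ
  rw [← hβ] at h1
  rcases h1 with h1 | h1
  · exact l_ne g y0 h1
  · omega

end Pool.Agent.Helper58K9.AR
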