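import Pool.Agent.Helper58K9.AR.Acc
import Pool.Agent.Helper58K9.AR.Bdd
import Pool.Agent.Helper58K9.AR.Hor
import Pool.Agent.Helper58K9.AR.Prim
import Pool.Agent.Helper58K9.AR.Lim
import Pool.Agent.Helper58K9.AR.Rep
import Pool.Agent.Helper58K9.AR.Lin
import Pool.Agent.Helper58K9.AR.Ty
import Pool.Agent.Helper58K9.AR.Coord
import Pool.Agent.Helper58K9.AR.Detj
import Pool.Agent.Helper58K9.AR.Low
import Pool.Agent.Helper58K9.AR.Core
import Pool.Agent.Helper58K9.AR.Tcan
import Pool.Agent.Helper58K9.AR.Step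
import Pool.Agent.Helper58K9.AR.IntOver
import Pool.Agent.Helper58K9.AR.Onp

/-!
# General arrangement varieties: the ACC
-/

set_option autoImplicit false

namespace Pool.Agent.Helper58K9.AR

open Pool.Agent.TH165.ACC (IsDCC IsACC)

theorem arr_acc' (d : ℕ) (Γ : Set ℝ) (hΓ : IsDCC Γ) :
    IsACC {m | ∃ c n, 0 < c ∧ c + n = d ∧ m ∈ arrMlds c n Γ} :=
  arr_acc (step bdd hor) (ty lin) (low detj) (core lin (coord lin) detj tcan) overp int (onp hor) prim
    rep_min lim d Γ hΓ

end Pool.Agent.Helper58K9.AR
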