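import Pool.Agent.Helper58K9.AR.Stm

/-!
# General arrangement varieties: the leaf STEP
-/

set_option autoImplicit false

namespace Pool.Agent.Helper58K9.AR

open Pool.Agent.TH165.ACC (pr)

namespace StepL

variable {n q : ℕ}

theorem vl_sum {ι : Type} (T : Finset ι) (v : Fin n → ℤ) (s : Fin q → ℤ) (w : ι → Fin n → ℤ)
    (r : ι → Fin q → ℤ) (t : ℤ) (e : Fin q → ℤ) (m : Fin n → ℤ) (he : ∑ y, e y = 0) :
    vl (v + ∑ i ∈ T, w i) (s + ∑ i ∈ T, r i + fun _ => t) e m =
      vl v s e m + ∑ i ∈ T, vl (w i) (r i) e m := by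
  have h1 : ∑ y, t * e y = 0 := by rw [← Finset.mul_sum, he, mul_zero]
  simp only [vl, pr, Pi.add_apply, Finset.sum_apply, add_mul, mul_add, Finset.sum_add_distrib,
    Finset.sum_mul, Finset.mul_sum, h1]
  rw [Finset.sum_comm (s := Finset.univ) (t := T), Finset.sum_comm (s := Finset.univ) (t := T)]
  ring

theorem Psi_sum {ι : Type} (T : Finset ι) (u : Fin n → ℝ) (α : Fin q → ℝ) (v : Fin n → ℤ)
    (s : Fin q → ℤ) (w : ι → Fin n → ℤ) (r : ι → Fin q → ℤ) (t : ℤ) :
    Psi u α (v + ∑ i ∈ T, w i) (s + ∑ i ∈ T, r i + fun _ => t) =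
      Psi u α v s + ∑ i ∈ T, Psi u α (w i) (r i) + (∑ y, α y) * t := by
  simp only [Psi, Pi.add_apply, Finset.sum_apply, mul_add, Finset.sum_add_distrib,
    Finset.sum_mul, Finset.mul_sum, Int.cast_add, Int.cast_sum]
  rw [Finset.sum_comm (s := Finset.univ) (t := T), Finset.sum_comm (s := Finset.univ) (t := T)]
  ring

/-- the hyperplanes which are not in the support -/
def Z (s : Fin q → ℤ) : Finset (Fin q) := Finset.univ.filter fun y => s y = 0

theorem card_Z (s : Fin q → ℤ) :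
    (Finset.univ.filter fun y => s y ≠ 0).card + (Z s).card = q := by
  have h := Finset.card_filter_add_card_filter_not (s := (Finset.univ : Finset (Fin q)))
    (fun y => s y = 0)
  rw [Finset.card_univ, Fintype.card_fin] at h
  rw [add_comm]
  exact h

variable (F : Fan n) (D : Fin F.q → Fin F.N)

/-- one step -/
def st (p : (Fin n → ℤ) × (Fin F.q → ℤ)) : (Fin n → ℤ) × (Fin F.q → ℤ) :=
  (p.1 + ∑ y ∈ Z p.2, F.v (D y), p.2 + ∑ y ∈ Z p.2, F.sv (D y) + fun _ => -1)

variable {F D}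

theorem st_snd (hD : ∀ y, F.pt (D y) = y) (p : (Fin n → ℤ) × (Fin F.q → ℤ)) (y : Fin F.q) :
    (st F D p).2 y = if p.2 y = 0 then (F.mu (D y) : ℤ) - 1 else p.2 y - 1 := by
  have h : (∑ y' ∈ Z p.2, F.sv (D y')) y = if p.2 y = 0 then (F.mu (D y) : ℤ) else 0 := by
    rw [Finset.sum_apply]
    have h1 : ∀ y', F.sv (D y') y = if y' = y then (F.mu (D y) : ℤ) else 0 := by
      intro y'
      rw [Fan.sv, hD, Pi.single_apply]
      by_cases h : y = y'
      · subst h
        simp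
      · rw [if_neg h, if_neg (Ne.symm h)]
    simp only [h1]
    rw [Finset.sum_ite_eq']
    simp [Z]
  simp only [st, Pi.add_apply, h]
  split_ifs with h0
  · rw [h0]; ring
  · ring

theorem st_nonneg (hD : ∀ y, F.pt (D y) = y) (hD' : ∀ y, 0 < F.mu (D y))
    (p : (Fin n → ℤ) × (Fin F.q → ℤ)) (h : ∀ y, 0 ≤ p.2 y) (y : Fin F.q) :
    0 ≤ (st F D p).2 y := by
  rw [st_snd hD]
  have h1 := h y
  have h2 := hD' y
  split_ifs with h0 <;> omega

theorem st_le (hD : ∀ y, F.pt (D y) = y) (C : ℤ) (hC : ∀ y, (F.mu (D y) : ℤ) ≤ C)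
    (p : (Fin n → ℤ) × (Fin F.q → ℤ)) (h : ∀ y, p.2 y ≤ C) (y : Fin F.q) :
    (st F D p).2 y ≤ C := by
  rw [st_snd hD]
  have h1 := h y
  have h2 := hC y
  split_ifs with h0 <;> omega

theorem st_vl (p : (Fin n → ℤ) × (Fin F.q → ℤ)) (e : Fin F.q → ℤ) (m : Fin n → ℤ)
    (he : ∑ y, e y = 0) : vl (st F D p).1 (st F D p).2 e m =
      vl p.1 p.2 e m + ∑ y ∈ Z p.2, F.val (D y) e m := by
  simp only [st]
  rw [vl_sum _ _ _ _ _ _ _ _ he]
  simp only [val_eq]

theorem st_int (p : (Fin n → ℤ) × (Fin F.q → ℤ)) (h : F.Int p.1 p.2) :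
    F.Int (st F D p).1 (st F D p).2 := by
  intro e m hem h0
  rw [st_vl p e m hem.1]
  have := Finset.sum_nonneg (s := Z p.2) (f := fun y => F.val (D y) e m)
    (fun y _ => hem.2 _)
  have h1 := h e m hem h0
  omega

theorem st_Psi {c : ℕ} {u : Fin n → ℝ} {α : Fin F.q → ℝ} (hα : ∑ y, (1 - α y) = c + 1)
    (hd : ∀ i, Psi u α (F.v i) (F.sv i) ≤ 1) (p : (Fin n → ℤ) × (Fin F.q → ℤ))
    (hc : c < (Finset.univ.filter fun y => p.2 y ≠ 0).card) :
    Psi u α (st F D p).1 (st F D p).2 ≤ Psi u α p.1 p.2 := by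
  simp only [st]
  rw [Psi_sum]
  have h1 : ∑ y ∈ Z p.2, Psi u α (F.v (D y)) (F.sv (D y)) ≤ (Z p.2).card := by
    calc _ ≤ ∑ _y ∈ Z p.2, (1 : ℝ) := Finset.sum_le_sum fun y _ => hd _
      _ = (Z p.2).card := by simp
  have h2 := card_Z p.2
  have h3 : ∑ y, α y = F.q - (c + 1) := by
    rw [Finset.sum_sub_distrib] at hα
    simp at hα
    linarith
  have h4 : ((Z p.2).card : ℝ) + (c + 1) ≤ F.q := by
    have : (Z p.2).card + (c + 1) ≤ F.q := by omega
    exact_mod_cast this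
  rw [h3]
  push_cast
  linarith

/-- the potential -/
def pot (C : ℤ) (e : Fin F.q → ℤ) (m : Fin n → ℤ) (p : (Fin n → ℤ) × (Fin F.q → ℤ)) : ℤ :=
  vl p.1 p.2 e m * (F.q * C + 1) - ∑ y, p.2 y

theorem st_pot (hD : ∀ y, F.pt (D y) = y) (C : ℤ)
    (hC : ∀ y, (F.mu (D y) : ℤ) ≤ C) (hC0 : 0 ≤ C) (hq : 0 < F.q) (e : Fin F.q → ℤ)
    (m : Fin n → ℤ) (he : ∑ y, e y = 0) (hpos : ∀ i, 0 < F.val i e m)
    (p : (Fin n → ℤ) × (Fin F.q → ℤ)) (h : ∀ y, 0 ≤ p.2 y) (h' : ∀ y, p.2 y ≤ C) :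
    pot C e m p + 1 ≤ pot C e m (st F D p) := by
  simp only [pot]
  rw [st_vl p e m he]
  have hqC : (0 : ℤ) ≤ F.q * C := by positivity
  by_cases hZ : Z p.2 = ∅
  · rw [hZ, Finset.sum_empty, add_zero]
    have h1 : ∑ y, (st F D p).2 y = ∑ y, p.2 y - F.q := by
      have h2 : ∀ y, (st F D p).2 y = p.2 y - 1 := by
        intro y
        rw [st_snd hD, if_neg]
        intro h3
        have : y ∈ Z p.2 := by simp [Z, h3]
        rw [hZ] at this
        simp at this
      simp only [h2, Finset.sum_sub_distrib]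
      simp
    rw [h1]
    have : (1 : ℤ) ≤ F.q := by exact_mod_cast hq
    linarith
  · have h1 : 1 ≤ ∑ y ∈ Z p.2, F.val (D y) e m := by
      obtain ⟨y, hy⟩ := Finset.nonempty_iff_ne_empty.2 hZ
      have := Finset.single_le_sum (f := fun y => F.val (D y) e m)
        (fun y _ => (hpos (D y)).le) hy
      have h2 := hpos (D y)
      omega
    have h2 : ∑ y, (st F D p).2 y ≤ F.q * C := by
      calc ∑ y, (st F D p).2 y ≤ ∑ _y : Fin F.q, C :=
            Finset.sum_le_sum fun y _ => st_le hD C hC p h' y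
        _ = F.q * C := by simp
    have h3 : 0 ≤ ∑ y, p.2 y := Finset.sum_nonneg fun y _ => h y
    nlinarith

end StepL

open StepL in
theorem step (hB : S_BDD) (hH : S_HOR) : S_STEP := by
  intro c n F u u' α α' hF hcq hα hα' hd hd' hε v s hint hs
  by_contra hcon
  push Not at hcon
  choose D hD hD' using hF.onto
  obtain ⟨e₀, m₀, he₀, hpos⟩ := hF.pointed
  have hmem₀ : F.Mem e₀ m₀ := ⟨he₀, fun i => (hpos i).le⟩
  obtain ⟨ε, hε0, hε⟩ := hε e₀ m₀ hmem₀
  obtain ⟨k, hk⟩ := hB n F hF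
  obtain ⟨v0, hv0⟩ := hH n F hF
  have hq : 0 < F.q := by omega
  obtain ⟨C, hC0, hC1, hC2⟩ : ∃ C : ℤ, 0 ≤ C ∧ (∀ y, (F.mu (D y) : ℤ) ≤ C) ∧ ∀ y, s y ≤ C := by
    refine ⟨∑ y, ((F.mu (D y) : ℤ) + s y), ?_, ?_, ?_⟩
    · exact Finset.sum_nonneg fun y _ => add_nonneg (by positivity) (hs y)
    · intro y
      have h1 := Finset.single_le_sum (f := fun y => (F.mu (D y) : ℤ) + s y)
        (fun y _ => add_nonneg (by positivity) (hs y)) (Finset.mem_univ y)
      have h2 := hs y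
      linarith
    · intro y
      have h1 := Finset.single_le_sum (f := fun y => (F.mu (D y) : ℤ) + s y)
        (fun y _ => add_nonneg (by positivity) (hs y)) (Finset.mem_univ y)
      have h2 : (0 : ℤ) ≤ F.mu (D y) := by positivity
      linarith
  set seq : ℕ → (Fin n → ℤ) × (Fin F.q → ℤ) := fun t => (st F D)^[t] (v, s) with hseq
  have hseq_succ : ∀ t, seq (t + 1) = st F D (seq t) := fun t =>
    Function.iterate_succ_apply' _ _ _
  have hinv : ∀ t : ℕ, F.Int (seq t).1 (seq t).2 ∧ (∀ y, 0 ≤ (seq t).2 y) ∧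
      (∀ y, (seq t).2 y ≤ C) ∧ Psi u α (seq t).1 (seq t).2 ≤ Psi u α v s ∧
      Psi u' α' (seq t).1 (seq t).2 ≤ Psi u' α' v s ∧
      pot C e₀ m₀ (v, s) + t ≤ pot C e₀ m₀ (seq t) := by
    intro t
    induction t with
    | zero => exact ⟨hint, hs, hC2, le_rfl, le_rfl, by simp [hseq]⟩
    | succ t ih =>
      obtain ⟨i1, i2, i3, i4, i5, i6⟩ := ih
      rw [hseq_succ]
      have hnt : c < (Finset.univ.filter fun y => (seq t).2 y ≠ 0).card := by
        by_contra hle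
        have h1 := hcon (seq t).1 (seq t).2 i1 ⟨i2, by omega⟩
        exact absurd i4 (not_le.2 h1)
      refine ⟨st_int _ i1, st_nonneg hD hD' _ i2, st_le hD C hC1 _ i3,
        (st_Psi hα hd _ hnt).trans i4, (st_Psi hα' hd' _ hnt).trans i5, ?_⟩
      have := st_pot hD C hC1 hC0 hq e₀ m₀ he₀ hpos (seq t) i2 i3
      push_cast
      linarith
  -- the upper bound
  set Kv : Fin n → ℤ := fun j => (k * C * F.q) * v0 j with hKv
  have hprK : ∀ m : Fin n → ℤ, pr m Kv = (k * C * F.q) * pr m v0 := by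
    intro m
    simp only [pr, hKv, Finset.mul_sum]
    exact Finset.sum_congr rfl fun _ _ => by ring
  have hbound : ∀ t : ℕ, ε * (vl (seq t).1 (seq t).2 e₀ m₀ : ℝ) ≤
      Psi u' α' v s + Psi u' α' Kv (fun _ => 0) + (∑ y, |α' y|) * C := by
    intro t
    obtain ⟨i1, i2, i3, i4, i5, i6⟩ := hinv t
    set V := (seq t).1 with hV
    set S := (seq t).2 with hS
    have hlow : ∀ e m, F.Mem e m → vl V S e m ≤ vl (V + Kv) (fun _ => 0) e m := by
      intro e m hem
      have hs0 : 0 ≤ ∑ i, F.val i e m := Finset.sum_nonneg fun i _ => hem.2 i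
      have h1 : ∑ y, S y * e y ≤ ∑ _y : Fin F.q, C * (k * ∑ i, F.val i e m) := by
        apply Finset.sum_le_sum
        intro y _
        have h2 := hk e m hem y
        have h3 : (0 : ℤ) ≤ k * ∑ i, F.val i e m := by positivity
        calc S y * e y ≤ S y * (k * ∑ i, F.val i e m) :=
              mul_le_mul_of_nonneg_left h2 (i2 y)
          _ ≤ C * (k * ∑ i, F.val i e m) := mul_le_mul_of_nonneg_right (i3 y) h3
      have h2 : ∑ _y : Fin F.q, C * (k * ∑ i, F.val i e m) =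
          (k * C * F.q) * ∑ i, F.val i e m := by
        rw [Finset.sum_const, Finset.card_univ, Fintype.card_fin, nsmul_eq_mul]
        ring
      have h3 : (k * C * F.q) * ∑ i, F.val i e m ≤ (k * C * F.q) * pr m v0 :=
        mul_le_mul_of_nonneg_left (hv0 e m hem) (by positivity)
      have h4 : pr m (V + Kv) = pr m V + pr m Kv := by
        simp only [pr, Pi.add_apply, mul_add, Finset.sum_add_distrib]
      simp only [vl, zero_mul, Finset.sum_const_zero, zero_add]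
      rw [h4, hprK]
      linarith
    have hint' : F.Int (V + Kv) (fun _ => 0) := by
      intro e m hem h0
      exact (i1 e m hem h0).trans_le (hlow e m hem)
    have htrop : Trop c (fun _ : Fin F.q => (0 : ℤ)) := ⟨fun _ => le_rfl, by simp⟩
    have h1 := hε (V + Kv) (fun _ => 0) hint' htrop
    have h2 : (vl V S e₀ m₀ : ℝ) ≤ (vl (V + Kv) (fun _ => 0) e₀ m₀ : ℝ) := by
      exact_mod_cast hlow e₀ m₀ hmem₀
    have h3 : Psi u' α' (V + Kv) (fun _ => 0) =
        Psi u' α' V S + Psi u' α' Kv (fun _ => 0) - ∑ y, α' y * (S y : ℝ) := by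
      simp only [Psi, Pi.add_apply, Int.cast_add, mul_add, Finset.sum_add_distrib, Int.cast_zero,
        mul_zero, Finset.sum_const_zero]
      ring
    have h4 : -(∑ y, α' y * (S y : ℝ)) ≤ (∑ y, |α' y|) * C := by
      rw [← Finset.sum_neg_distrib, Finset.sum_mul]
      apply Finset.sum_le_sum
      intro y _
      have h5 : (0 : ℝ) ≤ S y := by exact_mod_cast i2 y
      have h6 : (S y : ℝ) ≤ C := by exact_mod_cast i3 y
      calc -(α' y * (S y : ℝ)) = (-α' y) * S y := by ring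
        _ ≤ |α' y| * S y := mul_le_mul_of_nonneg_right (neg_le_abs _) h5
        _ ≤ |α' y| * C := mul_le_mul_of_nonneg_left h6 (abs_nonneg _)
    have h5 := mul_le_mul_of_nonneg_left h2 hε0.le
    linarith
  -- the contradiction
  set Bd : ℝ := Psi u' α' v s + Psi u' α' Kv (fun _ => 0) + (∑ y, |α' y|) * C with hBd
  have hqC : (0 : ℤ) ≤ F.q * C := by positivity
  have hqC' : (0 : ℝ) ≤ F.q * C := by exact_mod_cast hqC
  have hall : ∀ t : ℕ, (t : ℝ) ≤ (Bd / ε) * (F.q * C + 1) - pot C e₀ m₀ (v, s) := by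
    intro t
    obtain ⟨i1, i2, i3, i4, i5, i6⟩ := hinv t
    have h1 : (vl (seq t).1 (seq t).2 e₀ m₀ : ℝ) ≤ Bd / ε := by
      rw [le_div_iff₀ hε0, mul_comm]
      exact hbound t
    have h2 : pot C e₀ m₀ (seq t) ≤ vl (seq t).1 (seq t).2 e₀ m₀ * (F.q * C + 1) := by
      have : 0 ≤ ∑ y, (seq t).2 y := Finset.sum_nonneg fun y _ => i2 y
      simp only [pot]
      linarith
    have h3 : ((pot C e₀ m₀ (v, s) : ℤ) : ℝ) + t ≤
        (vl (seq t).1 (seq t).2 e₀ m₀ : ℝ) * (F.q * C + 1) := by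
      have := i6.trans h2
      exact_mod_cast this
    have h4 : (vl (seq t).1 (seq t).2 e₀ m₀ : ℝ) * (F.q * C + 1) ≤
        (Bd / ε) * (F.q * C + 1) := mul_le_mul_of_nonneg_right h1 (by linarith)
    linarith
  obtain ⟨t, ht⟩ := exists_nat_gt ((Bd / ε) * (F.q * C + 1) - pot C e₀ m₀ (v, s))
  exact absurd (hall t) (not_le.2 ht)

end Pool.Agent.Helper58K9.AR
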