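import Pool.Agent.Helper58K9.AR.Lsc
import Pool.Agent.Helper58K9.AR.Bdd
import Pool.Agent.Helper58K9.AR.Hor
import Pool.Agent.Helper58K9.AR.Prim
import Pool.Agent.Helper58K9.AR.Lin
import Pool.Agent.Helper58K9.AR.Ty
import Pool.Agent.Helper58K9.AR.Coord
import Pool.Agent.Helper58K9.AR.Detj
import Pool.Agent.Helper58K9.AR.Core
import Pool.Agent.Helper58K9.AR.Tcan
import Pool.Agent.Helper58K9.AR.Step
import Pool.Agent.Helper58K9.AR.IntOver
import Pool.Agent.Helper58K9.AR.Onp
import Pool.Agent.Helper58K9.AR.Lowx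
import Pool.Agent.Helper58K9.AR.Add

/-!
# General arrangement varieties: lower semicontinuity
-/

set_option autoImplicit false

namespace Pool.Agent.Helper58K9.AR

open Pool.Agent.H436R3.Fol Pool.Agent.H436R3.KT Pool.Agent.W497.Mld

theorem lsc' {c n : ℕ} {K : Type} [Field K] [Algebra ℂ K] (hc : 0 < c) {g : ArrGerm c n K}
    (hk : KltType g) {B : EffDiv g.X} {e : LocEq B g.P} {u : Fin n → ℝ} {η : Fin g.F.q → ℝ}
    (he : IsEq g e u η) {x : Pt g.X} {e' : LocEq B x} (he' : IsEq g e' u η) :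
    mld e ≤ mld e' :=
  lsc (step bdd hor) (ty lin) (lowx lin detj) add (core lin (coord lin) detj tcan) overp (onp hor) prim
    hc hk he he'

end Pool.Agent.Helper58K9.AR
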