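import Pool.Agent.Helper58K9.AR.Defs

/-!
# General arrangement varieties: basic facts
-/

set_option autoImplicit false

namespace Pool.Agent.Helper58K9.AR

open Pool.Agent.H436R3.Fol Pool.Agent.H436R3.KT Pool.Agent.W497.Mld MvPolynomial
open Pool.Agent.TH165.ACC (pr pr_add pr_zero pr_neg pr_sub pr_smul pr_smul_right)

variable {c n : ℕ} {K : Type} [Field K] [Algebra ℂ K]

section comb

variable {q : ℕ}

theorem vl_add (v v' : Fin n → ℤ) (s s' : Fin q → ℤ) (e : Fin q → ℤ) (m : Fin n → ℤ) :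
    vl (v + v') (s + s') e m = vl v s e m + vl v' s' e m := by
  simp only [vl, pr, Pi.add_apply, add_mul, mul_add, Finset.sum_add_distrib]
  ring

theorem vl_add' (v : Fin n → ℤ) (s : Fin q → ℤ) (e e' : Fin q → ℤ) (m m' : Fin n → ℤ) :
    vl v s (e + e') (m + m') = vl v s e m + vl v s e' m' := by
  simp only [vl, pr, Pi.add_apply, add_mul, mul_add, Finset.sum_add_distrib]
  ring

theorem vl_smul (k : ℤ) (v : Fin n → ℤ) (s : Fin q → ℤ) (e : Fin q → ℤ) (m : Fin n → ℤ) :
    vl (k • v) (k • s) e m = k * vl v s e m := by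
  simp only [vl, pr, Pi.smul_apply, smul_eq_mul, Finset.mul_sum, mul_add]
  congr 1
  · exact Finset.sum_congr rfl fun _ _ => by ring
  · exact Finset.sum_congr rfl fun _ _ => by ring

theorem vl_smul' (k : ℤ) (v : Fin n → ℤ) (s : Fin q → ℤ) (e : Fin q → ℤ) (m : Fin n → ℤ) :
    vl v s (k • e) (k • m) = k * vl v s e m := by
  simp only [vl, pr, Pi.smul_apply, smul_eq_mul, Finset.mul_sum, mul_add]
  congr 1
  · exact Finset.sum_congr rfl fun _ _ => by ring
  · exact Finset.sum_congr rfl fun _ _ => by ring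

theorem vl_zero' (v : Fin n → ℤ) (s : Fin q → ℤ) : vl v s 0 0 = 0 := by simp [vl, pr]

/-- a constant vector has the value zero -/
theorem vl_const (t : ℤ) {e : Fin q → ℤ} (m : Fin n → ℤ) (he : ∑ y, e y = 0) :
    vl (0 : Fin n → ℤ) (fun _ : Fin q => t) e m = 0 := by
  simp only [vl, pr, Pi.zero_apply, mul_zero, Finset.sum_const_zero, add_zero]
  rw [← Finset.mul_sum, he, mul_zero]

theorem val_eq (F : Fan n) (i : Fin F.N) (e : Fin F.q → ℤ) (m : Fin n → ℤ) :
    F.val i e m = vl (F.v i) (F.sv i) e m := by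
  simp [Fan.val, vl, Fan.sv, Pi.single_apply, ite_mul]

theorem Psi_add (u : Fin n → ℝ) (α : Fin q → ℝ) (v v' : Fin n → ℤ) (s s' : Fin q → ℤ) :
    Psi u α (v + v') (s + s') = Psi u α v s + Psi u α v' s' := by
  simp only [Psi, Pi.add_apply, Int.cast_add, mul_add, Finset.sum_add_distrib]
  ring

theorem Psi_smul (u : Fin n → ℝ) (α : Fin q → ℝ) (k : ℤ) (v : Fin n → ℤ) (s : Fin q → ℤ) :
    Psi u α (k • v) (k • s) = k * Psi u α v s := by
  simp only [Psi, Pi.smul_apply, smul_eq_mul, Int.cast_mul, mul_add, Finset.mul_sum]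
  congr 1
  · exact Finset.sum_congr rfl fun _ _ => by ring
  · exact Finset.sum_congr rfl fun _ _ => by ring

theorem Mem_add {F : Fan n} {e e' : Fin F.q → ℤ} {m m' : Fin n → ℤ} (h : F.Mem e m)
    (h' : F.Mem e' m') : F.Mem (e + e') (m + m') := by
  refine ⟨by simp [Finset.sum_add_distrib, h.1, h'.1], fun i => ?_⟩
  rw [val_eq, vl_add', ← val_eq, ← val_eq]
  exact add_nonneg (h.2 i) (h'.2 i)

theorem Mem_zero (F : Fan n) : F.Mem 0 0 := by
  refine ⟨by simp, fun i => ?_⟩
  rw [val_eq, vl_zero']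

end comb

section field

theorem lf_eq (g : ArrGerm c n K) (y : Fin g.F.q) :
    g.l y = algebraMap ℂ K (g.A y 0) + ∑ j : Fin c, algebraMap ℂ K (g.A y j.succ) * g.z j := by
  rw [ArrGerm.l, lf, Fin.sum_univ_succ]
  simp

/-- the polynomial of the `y`-th hyperplane -/
noncomputable def lp (g : ArrGerm c n K) (y : Fin g.F.q) : MvPolynomial (Fin (c + n)) ℂ :=
  C (g.A y 0) + ∑ j : Fin c, C (g.A y j.succ) * X (Fin.castAdd n j)

theorem aeval_lp (g : ArrGerm c n K) (y : Fin g.F.q) :
    aeval (Fin.append g.z g.x) (lp g y) = g.l y := by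
  rw [lf_eq, lp]
  simp [map_sum]

theorem J0_inj (g : ArrGerm c n K) : Function.Injective g.J0 := by
  intro i j h
  have h1 := g.hJ0 i
  rw [h, g.hJ0 j] at h1
  by_contra hij
  have h2 := congrFun h1 i
  simp [Pi.single_apply, hij] at h2

theorem le_q (g : ArrGerm c n K) : c + 1 ≤ g.F.q := by
  have := Fintype.card_le_of_injective g.J0 (J0_inj g)
  simpa using this

/-- every hyperplane is one of `c + 1` different ones -/
theorem exists_J (g : ArrGerm c n K) (y : Fin g.F.q) :
    ∃ J : Fin (c + 1) → Fin g.F.q, Function.Injective J ∧ J 0 = y := by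
  by_cases h : y ∈ Set.range g.J0
  · obtain ⟨i, hi⟩ := h
    refine ⟨g.J0 ∘ Equiv.swap 0 i, (J0_inj g).comp (Equiv.injective _), ?_⟩
    simp [hi]
  · refine ⟨Function.update g.J0 0 y, ?_, by simp⟩
    intro a b hab
    by_cases ha : a = 0
    · by_cases hb : b = 0
      · rw [ha, hb]
      · exfalso
        rw [ha, Function.update_self, Function.update_of_ne hb] at hab
        exact h ⟨b, hab.symm⟩
    · by_cases hb : b = 0
      · exfalso
        rw [hb, Function.update_self, Function.update_of_ne ha] at hab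
        exact h ⟨a, hab⟩
      · rw [Function.update_of_ne ha, Function.update_of_ne hb] at hab
        exact J0_inj g hab

theorem A_ne (g : ArrGerm c n K) (y : Fin g.F.q) : g.A y ≠ 0 := by
  obtain ⟨J, hJ, hy⟩ := exists_J g y
  intro h
  apply g.gen J hJ
  apply Matrix.det_eq_zero_of_row_eq_zero 0
  intro j
  rw [Matrix.of_apply, hy, h]
  rfl

theorem lp_ne (g : ArrGerm c n K) (y : Fin g.F.q) : lp g y ≠ 0 := by
  intro h
  apply A_ne g y
  have h0 : ∀ s : Fin (c + n) →₀ ℕ, (lp g y).coeff s = 0 := fun s => by rw [h, coeff_zero]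
  have hX : ∀ (j : Fin c) (s : Fin (c + n) →₀ ℕ),
      (C (g.A y j.succ) * X (Fin.castAdd n j) : MvPolynomial (Fin (c + n)) ℂ).coeff s =
        if Finsupp.single (Fin.castAdd n j) 1 = s then g.A y j.succ else 0 := by
    intro j s
    rw [coeff_C_mul, coeff_X']
    split_ifs <;> simp
  funext i
  refine Fin.cases ?_ (fun j => ?_) i
  · have h1 := h0 0
    rw [lp, coeff_add, coeff_sum, coeff_C, if_pos rfl, Finset.sum_eq_zero, add_zero] at h1
    · exact h1
    · intro j _
      rw [hX, if_neg]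
      intro h2
      have := DFunLike.congr_fun h2 (Fin.castAdd n j)
      simp at this
  · have h1 := h0 (Finsupp.single (Fin.castAdd n j) 1)
    rw [lp, coeff_add, coeff_sum, coeff_C, if_neg, zero_add, Finset.sum_eq_single j] at h1
    · rw [hX, if_pos rfl] at h1
      exact h1
    · intro b _ hb
      rw [hX, if_neg]
      intro h2
      have h3 := (Finsupp.single_left_inj (one_ne_zero)).1 h2
      exact hb (Fin.castAdd_injective c n h3)
    · intro h2
      exact absurd (Finset.mem_univ _) h2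
    · intro h2
      have := DFunLike.congr_fun h2 (Fin.castAdd n j)
      simp at this

theorem l_ne (g : ArrGerm c n K) (y : Fin g.F.q) : g.l y ≠ 0 := by
  rw [← aeval_lp]
  intro h
  exact lp_ne g y (g.free _ h)

theorem co_ne (g : ArrGerm c n K) (k : Fin (c + n)) : Fin.append g.z g.x k ≠ 0 := by
  intro h
  have := g.free (X k) (by rw [aeval_X, h])
  exact X_ne_zero k this

theorem x_ne (g : ArrGerm c n K) (j : Fin n) : g.x j ≠ 0 := by
  have := co_ne g (Fin.natAdd c j)
  rwa [Fin.append_right] at this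

theorem z_ne (g : ArrGerm c n K) (j : Fin c) : g.z j ≠ 0 := by
  have := co_ne g (Fin.castAdd n j)
  rwa [Fin.append_left] at this

theorem ch_ne (g : ArrGerm c n K) (e : Fin g.F.q → ℤ) (m : Fin n → ℤ) : ch g.l g.x e m ≠ 0 :=
  mul_ne_zero (Finset.prod_ne_zero_iff.2 fun y _ => zpow_ne_zero _ (l_ne g y))
    (Finset.prod_ne_zero_iff.2 fun j _ => zpow_ne_zero _ (x_ne g j))

theorem ch_add (g : ArrGerm c n K) (e e' : Fin g.F.q → ℤ) (m m' : Fin n → ℤ) :
    ch g.l g.x (e + e') (m + m') = ch g.l g.x e m * ch g.l g.x e' m' := by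
  simp only [ch, Pi.add_apply]
  rw [Finset.prod_congr rfl fun y _ => zpow_add₀ (l_ne g y) (e y) (e' y),
    Finset.prod_congr rfl fun j _ => zpow_add₀ (x_ne g j) (m j) (m' j),
    Finset.prod_mul_distrib, Finset.prod_mul_distrib]
  ring

theorem ch_zero (g : ArrGerm c n K) : ch g.l g.x 0 0 = 1 := by simp [ch]

/-- the order of a product of powers -/
theorem ord_prod_zpow (w : DVal K) {ι : Type} (T : Finset ι) (f : ι → K) (hf : ∀ i, f i ≠ 0)
    (k : ι → ℤ) : w.ord (∏ i ∈ T, f i ^ k i) = ∑ i ∈ T, k i * w.ord (f i) := by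
  rw [w.ord_prod _ _ fun i _ => zpow_ne_zero _ (hf i)]
  exact Finset.sum_congr rfl fun i _ => w.ord_zpow (hf i) (k i)

theorem ord_ch {g : ArrGerm c n K} {w : DVal K} {v : Fin n → ℤ} {s : Fin g.F.q → ℤ}
    (h : IsTy g w v s) {e : Fin g.F.q → ℤ} (m : Fin n → ℤ) (he : ∑ y, e y = 0) :
    w.ord (ch g.l g.x e m) = vl v s e m := by
  obtain ⟨h1, t, h2⟩ := h
  rw [ch, w.map_mul _ _ (Finset.prod_ne_zero_iff.2 fun y _ => zpow_ne_zero _ (l_ne g y))
    (Finset.prod_ne_zero_iff.2 fun j _ => zpow_ne_zero _ (x_ne g j)),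
    ord_prod_zpow w _ _ (l_ne g), ord_prod_zpow w _ _ (x_ne g), vl]
  congr 1
  · rw [Finset.sum_congr rfl fun y _ => by rw [h2 y, mul_add], Finset.sum_add_distrib,
      ← Finset.sum_mul, he, zero_mul, zero_add]
    exact Finset.sum_congr rfl fun y _ => mul_comm _ _
  · simp only [pr]
    exact Finset.sum_congr rfl fun j _ => by rw [h1]

/-- the regular characters of non-zero exponent -/
def chs (g : ArrGerm c n K) : Set K :=
  {f | ∃ e m, g.F.Mem e m ∧ (e ≠ 0 ∨ m ≠ 0) ∧ f = ch g.l g.x e m}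

theorem ch_mem (g : ArrGerm c n K) {e : Fin g.F.q → ℤ} {m : Fin n → ℤ} (h : g.F.Mem e m) :
    ch g.l g.x e m ∈ g.X.R := by
  rw [g.hR]
  exact Algebra.subset_adjoin ⟨e, m, h, rfl⟩

theorem span_R (g : ArrGerm c n K) : Subalgebra.toSubmodule g.X.R =
    Submodule.span ℂ {f | ∃ e m, g.F.Mem e m ∧ f = ch g.l g.x e m} := by
  rw [g.hR, Algebra.adjoin_eq_span]
  congr 1
  apply subset_antisymm _ Submonoid.subset_closure
  intro f hf
  induction hf using Submonoid.closure_induction with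
  | mem x hx => exact hx
  | one => exact ⟨0, 0, Mem_zero _, (ch_zero g).symm⟩
  | mul x y _ _ hx hy =>
    obtain ⟨e, m, h, rfl⟩ := hx
    obtain ⟨e', m', h', rfl⟩ := hy
    exact ⟨e + e', m + m', Mem_add h h', (ch_add g _ _ _ _).symm⟩

/-- a regular function is its value at `P` plus a combination of characters of non-zero exponent -/
theorem rep (g : ArrGerm c n K) (f : g.X.R) :
    (f : K) - algebraMap ℂ K (g.P f) ∈ Submodule.span ℂ (chs g) := by
  have key : ∀ x : K, x ∈ Submodule.span ℂ {f | ∃ e m, g.F.Mem e m ∧ f = ch g.l g.x e m} →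
      ∀ hx : x ∈ g.X.R, x - algebraMap ℂ K (g.P ⟨x, hx⟩) ∈ Submodule.span ℂ (chs g) := by
    have hmem : ∀ y, y ∈ Submodule.span ℂ {f | ∃ e m, g.F.Mem e m ∧ f = ch g.l g.x e m} →
        y ∈ g.X.R := by
      intro y hy
      rw [← span_R] at hy
      exact hy
    intro x hx
    induction hx using Submodule.span_induction with
    | mem x hx =>
      intro hx'
      obtain ⟨e, m, h, rfl⟩ := hx
      by_cases h0 : e ≠ 0 ∨ m ≠ 0
      · rw [g.hP _ e m h h0 rfl, map_zero, sub_zero]
        exact Submodule.subset_span ⟨e, m, h, h0, rfl⟩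
      · push Not at h0
        have h1 : (⟨ch g.l g.x e m, hx'⟩ : g.X.R) = 1 := by
          apply Subtype.ext
          change ch g.l g.x e m = 1
          rw [h0.1, h0.2, ch_zero]
        rw [h1, map_one, map_one, h0.1, h0.2, ch_zero, sub_self]
        exact zero_mem _
    | zero =>
      intro hx'
      have h1 : (⟨0, hx'⟩ : g.X.R) = 0 := rfl
      rw [h1, map_zero, map_zero, sub_self]
      exact zero_mem _
    | add x y hx hy ihx ihy =>
      intro hx'
      have h1 : (⟨x + y, hx'⟩ : g.X.R) = ⟨x, hmem x hx⟩ + ⟨y, hmem y hy⟩ := rfl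
      rw [h1, map_add, map_add, add_sub_add_comm]
      exact add_mem (ihx _) (ihy _)
    | smul a x hx ih =>
      intro hx'
      have h1 : (⟨a • x, hx'⟩ : g.X.R) = a • ⟨x, hmem x hx⟩ := rfl
      rw [h1, map_smul, smul_eq_mul, map_mul, Algebra.smul_def, ← mul_sub, ← Algebra.smul_def]
      exact Submodule.smul_mem _ _ (ih _)
  have h1 : (f : K) ∈ Submodule.span ℂ {f | ∃ e m, g.F.Mem e m ∧ f = ch g.l g.x e m} := by
    rw [← span_R]
    exact f.2
  exact key f h1 f.2

end field

end Pool.Agent.Helper58K9.AR
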