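import Mathlib
import Pool.Agent.TH165.ACC.NFin

/-!
# General arrangement varieties: definitions
-/

set_option autoImplicit false

namespace Pool.Agent.Helper58K9.AR

open Pool.Agent.H436R3.Fol Pool.Agent.H436R3.KT Pool.Agent.W497.Mld MvPolynomial
open Pool.Agent.TH165.ACC (pr)

/-- The invariant prime divisors of a variety with an action of a torus of rank `n` and the quotient
`ℙ^c`: there are `q` hyperplanes in `ℙ^c`, and `N` invariant prime divisors. The order along the
`i`-th divisor of a rational function on `ℙ^c` is `mu i` times its order along the hyperplane `pt i`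
(the divisor is mapped onto `ℙ^c` if `mu i = 0`), and `v i` are the orders of the coordinates of the
torus. -/
structure Fan (n : ℕ) where
  q : ℕ
  N : ℕ
  pt : Fin N → Fin q
  mu : Fin N → ℕ
  v : Fin N → Fin n → ℤ

variable {c n : ℕ}

/-- The value of the vector `(v, s)` at `(e, m)`. -/
def vl {q : ℕ} (v : Fin n → ℤ) (s : Fin q → ℤ) (e : Fin q → ℤ) (m : Fin n → ℤ) : ℤ :=
  ∑ y, s y * e y + pr m v

/-- The order of the character `(e, m)` along the `i`-th divisor. -/
def Fan.val (F : Fan n) (i : Fin F.N) (e : Fin F.q → ℤ) (m : Fin n → ℤ) : ℤ :=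
  F.mu i * e (F.pt i) + pr m (F.v i)

/-- The character `(e, m)` is regular: it has degree `0`, and its order along all invariant prime
divisors is not negative. -/
def Fan.Mem (F : Fan n) (e : Fin F.q → ℤ) (m : Fin n → ℤ) : Prop :=
  ∑ y, e y = 0 ∧ ∀ i, 0 ≤ F.val i e m

/-- The vectors of the `N` divisors are the primitive generators of the edges of a strictly convex
cone of full dimension (in the dual of the group of the characters `(e, m)` of degree `0`), and
there is a divisor over every hyperplane. -/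
structure Fan.IsCone (F : Fan n) : Prop where
  prim : ∀ i, ∃ e m, ∑ y, e y = 0 ∧ F.val i e m = 1
  edge : ∀ i, ∃ e m, ∑ y, e y = 0 ∧ F.val i e m = 0 ∧ ∀ j, j ≠ i → 0 < F.val j e m
  onto : ∀ y, ∃ i, F.pt i = y ∧ 0 < F.mu i
  pointed : ∃ e m, ∑ y, e y = 0 ∧ ∀ i, 0 < F.val i e m
  full : ∀ e m, ∑ y, e y = 0 → (∀ i, F.val i e m = 0) → e = 0 ∧ m = 0

section

variable {K : Type} [Field K] [Algebra ℂ K]

/-- The linear forms with the coefficients `A y`, evaluated at the point `(1, z_1, ..., z_c)`. -/
noncomputable def lf {q : ℕ} (A : Fin q → Fin (c + 1) → ℂ) (z : Fin c → K) (y : Fin q) : K :=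
  ∑ j, algebraMap ℂ K (A y j) * (Fin.cons 1 z : Fin (c + 1) → K) j

/-- The character `(e, m)`: a monomial in the linear forms and the coordinates of the torus. -/
noncomputable def ch {q : ℕ} (l : Fin q → K) (x : Fin n → K) (e : Fin q → ℤ) (m : Fin n → ℤ) : K :=
  (∏ y, l y ^ e y) * ∏ j, x j ^ m j

end

/-- A general arrangement variety `X` of dimension `c + n` with a torus action of complexity `c`
and an attractive fixed point `P`. The function field is `K = ℂ (z_1, ..., z_c, x_1, ..., x_n)`: the
`x_j` are the coordinates of the torus, and the `z_j` are the affine coordinates of the quotient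
`ℙ^c`. There are `q` hyperplanes in general position in `ℙ^c`, with the equations `l_y`; the
coordinate hyperplanes are among them. The coordinate ring of `X` is spanned by the characters
(monomials of degree `0` in the `l_y`, times monomials in the `x_j`) which are regular along the
invariant prime divisors given by `F`. So `X` is a closed subvariety of the affine toric variety of
the cone given by `F`, cut out by the linear relations of the `l_y`. The canonical divisor is the one
of the form `dz_1 / z_1 ∧ ... ∧ dz_c / z_c ∧ dx_1 / x_1 ∧ ... ∧ dx_n / x_n`. -/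
structure ArrGerm (c n : ℕ) (K : Type) [Field K] [Algebra ℂ K] where
  F : Fan n
  cone : F.IsCone
  /-- the coefficients of the equations of the hyperplanes -/
  A : Fin F.q → Fin (c + 1) → ℂ
  /-- the hyperplanes are in general position -/
  gen : ∀ J : Fin (c + 1) → Fin F.q, Function.Injective J →
    (Matrix.of fun i j => A (J i) j).det ≠ 0
  /-- the coordinate hyperplanes -/
  J0 : Fin (c + 1) → Fin F.q
  hJ0 : ∀ i, A (J0 i) = Pi.single i 1
  z : Fin c → K
  x : Fin n → K
  /-- `z, x` are algebraically independent -/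
  free : ∀ p : MvPolynomial (Fin (c + n)) ℂ, aeval (Fin.append z x) p = 0 → p = 0
  /-- `K` is generated by `z, x` -/
  frac : ∀ f : K, ∃ a b : MvPolynomial (Fin (c + n)) ℂ, aeval (Fin.append z x) b ≠ 0 ∧
    f * aeval (Fin.append z x) b = aeval (Fin.append z x) a
  X : AffVar K
  hR : X.R = Algebra.adjoin ℂ {f | ∃ e m, F.Mem e m ∧ f = ch (lf A z) x e m}
  /-- the canonical divisor -/
  e : Fin X.d ≃ Fin (c + n)
  hT : ∀ i k, X.T.D i (Fin.append z x k) = if e i = k then Fin.append z x k else 0
  P : Pt X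
  /-- `P` is the attractive fixed point -/
  hP : ∀ (f : X.R) e m, F.Mem e m → (e ≠ 0 ∨ m ≠ 0) → (f : K) = ch (lf A z) x e m → P f = 0

variable {K : Type} [Field K] [Algebra ℂ K]

/-- the equations of the hyperplanes -/
noncomputable def ArrGerm.l (g : ArrGerm c n K) : Fin g.F.q → K := lf g.A g.z

/-- The invariant divisor `K_X + B` has a local equation which is a character with the real
exponents `(-η, -u)`, at the closed point `Q` (and then everywhere). -/
def IsEq (g : ArrGerm c n K) {B : EffDiv g.X} {Q : Pt g.X} (e : LocEq B Q) (u : Fin n → ℝ)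
    (η : Fin g.F.q → ℝ) : Prop :=
  ∑ y, η y = 0 ∧ ∀ w : DVal K, ∑ k, e.ρ k * (w.ord (e.g k) : ℝ) =
    -(∑ j, u j * (w.ord (g.x j) : ℝ) + ∑ y, η y * (w.ord (g.l y) : ℝ))

/-- `X` is of klt type: for some invariant `B ≥ 0` the pair `(X, B)` is klt at `P`: for every
regular function `f ≠ 0` there is an `ε > 0` such that `(X, B + ε div (f))` is log canonical
at `P`. -/
def KltType (g : ArrGerm c n K) : Prop :=
  ∃ (B : EffDiv g.X) (e : LocEq B g.P) (u : Fin n → ℝ) (η : Fin g.F.q → ℝ), IsEq g e u η ∧
    ∀ f ∈ g.X.R, f ≠ 0 → ∃ ε : ℝ, 0 < ε ∧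
      ∀ w a, IsOverGerm g.P w → IsLogDisc e w a → ε * (w.ord f : ℝ) ≤ a

/-- The minimal log discrepancies `m ≥ 0` of the pairs `(X ∋ P, B)`: `X` is a general arrangement
variety of dimension `c + n` with a torus action of complexity `c` and the attractive fixed point
`P`, of klt type, and `B ≥ 0` is invariant with coefficients in `Γ`. -/
def arrMlds (c n : ℕ) (Γ : Set ℝ) : Set ℝ :=
  {m : ℝ | 0 ≤ m ∧ ∃ (K : Type) (_ : Field K) (_ : Algebra ℂ K) (g : ArrGerm c n K)
    (B : EffDiv g.X) (e : LocEq B g.P) (u : Fin n → ℝ) (η : Fin g.F.q → ℝ), IsEq g e u η ∧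
      KltType g ∧ CoeffIn B Γ ∧ Pool.Agent.W497.Mld.IsMld e m}

/-! ### Auxiliary definitions -/

/-- the `i`-th divisor as a vector -/
def Fan.sv (F : Fan n) (i : Fin F.N) : Fin F.q → ℤ := Pi.single (F.pt i) (F.mu i : ℤ)

/-- interior vectors -/
def Fan.Int (F : Fan n) (v : Fin n → ℤ) (s : Fin F.q → ℤ) : Prop :=
  ∀ e m, F.Mem e m → (e ≠ 0 ∨ m ≠ 0) → 0 < vl v s e m

/-- tropical vectors -/
def Trop (c : ℕ) {q : ℕ} (s : Fin q → ℤ) : Prop :=
  (∀ y, 0 ≤ s y) ∧ (Finset.univ.filter fun y => s y ≠ 0).card ≤ c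

/-- the log discrepancy function -/
def Psi {q : ℕ} (u : Fin n → ℝ) (α : Fin q → ℝ) (v : Fin n → ℤ) (s : Fin q → ℤ) : ℝ :=
  ∑ j, u j * (v j : ℝ) + ∑ y, α y * (s y : ℝ)

/-- `v, s` are the orders of `x` and (up to a constant) of `l` -/
def IsTy (g : ArrGerm c n K) (w : DVal K) (v : Fin n → ℤ) (s : Fin g.F.q → ℤ) : Prop :=
  (∀ j, w.ord (g.x j) = v j) ∧ ∃ t : ℤ, ∀ y, w.ord (g.l y) = t + s y

open Classical in
/-- the contribution of the canonical form -/
noncomputable def kap (g : ArrGerm c n K) (y : Fin g.F.q) : ℤ :=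
  if y ∈ Set.range g.J0 then 0 else 1

/-- torus coordinates: the ratios `l_(J i) / l_(J 0)`, `i ≥ 1`, and `x` -/
noncomputable def coJ (g : ArrGerm c n K) (J : Fin (c + 1) → Fin g.F.q) : Fin (c + n) → K :=
  Fin.append (fun i => g.l (J i.succ) / g.l (J 0)) g.x

end Pool.Agent.Helper58K9.AR
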