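import Pool.Agent.Helper58K9.AR.Stm

/-!
# General arrangement varieties: reduction to combinatorics
-/

set_option autoImplicit false

namespace Pool.Agent.Helper58K9.AR

open Pool.Agent.H436R3.Fol Pool.Agent.H436R3.KT Pool.Agent.W497.Mld MvPolynomial
open Pool.Agent.TH165.ACC (pr)

variable {c n : ℕ} {K : Type} [Field K] [Algebra ℂ K]

theorem sum_kap (g : ArrGerm c n K) : ∑ y, (kap g y : ℝ) = g.F.q - (c + 1) := by
  classical
  have h1 : ∑ y, (1 - (kap g y : ℝ)) = c + 1 := by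
    have h2 : ∀ y, (1 - (kap g y : ℝ)) = if y ∈ Finset.univ.image g.J0 then 1 else 0 := by
      intro y
      simp only [kap, Finset.mem_image, Finset.mem_univ, true_and, Set.mem_range]
      split_ifs <;> simp
    rw [Finset.sum_congr rfl fun y _ => h2 y, Finset.sum_ite_mem, Finset.univ_inter,
      Finset.sum_const, Finset.card_image_of_injective _ (J0_inj g)]
    simp
  rw [Finset.sum_sub_distrib] at h1
  simp at h1
  linarith

theorem mult_nonneg {X : AffVar K} (B : EffDiv X) (v : DVal K) : 0 ≤ B.mult v := by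
  classical
  unfold EffDiv.mult
  refine Finset.sum_nonneg fun i _ => ?_
  split_ifs
  · exact B.nonneg i
  · exact le_rfl

theorem can_unique {r : ℕ} {F : Foliation K r} {v : DVal K} {m n : ℤ} (hm : IsCanOrd F v m)
    (hn : IsCanOrd F v n) : m = n := IsLeast.unique hm hn

/-- the function `α` -/
noncomputable def alp (g : ArrGerm c n K) (η : Fin g.F.q → ℝ) (y : Fin g.F.q) : ℝ :=
  η y + kap g y

theorem sum_alp {g : ArrGerm c n K} {η : Fin g.F.q → ℝ} (h : ∑ y, η y = 0) :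
    ∑ y, (1 - alp g η y) = c + 1 := by
  simp only [alp]
  rw [Finset.sum_sub_distrib, Finset.sum_add_distrib, h, sum_kap]
  simp

theorem rho_eq {g : ArrGerm c n K} {B : EffDiv g.X} {Q : Pt g.X} {e : LocEq B Q} {u : Fin n → ℝ}
    {η : Fin g.F.q → ℝ} (he : IsEq g e u η) {w : DVal K} {v : Fin n → ℤ} {s : Fin g.F.q → ℤ}
    (h : IsTy g w v s) : ∑ k, e.ρ k * (w.ord (e.g k) : ℝ) =
      -(∑ j, u j * (v j : ℝ) + ∑ y, η y * (s y : ℝ)) := by
  obtain ⟨h1, t, h2⟩ := h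
  rw [he.2 w]
  congr 2
  · exact Finset.sum_congr rfl fun j _ => by rw [h1]
  · have h3 : ∀ y, η y * (w.ord (g.l y) : ℝ) = η y * t + η y * s y := by
      intro y
      rw [h2]
      push_cast
      ring
    rw [Finset.sum_congr rfl fun y _ => h3 y, Finset.sum_add_distrib, ← Finset.sum_mul, he.1,
      zero_mul, zero_add]

theorem psi_alp {g : ArrGerm c n K} (u : Fin n → ℝ) (η : Fin g.F.q → ℝ) (v : Fin n → ℤ)
    (s : Fin g.F.q → ℤ) : Psi u (alp g η) v s =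
      ∑ j, u j * (v j : ℝ) + ∑ y, η y * (s y : ℝ) + ((∑ y, kap g y * s y : ℤ) : ℝ) := by
  simp only [Psi, alp, add_mul, Finset.sum_add_distrib]
  push_cast
  ring

/-- the log discrepancy -/
theorem ld_eq {g : ArrGerm c n K} {B : EffDiv g.X} {Q : Pt g.X} {e : LocEq B Q} {u : Fin n → ℝ}
    {η : Fin g.F.q → ℝ} (he : IsEq g e u η) {w : DVal K} {v : Fin n → ℤ} {s : Fin g.F.q → ℤ}
    (h : IsTy g w v s) {k : ℤ} (hk : IsCanOrd g.X.T w k) {a : ℝ} (ha : IsLogDisc e w a) :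
    a = 1 + k - ((∑ y, kap g y * s y : ℤ) : ℝ) + Psi u (alp g η) v s := by
  obtain ⟨k', hk', rfl⟩ := ha
  rw [can_unique hk' hk, rho_eq he h, psi_alp]
  ring

theorem ld_of {g : ArrGerm c n K} {B : EffDiv g.X} {Q : Pt g.X} {e : LocEq B Q} {u : Fin n → ℝ}
    {η : Fin g.F.q → ℝ} (he : IsEq g e u η) {w : DVal K} {v : Fin n → ℤ} {s : Fin g.F.q → ℤ}
    (h : IsTy g w v s) (hk : IsCanOrd g.X.T w (∑ y, kap g y * s y - 1)) :
    IsLogDisc e w (Psi u (alp g η) v s) := by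
  refine ⟨_, hk, ?_⟩
  rw [rho_eq he h, psi_alp]
  push_cast
  ring

theorem trop_sv (hc : 0 < c) (F : Fan n) (i : Fin F.N) : Trop c (F.sv i) := by
  classical
  refine ⟨fun y => ?_, ?_⟩
  · simp only [Fan.sv, Pi.single_apply]
    split_ifs
    · exact Int.natCast_nonneg _
    · exact le_rfl
  · refine (Finset.card_le_card (t := {F.pt i}) fun y hy => ?_).trans
      (by rw [Finset.card_singleton]; exact hc)
    rw [Finset.mem_filter] at hy
    rw [Finset.mem_singleton]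
    by_contra h
    exact hy.2 (by simp [Fan.sv, h])

/-- the values at the edges -/
theorem ray_val (hcore : S_CORE) (honp : S_ONP) (hc : 0 < c) {g : ArrGerm c n K}
    {B : EffDiv g.X} {e : LocEq B g.P} {u : Fin n → ℝ} {η : Fin g.F.q → ℝ} (he : IsEq g e u η)
    (i : Fin g.F.N) : ∃ w : DVal K, OnAt g.P w ∧
      Psi u (alp g η) (g.F.v i) (g.F.sv i) = 1 - B.mult w := by
  obtain ⟨e1, m1, h1, h2⟩ := g.cone.prim i
  rw [val_eq] at h2
  obtain ⟨w, S, -, hS2, hS3, hty, hcan⟩ := hcore c n K g (g.F.v i) (g.F.sv i)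
    (trop_sv hc g.F i) ⟨e1, m1, h1, h2⟩
  have hon := honp c n K g i w S hty hS3 hS2
  refine ⟨w, hon, ?_⟩
  obtain ⟨a, ha, ha'⟩ := e.eq w hon
  rw [can_unique ha hcan, rho_eq he hty] at ha'
  rw [psi_alp]
  push_cast at ha' ⊢
  linarith

/-- interior vectors are not zero -/
theorem int_ne {g : ArrGerm c n K} {v : Fin n → ℤ} {s : Fin g.F.q → ℤ} (h : g.F.Int v s) :
    (∃ e m, ∑ y, e y = 0 ∧ vl v s e m ≠ 0) ∨ g.F.N = 0 := by
  obtain ⟨e, m, h1, h2⟩ := g.cone.pointed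
  by_cases hN : g.F.N = 0
  · exact Or.inr hN
  · left
    refine ⟨e, m, h1, ?_⟩
    have h3 : g.F.Mem e m := ⟨h1, fun i => (h2 i).le⟩
    have h4 : e ≠ 0 ∨ m ≠ 0 := by
      by_contra hcon
      push Not at hcon
      have h5 := h2 ⟨0, Nat.pos_of_ne_zero hN⟩
      rw [hcon.1, hcon.2, val_eq, vl_zero'] at h5
      exact lt_irrefl _ h5
    exact (h e m h3 h4).ne'

theorem N_pos (g : ArrGerm c n K) : g.F.N ≠ 0 := by
  intro h
  obtain ⟨i, -⟩ := g.cone.onto (g.J0 0)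
  exact absurd i.2 (by omega)

/-- divisors over the germ of multiples -/
theorem exists_over (hcore : S_CORE) (hover : S_OVERP) (hprim : S_PRIM) {g : ArrGerm c n K}
    {v : Fin n → ℤ} {s : Fin g.F.q → ℤ} (hi : g.F.Int v s) (ht : Trop c s) :
    ∃ (k : ℕ) (v0 : Fin n → ℤ) (s0 : Fin g.F.q → ℤ) (w : DVal K), 0 < k ∧ v = (k : ℤ) • v0 ∧
      s = (k : ℤ) • s0 ∧ IsTy g w v0 s0 ∧ IsOverGerm g.P w ∧
      IsCanOrd g.X.T w (∑ y, kap g y * s0 y - 1) := by
  obtain ⟨k, v0, s0, hk, rfl, rfl, ht0, e1, m1, h1, h2⟩ := hprim c g.F.q n v s ht (le_q g)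
    ((int_ne hi).resolve_right (N_pos g))
  obtain ⟨w, S, hS1, hS2, hS3, hty, hcan⟩ := hcore c n K g v0 s0 ht0 ⟨e1, m1, h1, h2⟩
  have hi0 : g.F.Int v0 s0 := by
    intro e m hem h0
    have := hi e m hem h0
    rw [vl_smul] at this
    exact pos_of_mul_pos_right this (Int.natCast_nonneg _)
  exact ⟨k, v0, s0, w, hk, rfl, rfl, hty, hover c n K g v0 s0 w S hty hi0 hS1 hS2, hcan⟩

/-- from interior vectors to tropical interior vectors -/
theorem step_g (hstep : S_STEP) (hcore : S_CORE) (hover : S_OVERP) (honp : S_ONP)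
    (hprim : S_PRIM) (hc : 0 < c) {g : ArrGerm c n K} {B : EffDiv g.X} {e : LocEq B g.P}
    {u : Fin n → ℝ} {η : Fin g.F.q → ℝ} (he : IsEq g e u η) (hk : KltType g) :
    ∀ v s, g.F.Int v s → (∀ y, 0 ≤ s y) → ∃ v' s', g.F.Int v' s' ∧ Trop c s' ∧
      Psi u (alp g η) v' s' ≤ Psi u (alp g η) v s := by
  obtain ⟨B', e', u', η', he', hε⟩ := hk
  intro v s hi hs
  have hA : ∀ i, Psi u (alp g η) (g.F.v i) (g.F.sv i) ≤ 1 := by
    intro i
    obtain ⟨w, -, h⟩ := ray_val hcore honp hc he i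
    rw [h]
    linarith [mult_nonneg B w]
  have hA' : ∀ i, Psi u' (alp g η') (g.F.v i) (g.F.sv i) ≤ 1 := by
    intro i
    obtain ⟨w, -, h⟩ := ray_val hcore honp hc he' i
    rw [h]
    linarith [mult_nonneg B' w]
  have hE : ∀ e m, g.F.Mem e m → ∃ ε : ℝ, 0 < ε ∧ ∀ v s, g.F.Int v s → Trop c s →
      ε * (vl v s e m : ℝ) ≤ Psi u' (alp g η') v s := by
    intro e1 m1 hem
    obtain ⟨ε, hε0, h1⟩ := hε (ch g.l g.x e1 m1) (ch_mem g hem) (ch_ne g e1 m1)
    refine ⟨ε, hε0, fun v s hi ht => ?_⟩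
    obtain ⟨k, v0, s0, w, hk0, rfl, rfl, hty0, hov, hcan⟩ :=
      exists_over hcore hover hprim hi ht
    have h2 := h1 w _ hov (ld_of he' hty0 hcan)
    rw [ord_ch hty0 m1 hem.1] at h2
    rw [Psi_smul, vl_smul]
    push_cast
    have h3 : (0 : ℝ) ≤ k := Nat.cast_nonneg k
    nlinarith
  exact hstep c n g.F u u' (alp g η) (alp g η') g.cone (le_q g)
    (sum_alp he.1) (sum_alp he'.1) hA hA' hE v s hi hs

/-- combinatorial description of the minimal log discrepancy -/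
theorem formula (hstep : S_STEP) (hcore : S_CORE) (hover : S_OVERP)
    (honp : S_ONP) (hprim : S_PRIM) (hc : 0 < c) {g : ArrGerm c n K}
    {B : EffDiv g.X} {e : LocEq B g.P} {u : Fin n → ℝ} {η : Fin g.F.q → ℝ} (he : IsEq g e u η)
    (hk : KltType g) {m : ℝ} (hm0 : 0 ≤ m)
    (hm : ∀ w a, IsOverGerm g.P w → IsLogDisc e w a → m ≤ a) :
    ∀ v s, g.F.Int v s → (∀ y, 0 ≤ s y) → m ≤ Psi u (alp g η) v s := by
  intro v s hi hs
  obtain ⟨v', s', hi', ht', hle⟩ := step_g hstep hcore hover honp hprim hc he hk v s hi hs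
  refine le_trans ?_ hle
  obtain ⟨k, v0, s0, w, hk0, rfl, rfl, hty0, hov, hcan⟩ :=
    exists_over hcore hover hprim hi' ht'
  have h1 := hm w _ hov (ld_of he hty0 hcan)
  rw [Psi_smul]
  have h2 : (1 : ℝ) ≤ ((k : ℤ) : ℝ) := by exact_mod_cast hk0
  nlinarith

theorem geo (hstep : S_STEP) (hty : S_TY) (hlow : S_LOW) (hcore : S_CORE) (hover : S_OVERP)
    (hint : S_INT) (honp : S_ONP) (hprim : S_PRIM) (hc : 0 < c) {Γ : Set ℝ} {m : ℝ}
    (h : m ∈ arrMlds c n Γ) : 0 ≤ m ∧ ∃ F : Fan n, IsComb c F Γ m := by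
  obtain ⟨hm0, K, _, _, g, B, e, u, η, he, hk, hΓ, hm⟩ := h
  refine ⟨hm0, g.F, g.cone, le_q g, u, alp g η, sum_alp he.1, fun i => ?_, ?_, ?_⟩
  · obtain ⟨w, hw, h⟩ := ray_val hcore honp hc he i
    exact ⟨B.mult w, mult_nonneg B w, fun h0 => hΓ w hw.1 h0, h⟩
  · obtain ⟨⟨w, hov, hld⟩, hmin⟩ := hm
    obtain ⟨v, s, hvs, ht⟩ := hty c n K g w
    have hi := hint c n K g v s w hvs hov
    refine ⟨v, s, hi, ht, ?_⟩
    obtain ⟨k, hk1, hk2⟩ := hld
    have h1 := hlow c n K g w v s k hvs ht hk1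
    have h2 := ld_eq he hvs hk1 (a := m) ⟨k, hk1, hk2⟩
    have h3 : ((∑ y, kap g y * s y : ℤ) : ℝ) - 1 ≤ k := by exact_mod_cast h1
    have h4 : m ≤ Psi u (alp g η) v s := formula hstep hcore hover honp hprim hc he
      hk hm0 (fun w a hw ha => hmin ⟨w, hw, ha⟩) v s hi ht.1
    linarith
  · exact formula hstep hcore hover honp hprim hc he
      hk hm0 (fun w a hw ha => hm.2 ⟨w, hw, ha⟩)

end Pool.Agent.Helper58K9.AR
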