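import Pool.Agent.Helper58K9.AR.Stm2
import Pool.Agent.Helper58K9.AR.Low

/-!
# General arrangement varieties: [LOWX] (helper94)
-/

set_option autoImplicit false

namespace Pool.Agent.Helper58K9.AR

open Pool.Agent.H436R3.Fol Pool.Agent.H436R3.KT Pool.Agent.W497.Mld MvPolynomial
open Pool.Agent.TH165.ACC (pr mvI mem_mvI ord_eq_zero_of_notMem)

namespace LowxL

/-- linearly independent rows have a nonzero maximal minor -/
theorem exists_minor' {F : Type} [Field F] {N r : ℕ} (A : Matrix (Fin r) (Fin N) F)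
    (h : LinearIndependent F A.row) :
    ∃ σ : Fin r → Fin N, Function.Injective σ ∧ (Matrix.of fun a b => A b (σ a)).det ≠ 0 := by
  obtain ⟨κ, a, ha, hspan, hind⟩ := exists_linearIndependent' F A.col
  have h1 : Submodule.span F (Set.range A.col) = ⊤ := by
    apply Submodule.eq_top_of_finrank_eq
    rw [← Matrix.rank_eq_finrank_span_cols, h.rank_matrix, Module.finrank_fintype_fun_eq_card]
  have hfin : Finite κ := Finite.of_injective a ha
  have := Fintype.ofFinite κ
  let b : Module.Basis κ F (Fin r → F) := Module.Basis.mk hind (by rw [hspan, h1])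
  have hcard : Fintype.card κ = Fintype.card (Fin r) := by
    rw [← Module.finrank_eq_card_basis b, Module.finrank_fintype_fun_eq_card]
  let e : Fin r ≃ κ := (Fintype.equivOfCardEq hcard).symm
  refine ⟨fun j => a (e j), ha.comp e.injective, ?_⟩
  have h2 : LinearIndependent F fun j : Fin r => A.col (a (e j)) := hind.comp e e.injective
  have h3 : LinearIndependent F (Matrix.of fun (i j : Fin r) => A j (a (e i))).row := h2
  rw [Matrix.linearIndependent_rows_iff_isUnit, Matrix.isUnit_iff_isUnit_det] at h3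
  exact h3.ne_zero

/-- integer version -/
theorem exists_minor_int {N r : ℕ} (A : Fin r → Fin N → ℤ)
    (h : LinearIndependent ℚ (fun a k => (A a k : ℚ))) :
    ∃ σ : Fin r → Fin N, Function.Injective σ ∧
      (Matrix.of fun a b => A b (σ a) : Matrix (Fin r) (Fin r) ℤ).det ≠ 0 := by
  obtain ⟨σ, hσ, hd⟩ := exists_minor' (Matrix.of fun a k => (A a k : ℚ)) h
  refine ⟨σ, hσ, fun h0 => hd ?_⟩
  have h1 : (Matrix.of fun a b => (Matrix.of fun a k => (A a k : ℚ)) b (σ a) :
      Matrix (Fin r) (Fin r) ℚ) =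
      (Int.castRingHom ℚ).mapMatrix (Matrix.of fun a b => A b (σ a)) := by
    ext a b
    simp
  rw [h1, ← RingHom.map_det, h0, map_zero]

/-- the determinant of a unit matrix with some columns replaced -/
theorem det_ext {K : Type} [Field K] {N r : ℕ} (σ : Fin r → Fin N) (hσ : Function.Injective σ)
    (G : Fin r → Fin N → K) :
    (Matrix.of fun l k => Function.extend σ (fun a => G a l)
      (fun k' => if l = k' then (1 : K) else 0) k).det =
      (Matrix.of fun a b => G b (σ a) : Matrix (Fin r) (Fin r) K).det := by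
  classical
  set M : Matrix (Fin N) (Fin N) K := Matrix.of fun l k => Function.extend σ (fun a => G a l)
      (fun k' => if l = k' then (1 : K) else 0) k with hM
  have hin : ∀ l a, M l (σ a) = G a l := fun l a => by
    rw [hM, Matrix.of_apply, hσ.extend_apply]
  have hout : ∀ l k, (¬∃ a, σ a = k) → M l k = if l = k then (1 : K) else 0 := fun l k hk => by
    rw [hM, Matrix.of_apply, Function.extend_apply']
    exact hk
  clear_value M
  rw [Matrix.twoBlockTriangular_det' M (fun k => ∃ a, σ a = k)]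
  · have h1 : (M.toSquareBlockProp fun k => ¬ ∃ a, σ a = k) = 1 := by
      ext i j
      rw [Matrix.toSquareBlockProp_def, Matrix.of_apply, hout _ _ j.2, Matrix.one_apply]
      by_cases h : i = j
      · rw [if_pos h, if_pos (congrArg Subtype.val h)]
      · rw [if_neg h, if_neg fun h' => h (Subtype.ext h')]
    rw [h1, Matrix.det_one, mul_one]
    let e : Fin r ≃ {k // ∃ a, σ a = k} := Equiv.ofBijective (fun a => ⟨σ a, a, rfl⟩)
      ⟨fun a b hab => hσ (congrArg Subtype.val hab), fun ⟨k, a, ha⟩ => ⟨a, Subtype.ext ha⟩⟩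
    rw [← Matrix.det_submatrix_equiv_self e (M.toSquareBlockProp fun k => ∃ a, σ a = k)]
    congr 1
    ext a b
    rw [Matrix.submatrix_apply, Matrix.toSquareBlockProp_def, Matrix.of_apply, Matrix.of_apply]
    exact hin _ _
  · intro i hi j hj
    rw [hout i j hj, if_neg]
    rintro rfl
    exact hj hi

variable {c n : ℕ} {K : Type} [Field K] [Algebra ℂ K]

theorem logDer_prod_zpow (D : Derivation ℂ K K) {ι : Type} (T : Finset ι)
    (f : ι → K) (hf : ∀ i, f i ≠ 0) (k : ι → ℤ) :
    D (∏ i ∈ T, f i ^ k i) / (∏ i ∈ T, f i ^ k i) = ∑ i ∈ T, (k i : K) * (D (f i) / f i) := by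
  classical
  induction T using Finset.induction_on with
  | empty => simp
  | insert a T ha ih =>
    rw [Finset.prod_insert ha, Finset.sum_insert ha, logDer_mul (zpow_ne_zero _ (hf a))
      (Finset.prod_ne_zero_iff.2 fun i _ => zpow_ne_zero _ (hf i)), ih, logDer_zpow (hf a)]

theorem logDer_ch (g : ArrGerm c n K) (D : Derivation ℂ K K) (e : Fin g.F.q → ℤ)
    (m : Fin n → ℤ) : D (ch g.l g.x e m) / ch g.l g.x e m =
      ∑ y, (e y : K) * (D (g.l y) / g.l y) + ∑ j, (m j : K) * (D (g.x j) / g.x j) := by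
  rw [ch, logDer_mul (Finset.prod_ne_zero_iff.2 fun y _ => zpow_ne_zero _ (l_ne g y))
    (Finset.prod_ne_zero_iff.2 fun j _ => zpow_ne_zero _ (x_ne g j)),
    logDer_prod_zpow D _ _ (l_ne g), logDer_prod_zpow D _ _ (x_ne g)]

theorem logDer_div {D : Derivation ℂ K K} {f g : K} (hf : f ≠ 0) (hg : g ≠ 0) :
    D (f / g) / (f / g) = D f / f - D g / g := by
  have h1 := logDer_mul (D := D) (div_ne_zero hf hg) hg
  rw [div_mul_cancel₀ _ hg] at h1
  rw [h1]
  ring

theorem pos_zero (w : DVal K) : w.Pos (0 : K) := Or.inl rfl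

/-- the logarithmic derivatives of the equations of the hyperplanes -/
theorem exists_gam (hL : S_LIN) (g : ArrGerm c n K) (J : Fin (c + 1) → Fin g.F.q)
    (hJ : Function.Injective J) {w : DVal K} {v : Fin n → ℤ} {s : Fin g.F.q → ℤ}
    (hty : IsTy g w v s) (hs : ∀ y, 0 ≤ s y) (hJ0 : s (J 0) = 0)
    (hsupp : ∀ y, s y ≠ 0 → y ∈ Set.range J) (y : Fin g.F.q) :
    ∃ γ : Fin c → K, (∀ D : Derivation ℂ K K, D (g.l y) / g.l y - D (g.l (J 0)) / g.l (J 0) =
        ∑ i, γ i * (D (coJ g J (Fin.castAdd n i)) / coJ g J (Fin.castAdd n i))) ∧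
      (∀ i, w.Reg (γ i)) ∧
      ∀ i, s (J i.succ) ≠ 0 → w.Pos (γ i - ((if y = J i.succ then 1 else 0 : ℤ) : K)) := by
  classical
  obtain ⟨_, t, ht⟩ := hty
  have hco : ∀ i, coJ g J (Fin.castAdd n i) = g.l (J i.succ) / g.l (J 0) := fun i => by
    rw [coJ, Fin.append_left]
  have hord : ∀ y y', w.ord (g.l y / g.l y') = s y - s y' := fun y y' => by
    rw [w.ord_div (l_ne g y) (l_ne g y'), ht, ht]
    ring
  by_cases hy : y ∈ Set.range J
  · obtain ⟨i0, rfl⟩ := hy
    refine Fin.cases ?_ (fun i1 => ?_) i0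
    · refine ⟨fun _ => 0, fun D => by simp, fun i => w.reg_zero, fun i _ => ?_⟩
      rw [if_neg fun h => (Fin.succ_ne_zero i) (hJ h).symm]
      simp only [Int.cast_zero, sub_zero]
      exact pos_zero w
    · refine ⟨fun i => if i = i1 then 1 else 0, fun D => ?_, fun i => ?_, fun i _ => ?_⟩
      · rw [← logDer_div (l_ne g _) (l_ne g _), ← hco]
        simp
      · dsimp only
        split_ifs
        · exact w.reg_one
        · exact w.reg_zero
      · dsimp only
        by_cases h : i = i1
        · subst h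
          simp only [if_true, Int.cast_one, sub_self]
          exact pos_zero w
        · rw [if_neg h, if_neg fun h' => h (Fin.succ_injective _ (hJ h')).symm]
          simp only [Int.cast_zero, sub_zero]
          exact pos_zero w
  · obtain ⟨β, hβ, -⟩ := hL c n K g J hJ y
    have hsy : s y = 0 := by
      by_contra h
      exact hy (hsupp y h)
    set r := g.l y / g.l (J 0) with hr
    have hr0 : r ≠ 0 := div_ne_zero (l_ne g _) (l_ne g _)
    have hrr : r = algebraMap ℂ K (β 0) +
        ∑ i : Fin c, algebraMap ℂ K (β i.succ) * coJ g J (Fin.castAdd n i) := by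
      rw [hr, hβ, Fin.sum_univ_succ, add_div, mul_div_assoc, div_self (l_ne g _), mul_one,
        Finset.sum_div]
      congr 1
      refine Finset.sum_congr rfl fun i _ => ?_
      rw [hco, mul_div_assoc]
    have hrord : w.ord r = 0 := by rw [hr, hord, hsy, hJ0, sub_zero]
    have hrinv : w.Reg r⁻¹ := w.reg_inv hr0 hrord
    refine ⟨fun i => r⁻¹ * algebraMap ℂ K (β i.succ) * coJ g J (Fin.castAdd n i), fun D => ?_,
      fun i => ?_, fun i hi => ?_⟩
    · have hDr : D r = ∑ i : Fin c, algebraMap ℂ K (β i.succ) * D (coJ g J (Fin.castAdd n i)) := by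
        rw [hrr, map_add, map_sum, Derivation.map_algebraMap, zero_add]
        refine Finset.sum_congr rfl fun i _ => ?_
        rw [Derivation.leibniz, Derivation.map_algebraMap]
        simp
      rw [← logDer_div (l_ne g _) (l_ne g _), ← hr, hDr, Finset.sum_div]
      refine Finset.sum_congr rfl fun i _ => ?_
      have h0 := LowL.coJ_ne g J (Fin.castAdd n i)
      field_simp
    · refine w.reg_mul (w.reg_mul hrinv (w.reg_const _)) (Or.inr ?_)
      rw [hco, hord, hJ0, sub_zero]
      exact hs _
    · rw [if_neg fun h => hy ⟨_, h.symm⟩]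
      simp only [Int.cast_zero, sub_zero]
      refine w.pos_mul_left (w.reg_mul hrinv (w.reg_const _)) (Or.inr ?_)
      rw [hco, hord, hJ0, sub_zero]
      have := hs (J i.succ)
      omega

theorem ord_unit {w : DVal K} {f : K} (hf : f ≠ 0) {b : ℂ} (hb : b ≠ 0)
    (h : w.Pos (f - algebraMap ℂ K b)) : w.ord f = 0 := by
  have h1 : w.Reg (f - algebraMap ℂ K b) := by
    rcases h with h | h
    · exact Or.inl h
    · exact Or.inr h.le
  have h2 : w.Reg f := by
    have := w.reg_add h1 (w.reg_const b)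
    rwa [sub_add_cancel] at this
  have h3 := w.ord_nonneg hf h2
  by_contra hne
  have h4 : w.Pos f := Or.inr (by omega)
  have h5 : w.Pos (-(f - algebraMap ℂ K b)) := by
    rw [neg_eq_neg_one_mul]
    exact w.pos_mul_left (w.reg_neg w.reg_one) h
  have h6 : w.Pos (algebraMap ℂ K b) := by
    have := w.pos_add h4 h5
    rwa [show f + -(f - algebraMap ℂ K b) = algebraMap ℂ K b by ring] at this
  rcases h6 with h6 | h6
  · exact hb ((map_eq_zero _).1 h6)
  · rw [w.const b hb] at h6
    exact lt_irrefl _ h6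

theorem pos_sum (w : DVal K) {ι : Type} (T : Finset ι) (f : ι → K) (h : ∀ i ∈ T, w.Pos (f i)) :
    w.Pos (∑ i ∈ T, f i) := by
  classical
  induction T using Finset.induction_on with
  | empty => exact Or.inl rfl
  | insert a T ha ih =>
    rw [Finset.sum_insert ha]
    exact w.pos_add (h a (Finset.mem_insert_self _ _))
      (ih fun i hi => h i (Finset.mem_insert_of_mem hi))

theorem reg_sum (w : DVal K) {ι : Type} (T : Finset ι) (f : ι → K) (h : ∀ i ∈ T, w.Reg (f i)) :
    w.Reg (∑ i ∈ T, f i) := by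
  classical
  induction T using Finset.induction_on with
  | empty => exact Or.inl rfl
  | insert a T ha ih =>
    rw [Finset.sum_insert ha]
    exact w.reg_add (h a (Finset.mem_insert_self _ _))
      (ih fun i hi => h i (Finset.mem_insert_of_mem hi))

/-- a determinant which is a non-zero integer modulo the maximal ideal -/
theorem det_unit (w : DVal K) {r : ℕ} (G : Matrix (Fin r) (Fin r) K)
    (A : Matrix (Fin r) (Fin r) ℤ) (hA : A.det ≠ 0) (hG : ∀ a b, w.Reg (G a b))
    (hGA : ∀ a b, w.Pos (G a b - (A a b : K))) : G.det ≠ 0 ∧ w.ord G.det = 0 := by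
  let AO : Matrix (Fin r) (Fin r) w.O := Matrix.of fun a b => ⟨G a b, hG a b⟩
  have h1 : AO.det ∉ mvI w := by
    intro h2
    have h3 : (Ideal.Quotient.mk (mvI w)).mapMatrix AO =
        (Ideal.Quotient.mk (mvI w)).mapMatrix ((Int.castRingHom w.O).mapMatrix A) := by
      ext a b
      rw [RingHom.mapMatrix_apply, RingHom.mapMatrix_apply, RingHom.mapMatrix_apply,
        Matrix.map_apply, Matrix.map_apply, Matrix.map_apply, Ideal.Quotient.eq, mem_mvI]
      have h4 := hGA a b
      simpa [AO] using h4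
    have h4 : Ideal.Quotient.mk (mvI w) AO.det =
        Ideal.Quotient.mk (mvI w) ((Int.castRingHom w.O) A.det) := by
      rw [RingHom.map_det, RingHom.map_det, h3, ← RingHom.map_det, ← RingHom.map_det]
    rw [Ideal.Quotient.eq] at h4
    have h5 := sub_mem h2 h4
    rw [sub_sub_cancel, mem_mvI] at h5
    have h6 : (((Int.castRingHom w.O) A.det : w.O) : K) = algebraMap ℂ K (A.det : ℂ) := by
      simp
    rw [h6] at h5
    have h7 : (A.det : ℂ) ≠ 0 := by exact_mod_cast hA
    rcases h5 with h5 | h5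
    · exact h7 ((map_eq_zero _).1 h5)
    · rw [w.const _ h7] at h5
      exact lt_irrefl _ h5
  have h2 := ord_eq_zero_of_notMem h1
  have h3 : (AO.det : K) = G.det := by
    have : (AO.det : K) = w.O.subtype AO.det := rfl
    rw [this, RingHom.map_det]
    congr 1
  rwa [h3] at h2

/-- the minor of the exponents -/
theorem exists_sig {c n q : ℕ} (J : Fin (c + 1) → Fin q)
    {s : Fin q → ℤ} (hJ0 : s (J 0) = 0) (hsupp : ∀ y, s y ≠ 0 → y ∈ Set.range J) {r : ℕ}
    (E : Fin r → Fin q → ℤ) (M : Fin r → Fin n → ℤ)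
    (hli : LinearIndependent ℚ (fun a => prj s (E a) (M a))) :
    ∃ σ : Fin r → Fin (c + n), Function.Injective σ ∧
      (∀ b i, σ b = Fin.castAdd n i → s (J i.succ) ≠ 0) ∧
      (Matrix.of fun a b => (Fin.append (fun i => E b (J i.succ)) (M b) : Fin (c + n) → ℤ) (σ a) :
        Matrix (Fin r) (Fin r) ℤ).det ≠ 0 := by
  let A : Fin r → Fin (c + n) → ℤ := fun a =>
    Fin.append (fun i => if s (J i.succ) = 0 then 0 else E a (J i.succ)) (M a)
  have hA : LinearIndependent ℚ (fun a k => (A a k : ℚ)) := by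
    rw [Fintype.linearIndependent_iff] at hli ⊢
    intro x hx
    apply hli x
    funext z
    rw [Finset.sum_apply, Pi.zero_apply]
    rcases z with y | j
    · by_cases hy : s y = 0
      · refine Finset.sum_eq_zero fun a _ => ?_
        simp [prj, hy]
      · obtain ⟨i0, rfl⟩ := hsupp y hy
        obtain ⟨i, rfl⟩ : ∃ i : Fin c, i0 = i.succ := by
          refine Fin.cases (fun h => (h hJ0).elim) (fun i _ => ⟨i, rfl⟩) i0 hy
        have h1 := congrFun hx (Fin.castAdd n i)
        rw [Finset.sum_apply, Pi.zero_apply] at h1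
        rw [← h1]
        refine Finset.sum_congr rfl fun a _ => ?_
        simp [prj, A, hy]
    · have h1 := congrFun hx (Fin.natAdd c j)
      rw [Finset.sum_apply, Pi.zero_apply] at h1
      rw [← h1]
      refine Finset.sum_congr rfl fun a _ => ?_
      simp [prj, A]
  obtain ⟨σ, hσ, hd⟩ := exists_minor_int A hA
  have hS : ∀ b i, σ b = Fin.castAdd n i → s (J i.succ) ≠ 0 := by
    intro b i hb h0
    apply hd
    apply Matrix.det_eq_zero_of_row_eq_zero b
    intro a
    rw [Matrix.of_apply, hb]
    simp [A, h0]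
  refine ⟨σ, hσ, hS, ?_⟩
  have h2 : (Matrix.of fun a b => (Fin.append (fun i => E b (J i.succ)) (M b) :
      Fin (c + n) → ℤ) (σ a) : Matrix (Fin r) (Fin r) ℤ) = Matrix.of fun a b => A b (σ a) := by
    ext a b
    rw [Matrix.of_apply, Matrix.of_apply]
    have h3 := hS a
    generalize σ a = k at h3 ⊢
    revert h3
    refine Fin.addCases (fun i h3 => ?_) (fun j _ => ?_) k
    · simp [A, h3 i rfl]
    · simp [A]
  rw [h2]
  exact hd

/-- the logarithmic derivatives of the characters -/
theorem exists_Gam (hL : S_LIN) (g : ArrGerm c n K) (J : Fin (c + 1) → Fin g.F.q)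
    (hJ : Function.Injective J) {w : DVal K} {v : Fin n → ℤ} {s : Fin g.F.q → ℤ}
    (hty : IsTy g w v s) (hs : ∀ y, 0 ≤ s y) (hJ0 : s (J 0) = 0)
    (hsupp : ∀ y, s y ≠ 0 → y ∈ Set.range J) (E : Fin g.F.q → ℤ) (M : Fin n → ℤ)
    (hE : ∑ y, E y = 0) : ∃ Γ : Fin (c + n) → K,
      (∀ D : Derivation ℂ K K, D (ch g.l g.x E M) / ch g.l g.x E M =
        ∑ k, Γ k * (D (coJ g J k) / coJ g J k)) ∧
      (∀ k, w.Reg (Γ k)) ∧
      ∀ k, (∀ i, k = Fin.castAdd n i → s (J i.succ) ≠ 0) →
        w.Pos (Γ k - ((Fin.append (fun i => E (J i.succ)) M : Fin (c + n) → ℤ) k : K)) := by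
  classical
  choose γ h1 h2 h3 using exists_gam hL g J hJ hty hs hJ0 hsupp
  refine ⟨Fin.append (fun i => ∑ y, (E y : K) * γ y i) fun j => (M j : K), fun D => ?_,
    fun k => ?_, fun k => ?_⟩
  · rw [logDer_ch, Fin.sum_univ_add]
    congr 1
    · have h4 : ∑ y, (E y : K) * (D (g.l y) / g.l y) =
          ∑ y, (E y : K) * (D (g.l y) / g.l y - D (g.l (J 0)) / g.l (J 0)) := by
        simp only [mul_sub, Finset.sum_sub_distrib, ← Finset.sum_mul]
        rw [← Int.cast_sum, hE, Int.cast_zero, zero_mul, sub_zero]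
      rw [h4]
      simp only [h1, Fin.append_left, Finset.mul_sum, Finset.sum_mul]
      rw [Finset.sum_comm]
      exact Finset.sum_congr rfl fun i _ => Finset.sum_congr rfl fun y _ => by ring
    · refine Finset.sum_congr rfl fun j _ => ?_
      rw [Fin.append_right, coJ, Fin.append_right]
  · refine Fin.addCases (fun i => ?_) (fun j => ?_) k
    · rw [Fin.append_left]
      exact reg_sum w _ _ fun y _ => w.reg_mul (w.reg_intCast _) (h2 y i)
    · rw [Fin.append_right]
      exact w.reg_intCast _
  · refine Fin.addCases (fun i hk => ?_) (fun j _ => ?_) k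
    · rw [Fin.append_left, Fin.append_left]
      have hi := hk i rfl
      have h4 : (∑ y, (E y : K) * γ y i) - (E (J i.succ) : K) =
          ∑ y, (E y : K) * (γ y i - ((if y = J i.succ then 1 else 0 : ℤ) : K)) := by
        simp only [mul_sub, Finset.sum_sub_distrib]
        congr 1
        rw [Finset.sum_eq_single (J i.succ)]
        · simp
        · intro y _ hy
          rw [if_neg hy, Int.cast_zero, mul_zero]
        · intro h
          exact absurd (Finset.mem_univ _) h
      rw [h4]
      exact pos_sum w _ _ fun y _ => w.pos_mul_left (w.reg_intCast _) (h3 y i hi)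
    · rw [Fin.append_right, Fin.append_right, sub_self]
      exact pos_zero w

/-- the general inequality -/
theorem bound (hL : S_LIN) (hD : S_DETJ) (g : ArrGerm c n K) (w : DVal K) (v : Fin n → ℤ)
    (s : Fin g.F.q → ℤ) (k0 : ℤ) (hty : IsTy g w v s) (hs : ∀ y, 0 ≤ s y)
    (hcan : IsCanOrd g.X.T w k0) (J : Fin (c + 1) → Fin g.F.q) (hJ : Function.Injective J)
    (hJ0 : s (J 0) = 0) (hsupp : ∀ y, s y ≠ 0 → y ∈ Set.range J) {r : ℕ}
    (E : Fin r → Fin g.F.q → ℤ) (M : Fin r → Fin n → ℤ) (hE : ∀ a, ∑ y, E a y = 0)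
    (hch : ∀ a, ∃ b : ℂ, b ≠ 0 ∧ w.Pos (ch g.l g.x (E a) (M a) - algebraMap ℂ K b))
    (hli : LinearIndependent ℚ (fun a => prj s (E a) (M a)))
    (κ : Fin c → ℂ) (δ : Fin c → ℤ) (hδ : ∀ i, s (J i.succ) ≠ 0 → δ i = 0)
    (hκ : ∀ i, coJ g J (Fin.castAdd n i) - algebraMap ℂ K (κ i) ≠ 0 →
      w.ord (coJ g J (Fin.castAdd n i)) + δ i ≤
        w.ord (coJ g J (Fin.castAdd n i) - algebraMap ℂ K (κ i))) :
    ∑ y, kap g y * s y + r + ∑ i, δ i - 1 ≤ k0 := by
  classical
  choose b hb hpos using hch
  obtain ⟨σ, hσ, hS, hA⟩ := exists_sig (n := n) J hJ0 hsupp E M hli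
  choose Γ hΓ1 hΓ2 hΓ3 using fun a => exists_Gam hL g J hJ hty hs hJ0 hsupp (E a) (M a) (hE a)
  obtain ⟨lam, hlam, hdet⟩ := hD c n K g J hJ
  obtain ⟨_, t, ht⟩ := hty
  set u := coJ g J with hu
  have hu0 : ∀ k, u k ≠ 0 := LowL.coJ_ne g J
  set D : Fin (c + n) → Derivation ℂ K K := fun j => g.X.T.D (g.e.symm j) with hDd
  have hl : algebraMap ℂ K lam ≠ 0 := by simpa using hlam
  have hp1 : (∏ k, u k) ≠ 0 := Finset.prod_ne_zero_iff.2 fun k _ => hu0 k
  have hp2 : (∏ i, g.l (g.J0 i)) ≠ 0 := Finset.prod_ne_zero_iff.2 fun i _ => l_ne g _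
  have hp3 : (∏ i, g.l (J i)) ≠ 0 := Finset.prod_ne_zero_iff.2 fun i _ => l_ne g _
  -- the matrix of the logarithmic derivatives
  set L : Matrix (Fin (c + n)) (Fin (c + n)) K := Matrix.of fun j k => D j (u k) / u k with hLd
  have hL1 : L.det * ∏ k, u k =
      algebraMap ℂ K lam * (∏ k, u k) * (∏ i, g.l (g.J0 i)) / ∏ i, g.l (J i) := by
    rw [← hdet, ← Matrix.det_diagonal, ← Matrix.det_mul]
    congr 1
    ext j k
    rw [Matrix.mul_diagonal, hLd, Matrix.of_apply, Matrix.of_apply, div_mul_cancel₀ _ (hu0 k)]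
  have hrhs : algebraMap ℂ K lam * (∏ k, u k) * (∏ i, g.l (g.J0 i)) / ∏ i, g.l (J i) ≠ 0 :=
    div_ne_zero (mul_ne_zero (mul_ne_zero hl hp1) hp2) hp3
  have hL0 : L.det ≠ 0 := by
    intro h
    rw [h, zero_mul] at hL1
    exact hrhs hL1.symm
  have hLord : w.ord L.det = -∑ y, kap g y * s y := by
    have h1 := congrArg w.ord hL1
    rw [w.map_mul _ _ hL0 hp1, w.ord_div (mul_ne_zero (mul_ne_zero hl hp1) hp2) hp3,
      w.map_mul _ _ (mul_ne_zero hl hp1) hp2, w.map_mul _ _ hl hp1, w.const lam hlam,
      w.ord_prod _ (fun i => g.l (g.J0 i)) fun i _ => l_ne g _,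
      w.ord_prod _ (fun i => g.l (J i)) fun i _ => l_ne g _] at h1
    have h2 : ∑ i, w.ord (g.l (J i)) = (c + 1) * t + ∑ y, s y := by
      rw [← LowL.sum_J hJ hsupp]
      simp only [ht, Finset.sum_add_distrib, Finset.sum_const, Finset.card_univ, Fintype.card_fin,
        nsmul_eq_mul]
      push_cast
      ring
    have h3 : ∑ i, w.ord (g.l (g.J0 i)) = (c + 1) * t + ∑ i, s (g.J0 i) := by
      simp only [ht, Finset.sum_add_distrib, Finset.sum_const, Finset.card_univ, Fintype.card_fin,
        nsmul_eq_mul]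
      push_cast
      ring
    rw [h2, h3] at h1
    rw [LowL.sum_kap]
    linarith
  -- the new functions
  set χ : Fin r → K := fun a => ch g.l g.x (E a) (M a) with hχ
  have hχ0 : ∀ a, χ a ≠ 0 := fun a => ch_ne g _ _
  have hχord : ∀ a, w.ord (χ a) = 0 := fun a => ord_unit (hχ0 a) (hb a) (hpos a)
  set κ' : Fin (c + n) → ℂ := Fin.append κ 0 with hκ'
  set δ' : Fin (c + n) → ℤ := Fin.append δ 0 with hδ'
  set h : Fin (c + n) → K := Function.extend σ (fun a => χ a - algebraMap ℂ K (b a))
    (fun k => u k - algebraMap ℂ K (κ' k)) with hh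
  set d : Fin (c + n) → K := Function.extend σ χ u with hd
  set Q : Matrix (Fin (c + n)) (Fin (c + n)) K := Matrix.of fun l k =>
    Function.extend σ (fun a => Γ a l) (fun k' => if l = k' then (1 : K) else 0) k with hQ
  have hd0 : ∀ k, d k ≠ 0 := by
    intro k
    by_cases hk : ∃ a, σ a = k
    · obtain ⟨a, rfl⟩ := hk
      rw [hd, hσ.extend_apply]
      exact hχ0 a
    · rw [hd, Function.extend_apply' _ _ _ hk]
      exact hu0 k
  have hpd : ∏ k, d k ≠ 0 := Finset.prod_ne_zero_iff.2 fun k _ => hd0 k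
  have hmat : (Matrix.of fun j k => D j (h k)) = L * (Q * Matrix.diagonal d) := by
    ext j k
    rw [Matrix.of_apply, Matrix.mul_apply]
    simp only [Matrix.mul_diagonal, hQ, Matrix.of_apply]
    by_cases hk : ∃ a, σ a = k
    · obtain ⟨a, rfl⟩ := hk
      rw [hh, hd, hσ.extend_apply, hσ.extend_apply, map_sub, Derivation.map_algebraMap, sub_zero]
      simp only [hσ.extend_apply]
      have h1 := hΓ1 a (D j)
      rw [div_eq_iff (hχ0 a)] at h1
      rw [hχ]
      dsimp only
      rw [h1, Finset.sum_mul]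
      refine Finset.sum_congr rfl fun l _ => ?_
      rw [hLd, Matrix.of_apply]
      ring
    · rw [hh, hd, Function.extend_apply' _ _ _ hk, Function.extend_apply' _ _ _ hk, map_sub,
        Derivation.map_algebraMap, sub_zero]
      rw [Finset.sum_eq_single k]
      · rw [Function.extend_apply' _ _ _ hk, if_pos rfl, one_mul, hLd, Matrix.of_apply,
          div_mul_cancel₀ _ (hu0 k)]
      · intro l _ hl'
        rw [Function.extend_apply' _ _ _ hk, if_neg hl', zero_mul, mul_zero]
      · intro h'
        exact absurd (Finset.mem_univ _) h'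
  have hQd : Q.det ≠ 0 ∧ w.ord Q.det = 0 := by
    rw [hQ, det_ext σ hσ Γ]
    refine det_unit w _ (Matrix.of fun a b => (Fin.append (fun i => E b (J i.succ)) (M b) :
      Fin (c + n) → ℤ) (σ a)) hA (fun a b => ?_) fun a b => ?_
    · rw [Matrix.of_apply]
      exact hΓ2 _ _
    · rw [Matrix.of_apply, Matrix.of_apply]
      exact hΓ3 _ _ fun i hi => hS _ _ hi
  have hdet' : (Matrix.of fun j k => D j (h k)).det = L.det * (Q.det * ∏ k, d k) := by
    rw [hmat, Matrix.det_mul, Matrix.det_mul, Matrix.det_diagonal]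
  have hne : (Matrix.of fun j k => D j (h k)).det ≠ 0 := by
    rw [hdet']
    exact mul_ne_zero hL0 (mul_ne_zero hQd.1 hpd)
  have hh0 : ∀ k, h k ≠ 0 := by
    intro k hk
    apply hne
    apply Matrix.det_eq_zero_of_column_eq_zero k
    intro j
    rw [Matrix.of_apply, hk, map_zero]
  have hmain := can_ge w hcan g.e D (fun i => by simp [hDd]) h hh0 hne
  rw [hdet', w.map_mul _ _ hL0 (mul_ne_zero hQd.1 hpd), w.map_mul _ _ hQd.1 hpd, hQd.2, hLord,
    w.ord_prod _ _ fun k _ => hd0 k] at hmain
  -- the orders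
  set ε : Fin (c + n) → ℤ := Function.extend σ (fun _ => 1) (fun _ => 0) with hε
  have hδσ : ∀ a, δ' (σ a) = 0 := by
    intro a
    have h3 := hS a
    generalize σ a = k at h3 ⊢
    revert h3
    refine Fin.addCases (fun i h3 => ?_) (fun j _ => ?_) k
    · rw [hδ', Fin.append_left]
      exact hδ i (h3 i rfl)
    · rw [hδ', Fin.append_right]
      rfl
  have hpt : ∀ k, w.ord (d k) + (ε k + δ' k) ≤ w.ord (h k) := by
    intro k
    by_cases hk : ∃ a, σ a = k
    · obtain ⟨a, rfl⟩ := hk
      have h1 := hh0 (σ a)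
      rw [hh, hσ.extend_apply] at h1
      rw [hδσ, hd, hε, hh, hσ.extend_apply, hσ.extend_apply, hσ.extend_apply, hχord]
      have h2 := (hpos a).resolve_left h1
      change 0 < w.ord (χ a - algebraMap ℂ K (b a)) at h2
      omega
    · have h1 := hh0 k
      rw [hh, Function.extend_apply' _ _ _ hk] at h1
      rw [hd, hε, hh, Function.extend_apply' _ _ _ hk, Function.extend_apply' _ _ _ hk,
        Function.extend_apply' _ _ _ hk, zero_add]
      clear hk
      revert h1
      refine Fin.addCases (fun i h1 => ?_) (fun j _ => ?_) k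
      · rw [hκ', hδ', Fin.append_left, Fin.append_left] at *
        exact hκ i h1
      · rw [hκ', hδ', Fin.append_right, Fin.append_right]
        simp
  have hsum := Finset.sum_le_sum fun k (_ : k ∈ Finset.univ) => hpt k
  rw [Finset.sum_add_distrib, Finset.sum_add_distrib] at hsum
  have hεs : ∑ k, ε k = r := by
    have h1 : ∑ k, ε k = ∑ k ∈ Finset.univ.image σ, ε k := by
      symm
      refine Finset.sum_subset (Finset.subset_univ _) fun k _ hk => ?_
      rw [hε, Function.extend_apply']
      rintro ⟨a, rfl⟩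
      exact hk (Finset.mem_image_of_mem _ (Finset.mem_univ _))
    rw [h1, Finset.sum_image fun a _ b _ hab => hσ hab, Finset.sum_congr rfl fun a _ => by
      rw [hε, hσ.extend_apply]]
    simp
  have hδs : ∑ k, δ' k = ∑ i, δ i := by
    rw [Fin.sum_univ_add]
    simp [hδ']
  rw [hεs, hδs] at hsum
  linarith

end LowxL

open LowxL in
theorem lowx (hL : S_LIN) (hD : S_DETJ) : S_LOWX := by
  classical
  intro c n K _ _ g w v s k hty hs hcan r E M hE hch hli
  obtain ⟨J, hJ, hJ0, hsupp⟩ := LowL.exists_J c g.F.q s hs (le_q g)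
  constructor
  · have h1 := bound hL hD g w v s k hty hs.1 hcan J hJ hJ0 hsupp E M hE hch hli 0 0
      (fun _ _ => rfl) (fun i _ => by simp)
    simpa using h1
  · intro hb
    choose b hb0 hb1 using fun (y : Fin g.F.q) (hy : s y = 0) => hb y (J 0) hy hJ0
    let κ : Fin c → ℂ := fun i => if hy : s (J i.succ) = 0 then b _ hy else 0
    let δ : Fin c → ℤ := fun i => if s (J i.succ) = 0 then 1 else 0
    have h1 := bound hL hD g w v s k hty hs.1 hcan J hJ hJ0 hsupp E M hE hch hli κ δ
      (fun i hi => if_neg hi) (fun i hne => by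
        have hco : coJ g J (Fin.castAdd n i) = g.l (J i.succ) / g.l (J 0) := by
          rw [coJ, Fin.append_left]
        by_cases hi : s (J i.succ) = 0
        · have hκi : κ i = b _ hi := dif_pos hi
          have hδi : δ i = 1 := if_pos hi
          rw [hκi] at hne ⊢
          rw [hδi]
          have h2 := hb1 _ hi
          rw [← hco] at h2
          rw [ord_unit (LowL.coJ_ne g J _) (hb0 _ hi) h2]
          have h3 := h2.resolve_left hne
          omega
        · have hκi : κ i = 0 := dif_neg hi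
          have hδi : δ i = 0 := if_neg hi
          rw [hκi, hδi]
          simp)
    have h2 : ∑ i, δ i = (c : ℤ) - (Finset.univ.filter fun y => s y ≠ 0).card := by
      have h3 : (Finset.univ.filter fun y => s y ≠ 0).card =
          (Finset.univ.filter fun i : Fin c => s (J i.succ) ≠ 0).card := by
        have h4 : (Finset.univ.filter fun y => s y ≠ 0) =
            (Finset.univ.filter fun i : Fin c => s (J i.succ) ≠ 0).image fun i => J i.succ := by
          ext y
          simp only [Finset.mem_filter, Finset.mem_univ, true_and, Finset.mem_image]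
          constructor
          · intro hy
            obtain ⟨i0, rfl⟩ := hsupp y hy
            revert hy
            refine Fin.cases (fun h => (h hJ0).elim) (fun i h => ⟨i, h, rfl⟩) i0
          · rintro ⟨i, hi, rfl⟩
            exact hi
        rw [h4, Finset.card_image_of_injective _ fun a b hab => Fin.succ_injective _ (hJ hab)]
      have h5 : ∑ i, δ i = ((Finset.univ.filter fun i : Fin c => s (J i.succ) = 0).card : ℤ) := by
        simp only [δ]
        rw [Finset.sum_boole]
      have h6 : (Finset.univ.filter fun i : Fin c => s (J i.succ) = 0).card +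
          (Finset.univ.filter fun i : Fin c => s (J i.succ) ≠ 0).card = c := by
        have := Finset.card_filter_add_card_filter_not (s := (Finset.univ : Finset (Fin c)))
          fun i => s (J i.succ) = 0
        rw [Finset.card_univ, Fintype.card_fin] at this
        exact this
      rw [h5, h3]
      omega
    rw [h2] at h1
    exact h1

end Pool.Agent.Helper58K9.AR
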