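import Mathlib
import Pool.Agent.W497.Mld.Defs

/-!
# The minimal log discrepancy at a closed point
-/

set_option autoImplicit false

namespace Pool.Agent.Helper58K9.AR

open Pool.Agent.H436R3.Fol Pool.Agent.H436R3.KT Pool.Agent.W497.Mld

open Classical in
/-- The minimal log discrepancy `mld_x (X, B)` at the closed point `x`: the infimum of the log
discrepancies of the prime divisors over `X` with centre `x` if none of them is negative, and `-∞`
otherwise. -/
noncomputable def mld {K : Type} [Field K] [Algebra ℂ K] {X : AffVar K} {B : EffDiv X} {x : Pt X}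
    (e : LocEq B x) : EReal :=
  if ∃ v a, IsOverGerm x v ∧ IsLogDisc e v a ∧ a < 0 then ⊥
  else sInf {a : EReal | ∃ v r, IsOverGerm x v ∧ IsLogDisc e v r ∧ a = (r : EReal)}

end Pool.Agent.Helper58K9.AR
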