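import Pool.Agent.Helper58K9.AR.Stm

/-!
# General arrangement varieties: statements of the leaves for the semicontinuity
-/

set_option autoImplicit false

namespace Pool.Agent.Helper58K9.AR

open Pool.Agent.H436R3.Fol Pool.Agent.H436R3.KT Pool.Agent.W497.Mld MvPolynomial
open Pool.Agent.TH165.ACC (pr)

/-- the components of `(e, m)` at the `y` with `s y ≠ 0`, and `m` -/
def prj {q n : ℕ} (s : Fin q → ℤ) (e : Fin q → ℤ) (m : Fin n → ℤ) : Fin q ⊕ Fin n → ℚ :=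
  Sum.elim (fun y => if s y = 0 then 0 else (e y : ℚ)) fun j => (m j : ℚ)

/-- [LOWX] lower bound for the canonical order, if some characters are constant units modulo the
maximal ideal -/
def S_LOWX : Prop := ∀ (c n : ℕ) (K : Type) [Field K] [Algebra ℂ K] (g : ArrGerm c n K)
  (w : DVal K) (v : Fin n → ℤ) (s : Fin g.F.q → ℤ) (k : ℤ), IsTy g w v s → Trop c s →
    IsCanOrd g.X.T w k → ∀ (r : ℕ) (E : Fin r → Fin g.F.q → ℤ) (M : Fin r → Fin n → ℤ),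
    (∀ a, ∑ y, E a y = 0) →
    (∀ a, ∃ b : ℂ, b ≠ 0 ∧ w.Pos (ch g.l g.x (E a) (M a) - algebraMap ℂ K b)) →
    LinearIndependent ℚ (fun a => prj s (E a) (M a)) →
    ∑ y, kap g y * s y + r - 1 ≤ k ∧
      ((∀ y y', s y = 0 → s y' = 0 → ∃ b : ℂ, b ≠ 0 ∧
          w.Pos (g.l y / g.l y' - algebraMap ℂ K b)) →
        ∑ y, kap g y * s y + r + (c - (Finset.univ.filter fun y => s y ≠ 0).card) - 1 ≤ k)

/-- [ADD] an interior vector near a vector in the boundary -/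
def S_ADD : Prop := ∀ (c n : ℕ) (F : Fan n) (u : Fin n → ℝ) (α : Fin F.q → ℝ),
  F.IsCone → c + 1 ≤ F.q → ∑ y, (1 - α y) = c + 1 → (∀ i, Psi u α (F.v i) (F.sv i) ≤ 1) →
  ∀ v s, Trop c s → (∀ e m, F.Mem e m → 0 ≤ vl v s e m) →
  ∃ (r : ℕ) (E : Fin r → Fin F.q → ℤ) (M : Fin r → Fin n → ℤ),
    (∀ a, F.Mem (E a) (M a) ∧ vl v s (E a) (M a) = 0) ∧
    LinearIndependent ℚ (fun a => prj s (E a) (M a)) ∧
    ∃ v1 s1, F.Int v1 s1 ∧ (∀ y, 0 ≤ s1 y) ∧
      (Psi u α v1 s1 ≤ Psi u α v s + r ∨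
        ((∀ y y', s y = 0 → s y' = 0 → ∃ e e' m, F.Mem e m ∧ vl v s e m = 0 ∧ F.Mem e' m ∧
            vl v s e' m = 0 ∧ e - e' = Pi.single y 1 - Pi.single y' 1) ∧
          Psi u α v1 s1 ≤ Psi u α v s + r + c - (Finset.univ.filter fun y => s y ≠ 0).card))

end Pool.Agent.Helper58K9.AR
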