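import Pool.Agent.Helper58K9.AR.Geo
import Pool.Agent.Helper58K9.AR.Stm2
import Pool.Agent.Helper58K9.AR.Mld

/-!
# General arrangement varieties: lower semicontinuity at the attractive fixed point
-/

set_option autoImplicit false

namespace Pool.Agent.Helper58K9.AR

open Pool.Agent.H436R3.Fol Pool.Agent.H436R3.KT Pool.Agent.W497.Mld MvPolynomial
open Pool.Agent.TH165.ACC (pr)

variable {c n : ℕ} {K : Type} [Field K] [Algebra ℂ K]

theorem reg_of_over {g : ArrGerm c n K} {x : Pt g.X} {w : DVal K} (h : IsOverGerm x w) {f : K}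
    (hf : f ∈ g.X.R) : w.Reg f := by
  obtain ⟨⟨S, -, hS, hS'⟩, -⟩ := h
  exact hS'.1 f (hS hf)

/-- characters which do not vanish at `x` are constant modulo the maximal ideal -/
theorem unit_of {g : ArrGerm c n K} {x : Pt g.X} {w : DVal K} (h : IsOverGerm x w)
    {v : Fin n → ℤ} {s : Fin g.F.q → ℤ} (hty : IsTy g w v s) {e : Fin g.F.q → ℤ} {m : Fin n → ℤ}
    (hem : g.F.Mem e m) (h0 : vl v s e m = 0) : ∃ b : ℂ, b ≠ 0 ∧
      w.Pos (ch g.l g.x e m - algebraMap ℂ K b) := by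
  have hx : w.ord (ch g.l g.x e m) = 0 := by rw [ord_ch hty m hem.1, h0]
  have hn : ¬ w.Pos (ch g.l g.x e m) := by
    rintro (h1 | h1)
    · exact ch_ne g e m h1
    · omega
  refine ⟨x ⟨_, ch_mem g hem⟩, fun h1 => hn ((h.2 ⟨_, ch_mem g hem⟩).2 h1), ?_⟩
  have h2 := (h.2 (⟨_, ch_mem g hem⟩ - algebraMap ℂ g.X.R (x ⟨_, ch_mem g hem⟩))).2
    (by rw [map_sub, AlgHom.commutes]; simp)
  exact h2

theorem ratio {g : ArrGerm c n K} {x : Pt g.X} {w : DVal K} (h : IsOverGerm x w)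
    {v : Fin n → ℤ} {s : Fin g.F.q → ℤ} (hty : IsTy g w v s) {y y' : Fin g.F.q}
    {e e' : Fin g.F.q → ℤ} {m : Fin n → ℤ} (hem : g.F.Mem e m) (h0 : vl v s e m = 0)
    (hem' : g.F.Mem e' m) (h0' : vl v s e' m = 0)
    (hee : e - e' = Pi.single y 1 - Pi.single y' 1) : ∃ b : ℂ, b ≠ 0 ∧
      w.Pos (g.l y / g.l y' - algebraMap ℂ K b) := by
  obtain ⟨b, hb, h1⟩ := unit_of h hty hem h0
  obtain ⟨b', hb', h1'⟩ := unit_of h hty hem' h0'
  refine ⟨b / b', div_ne_zero hb hb', ?_⟩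
  have h2 : ch g.l g.x e m = g.l y / g.l y' * ch g.l g.x e' m := by
    have h3 : e = (Pi.single y 1 - Pi.single y' 1) + e' := by rw [← hee]; abel
    have h4 : m = 0 + m := by simp
    have h5 : ch g.l g.x (Pi.single y 1 - Pi.single y' 1) 0 = g.l y / g.l y' := by
      simp only [ch, Pi.zero_apply, zpow_zero, Finset.prod_const_one, mul_one, Pi.sub_apply]
      rw [Finset.prod_congr rfl fun z _ => zpow_sub₀ (l_ne g z) _ _, Finset.prod_div_distrib]
      congr 1
      · rw [Finset.prod_eq_single y]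
        · simp
        · intro z _ hz
          simp [hz]
        · intro h
          exact absurd (Finset.mem_univ _) h
      · rw [Finset.prod_eq_single y']
        · simp
        · intro z _ hz
          simp [hz]
        · intro h
          exact absurd (Finset.mem_univ _) h
    conv_lhs => rw [h3, h4, ch_add, h5]
  have hx' : w.ord (ch g.l g.x e' m) = 0 := by rw [ord_ch hty m hem'.1, h0']
  have h6 : g.l y / g.l y' - algebraMap ℂ K (b / b') =
      (ch g.l g.x e' m)⁻¹ * ((ch g.l g.x e m - algebraMap ℂ K b) -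
        algebraMap ℂ K (b / b') * (ch g.l g.x e' m - algebraMap ℂ K b')) := by
    have h7 := ch_ne g e' m
    have h8 : algebraMap ℂ K (b / b') * algebraMap ℂ K b' = algebraMap ℂ K b := by
      rw [← map_mul, div_mul_cancel₀ _ hb']
    rw [mul_sub (algebraMap ℂ K (b / b')), h8, h2]
    field_simp
    ring
  rw [h6]
  refine w.pos_mul_left (Or.inr ?_) ?_
  · rw [w.ord_inv (ch_ne g e' m), hx', neg_zero]
  · rw [sub_eq_add_neg]
    refine w.pos_add h1 ?_
    rw [← neg_mul, ← map_neg]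
    exact w.pos_mul_left (w.reg_const _) h1'

/-- every divisor over `x` is dominated by a divisor over `P` -/
theorem key (hstep : S_STEP) (hty : S_TY) (hlowx : S_LOWX) (hadd : S_ADD) (hcore : S_CORE)
    (hover : S_OVERP) (honp : S_ONP) (hprim : S_PRIM) (hc : 0 < c) {g : ArrGerm c n K}
    (hk : KltType g) {B : EffDiv g.X} {e : LocEq B g.P} {u : Fin n → ℝ} {η : Fin g.F.q → ℝ}
    (he : IsEq g e u η) (hpos : ∀ w a, IsOverGerm g.P w → IsLogDisc e w a → 0 ≤ a)
    {x : Pt g.X} {e' : LocEq B x} (he' : IsEq g e' u η) {w : DVal K} {a : ℝ}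
    (hw : IsOverGerm x w) (ha : IsLogDisc e' w a) :
    ∃ w0 b, IsOverGerm g.P w0 ∧ IsLogDisc e w0 b ∧ b ≤ a := by
  obtain ⟨v, s, hvs, ht⟩ := hty c n K g w
  obtain ⟨k, hk1, hk2⟩ := ha
  have hA : ∀ i, Psi u (alp g η) (g.F.v i) (g.F.sv i) ≤ 1 := by
    intro i
    obtain ⟨w, -, h⟩ := ray_val hcore honp hc he i
    rw [h]
    linarith [mult_nonneg B w]
  have hnn : ∀ e m, g.F.Mem e m → 0 ≤ vl v s e m := by
    intro e m hem
    rw [← ord_ch hvs m hem.1]
    exact w.ord_nonneg (ch_ne g e m) (reg_of_over hw (ch_mem g hem))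
  obtain ⟨r, E, M, hEM, hind, v1, s1, hi1, hs1, hcase⟩ :=
    hadd c n g.F u (alp g η) g.cone (le_q g) (sum_alp he.1) hA v s ht hnn
  obtain ⟨hl1, hl2⟩ := hlowx c n K g w v s k hvs ht hk1 r E M (fun a => (hEM a).1.1)
    (fun a => unit_of hw hvs (hEM a).1 (hEM a).2) hind
  have hld := ld_eq he' hvs hk1 (a := a) ⟨k, hk1, hk2⟩
  have hle : Psi u (alp g η) v1 s1 ≤ a := by
    rcases hcase with h1 | ⟨h1, h2⟩
    · have h3 : ((∑ y, kap g y * s y : ℤ) : ℝ) + r - 1 ≤ k := by exact_mod_cast hl1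
      linarith
    · have h3 := hl2 fun y y' hy hy' => by
        obtain ⟨e1, e1', m1, a1, a2, a3, a4, a5⟩ := h1 y y' hy hy'
        exact ratio hw hvs a1 a2 a3 a4 a5
      have h4 : ((∑ y, kap g y * s y : ℤ) : ℝ) + r +
          (c - ((Finset.univ.filter fun y => s y ≠ 0).card : ℝ)) - 1 ≤ k := by exact_mod_cast h3
      linarith
  obtain ⟨v2, s2, hi2, ht2, hle2⟩ := step_g hstep hcore hover honp hprim hc he hk v1 s1 hi1 hs1
  obtain ⟨k0, v0, s0, w0, hk0, rfl, rfl, hty0, hov, hcan⟩ :=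
    exists_over hcore hover hprim hi2 ht2
  refine ⟨w0, _, hov, ld_of he hty0 hcan, ?_⟩
  have h1 := hpos w0 _ hov (ld_of he hty0 hcan)
  rw [Psi_smul] at hle2
  have h2 : (1 : ℝ) ≤ ((k0 : ℤ) : ℝ) := by exact_mod_cast hk0
  nlinarith

/-- **Lower semicontinuity at the attractive fixed point.** -/
theorem lsc (hstep : S_STEP) (hty : S_TY) (hlowx : S_LOWX) (hadd : S_ADD) (hcore : S_CORE)
    (hover : S_OVERP) (honp : S_ONP) (hprim : S_PRIM) (hc : 0 < c) {g : ArrGerm c n K}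
    (hk : KltType g) {B : EffDiv g.X} {e : LocEq B g.P} {u : Fin n → ℝ} {η : Fin g.F.q → ℝ}
    (he : IsEq g e u η) {x : Pt g.X} {e' : LocEq B x} (he' : IsEq g e' u η) :
    mld e ≤ mld e' := by
  by_cases h0 : ∃ v a, IsOverGerm g.P v ∧ IsLogDisc e v a ∧ a < 0
  · rw [mld, if_pos h0]
    exact bot_le
  · have hpos : ∀ w a, IsOverGerm g.P w → IsLogDisc e w a → 0 ≤ a := by
      intro w a hw ha
      by_contra hcon
      exact h0 ⟨w, a, hw, ha, not_le.1 hcon⟩
    have hkey := fun w a hw ha => key hstep hty hlowx hadd hcore hover honp hprim hc hk he hpos he'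
      (w := w) (a := a) hw ha
    have h1 : ¬ ∃ v a, IsOverGerm x v ∧ IsLogDisc e' v a ∧ a < 0 := by
      rintro ⟨w, a, hw, ha, hneg⟩
      obtain ⟨w0, b, hw0, hb, hba⟩ := hkey w a hw ha
      linarith [hpos w0 b hw0 hb]
    rw [mld, mld, if_neg h0, if_neg h1]
    refine le_sInf ?_
    rintro _ ⟨w, a, hw, ha, rfl⟩
    obtain ⟨w0, b, hw0, hb, hba⟩ := hkey w a hw ha
    have h2 : sInf {a : EReal | ∃ v r, IsOverGerm g.P v ∧ IsLogDisc e v r ∧ a = (r : EReal)} ≤
        (b : EReal) := sInf_le ⟨w0, b, hw0, hb, rfl⟩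
    exact h2.trans (EReal.coe_le_coe_iff.2 hba)

end Pool.Agent.Helper58K9.AR
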