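import Mathlib
import Pool.Agent.Helper58K9.AR.Acc
import Pool.Agent.Helper58K9.AR.AllA

/-!
# The ACC for minimal log discrepancies of general arrangement varieties

`X ∋ P`: an affine variety of dimension `d` with the action of a torus of dimension `d - c`, of any
complexity `c ≥ 1`, and the attractive fixed point `P`. The rational quotient of `X` by the torus is
`ℙ^c`, and the critical divisor is contained in the union of any number `q` of hyperplanes in general
position (a general arrangement variety). For `c = 1` the hyperplanes are points of `ℙ^1`, and these
are all rational affine varieties with a torus action of complexity one and an attractive fixed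
point: `X` is the spectrum of the algebra of all `f χ^m`, with rational functions `f` on `ℙ^1` and
characters `χ^m`, which are regular along finitely many given invariant prime divisors and along all
other orbit closures of codimension one.

`X` is assumed to be of klt type (`(X, B')` is klt at `P` for some invariant `B' ≥ 0`), and `B ≥ 0`
is an invariant divisor, supported on the given divisors, such that `K_X + B` is `ℝ`-Cartier at `P`.
The minimal log discrepancy is taken over all prime divisors over `X` with centre `P`. All
definitions are in `Pool.Agent.Helper58K9.AR.Defs` (`Fan`, `vl`, `Fan.val`, `Fan.Mem`, `Fan.IsCone`,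
`lf`, `ch`, `ArrGerm`, `ArrGerm.l`, `IsEq`, `KltType`, `arrMlds`) and in the starting files
`H436R3.Fol.Defs`, `H436R3.KT.Defs`, `W497.Mld.Defs` (valuations, `AffVar`, `EffDiv`, `LocEq`,
`IsMld`, `CoeffIn`) and `TH165.ACC.Lau`, `TH165.ACC.Main` (`pr`, `IsDCC`, `IsACC`).

Theorem: for every `d` and every DCC set `Γ` the set of the minimal log discrepancies `m ≥ 0` of
these pairs of dimension `d` with coefficients in `Γ` satisfies the ascending chain condition. There
is no bound on the number of the hyperplanes or of the divisors.
-/

set_option autoImplicit false

namespace Pool.Agent.Helper58K9.AR.ResA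

open Pool.Agent.TH165.ACC Pool.Agent.Helper58K9.AR

/-- **The ACC for minimal log discrepancies of general arrangement varieties.** -/
theorem result (d : ℕ) (Γ : Set ℝ) (hΓ : IsDCC Γ) :
    IsACC {m | ∃ c n, 0 < c ∧ c + n = d ∧ m ∈ arrMlds c n Γ} :=
  arr_acc' d Γ hΓ

end Pool.Agent.Helper58K9.AR.ResA
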