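import Mathlib
import Pool.Agent.Helper58K9.AR.Lsc
import Pool.Agent.Helper58K9.AR.AllL

/-!
# Lower semicontinuity of minimal log discrepancies of general arrangement varieties

`X`: an affine variety of any dimension `c + n` with the action of a torus of dimension `n`, of any
complexity `c ≥ 1`, and the attractive fixed point `P`. The rational quotient of `X` by the torus is
`ℙ^c`, and the critical divisor is contained in the union of any number `q` of hyperplanes in general
position (a general arrangement variety). For `c = 1` the hyperplanes are points of `ℙ^1`, and these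
are all rational affine varieties with a torus action of complexity one and an attractive fixed
point.

`X` is assumed to be of klt type (`(X, B')` is klt at `P` for some invariant `B' ≥ 0`), and `B ≥ 0`
is an invariant divisor such that `K_X + B` is `ℝ`-Cartier; it is not assumed that `(X, B)` is log
canonical. All definitions are in `Pool.Agent.Helper58K9.AR.Defs` (`Fan`, `vl`, `Fan.val`,
`Fan.Mem`, `Fan.IsCone`, `lf`, `ch`, `ArrGerm`, `ArrGerm.l`, `IsEq`, `KltType`),
`Pool.Agent.Helper58K9.AR.Mld` (`mld`) and in the starting files `H436R3.Fol.Defs`,
`H436R3.KT.Defs`, `W497.Mld.Defs` (valuations, `AffVar`, `Pt`, `EffDiv`, `LocEq`, `IsOverGerm`,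
`IsLogDisc`) and `TH165.ACC.Lau` (`pr`).

Theorem: `mld_x (X, B) ≥ mld_P (X, B)` for all closed points `x` of `X`. So the function
`x ↦ mld_x (X, B)` on the closed points is lower semicontinuous at `P`.
-/

set_option autoImplicit false

namespace Pool.Agent.Helper58K9.AR.ResL

open Pool.Agent.H436R3.Fol Pool.Agent.H436R3.KT Pool.Agent.W497.Mld Pool.Agent.Helper58K9.AR

/-- **Lower semicontinuity of minimal log discrepancies at the attractive fixed point of a general
arrangement variety.** -/
theorem result {c n : ℕ} (hc : 0 < c) {K : Type} [Field K] [Algebra ℂ K] (g : ArrGerm c n K)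
    (hk : KltType g) (B : EffDiv g.X) (u : Fin n → ℝ) (η : Fin g.F.q → ℝ) (e : LocEq B g.P)
    (he : IsEq g e u η) (x : Pt g.X) (e' : LocEq B x) (he' : IsEq g e' u η) :
    mld e ≤ mld e' :=
  lsc' hc hk he he'

end Pool.Agent.Helper58K9.AR.ResL
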