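import Pool.Agent.Helper58K9.AR.Base

/-!
# General arrangement varieties: statements of the leaves
-/

set_option autoImplicit false

namespace Pool.Agent.Helper58K9.AR

open Pool.Agent.H436R3.Fol Pool.Agent.H436R3.KT Pool.Agent.W497.Mld MvPolynomial
open Pool.Agent.TH165.ACC (pr)

/-! ### Combinatorics -/

/-- [BDD] the exponents of the `l_y` are bounded by the sum of the orders -/
def S_BDD : Prop := ∀ (n : ℕ) (F : Fan n), F.IsCone → ∃ k : ℕ, ∀ e m, F.Mem e m →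
  ∀ y, e y ≤ k * ∑ i, F.val i e m

/-- [HOR] there is a horizontal interior vector -/
def S_HOR : Prop := ∀ (n : ℕ) (F : Fan n), F.IsCone → ∃ v0 : Fin n → ℤ, ∀ e m, F.Mem e m →
  ∑ i, F.val i e m ≤ pr m v0

/-- [STEP] combinatorial inversion of adjunction -/
def S_STEP : Prop := ∀ (c n : ℕ) (F : Fan n) (u u' : Fin n → ℝ) (α α' : Fin F.q → ℝ),
  F.IsCone → c + 1 ≤ F.q → ∑ y, (1 - α y) = c + 1 → ∑ y, (1 - α' y) = c + 1 →
  (∀ i, Psi u α (F.v i) (F.sv i) ≤ 1) → (∀ i, Psi u' α' (F.v i) (F.sv i) ≤ 1) →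
  (∀ e m, F.Mem e m → ∃ ε : ℝ, 0 < ε ∧ ∀ v s, F.Int v s → Trop c s →
    ε * (vl v s e m : ℝ) ≤ Psi u' α' v s) →
  ∀ v s, F.Int v s → (∀ y, 0 ≤ s y) →
    ∃ v' s', F.Int v' s' ∧ Trop c s' ∧ Psi u α v' s' ≤ Psi u α v s

/-- `m` is the combinatorial minimal log discrepancy of a cone with coefficients in `Γ` -/
def IsComb (c : ℕ) {n : ℕ} (F : Fan n) (Γ : Set ℝ) (m : ℝ) : Prop :=
  F.IsCone ∧ c + 1 ≤ F.q ∧ ∃ (u : Fin n → ℝ) (α : Fin F.q → ℝ), ∑ y, (1 - α y) = c + 1 ∧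
    (∀ i, ∃ b : ℝ, 0 ≤ b ∧ (b ≠ 0 → b ∈ Γ) ∧ Psi u α (F.v i) (F.sv i) = 1 - b) ∧
    (∃ v s, F.Int v s ∧ Trop c s ∧ Psi u α v s = m) ∧
    ∀ v s, F.Int v s → (∀ y, 0 ≤ s y) → m ≤ Psi u α v s

/-- abstract profiles: the minimum is attained at `∑ x_j E_j`, the vectors `E_j` have the values
`a_j` and the components `M_j` -/
def prof (r s : ℕ) (D : Set ℝ) : Set ℝ :=
  {m | ∃ (a : Fin r → ℝ) (M : Fin r → Fin s → ℤ) (x : Fin r → ℝ),
    (∀ j, 1 - a j ∈ D) ∧ (∀ j i, -1 ≤ M j i) ∧ (∀ j, 0 < x j) ∧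
    (∃ L : ℕ, 0 < L ∧ ∀ j, ∃ z : ℤ, (L : ℝ) * x j = z) ∧
    (∀ i, ∃ z : ℕ, ∑ j, x j * (M j i : ℝ) = z) ∧ m = ∑ j, x j * a j ∧
    ∀ x' : Fin r → ℝ, (∀ j, 0 < x' j) →
      (∃ (k : ℤ) (l : Fin r → ℤ), ∀ j, x' j = k * x j + l j) →
      (∀ i, 0 ≤ ∑ j, x' j * (M j i : ℝ)) → m ≤ ∑ j, x' j * a j}

/-- [REP] the minimum as a combination of boundedly many vectors -/
def S_REP : Prop := ∀ (c n : ℕ) (Γ : Set ℝ), Pool.Agent.TH165.ACC.IsDCC Γ → ∃ R : ℕ,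
  ∀ (F : Fan n) (m : ℝ), 0 ≤ m → IsComb c F Γ m →
    ∃ r ≤ R, ∃ s ≤ R, m ∈ prof r s (insert 0 (insert ((s : ℝ) - c) Γ))

/-- [LIM] the ascending chain condition for profiles -/
def S_LIM : Prop := ∀ (r s : ℕ) (D : Set ℝ), Pool.Agent.TH165.ACC.IsDCC D →
  Pool.Agent.TH165.ACC.IsACC (prof r s D)

/-! ### Geometry -/

/-- [LIN] every linear form is a combination of `c + 1` of them -/
def S_LIN : Prop := ∀ (c n : ℕ) (K : Type) [Field K] [Algebra ℂ K] (g : ArrGerm c n K)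
  (J : Fin (c + 1) → Fin g.F.q), Function.Injective J → ∀ y, ∃ β : Fin (c + 1) → ℂ,
    g.l y = ∑ i, algebraMap ℂ K (β i) * g.l (J i) ∧ (y ∉ Set.range J → ∀ i, β i ≠ 0)

/-- [COORD] torus coordinates -/
def S_COORD : Prop := ∀ (c n : ℕ) (K : Type) [Field K] [Algebra ℂ K] (g : ArrGerm c n K)
  (J : Fin (c + 1) → Fin g.F.q), Function.Injective J →
    (∀ p : MvPolynomial (Fin (c + n)) ℂ, aeval (coJ g J) p = 0 → p = 0) ∧
    ∀ f : K, ∃ a b : MvPolynomial (Fin (c + n)) ℂ, aeval (coJ g J) b ≠ 0 ∧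
      f * aeval (coJ g J) b = aeval (coJ g J) a

/-- [DETJ] the Jacobian of the coordinates -/
def S_DETJ : Prop := ∀ (c n : ℕ) (K : Type) [Field K] [Algebra ℂ K] (g : ArrGerm c n K)
  (J : Fin (c + 1) → Fin g.F.q), Function.Injective J → ∃ lam : ℂ, lam ≠ 0 ∧
    (Matrix.of fun j k : Fin (c + n) => g.X.T.D (g.e.symm j) (coJ g J k)).det =
      algebraMap ℂ K lam * (∏ k, coJ g J k) * (∏ i, g.l (g.J0 i)) / ∏ i, g.l (J i)

/-- [TY] every valuation has a tropical type -/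
def S_TY : Prop := ∀ (c n : ℕ) (K : Type) [Field K] [Algebra ℂ K] (g : ArrGerm c n K)
  (w : DVal K), ∃ v s, IsTy g w v s ∧ Trop c s

/-- [LOW] lower bound for the canonical order -/
def S_LOW : Prop := ∀ (c n : ℕ) (K : Type) [Field K] [Algebra ℂ K] (g : ArrGerm c n K)
  (w : DVal K) (v : Fin n → ℤ) (s : Fin g.F.q → ℤ) (k : ℤ), IsTy g w v s → Trop c s →
    IsCanOrd g.X.T w k → ∑ y, kap g y * s y - 1 ≤ k

/-- the algebra of the characters with a non-negative value at `(v, s)` -/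
noncomputable def HSA {c n : ℕ} {K : Type} [Field K] [Algebra ℂ K] (g : ArrGerm c n K)
    (v : Fin n → ℤ) (s : Fin g.F.q → ℤ) : Subalgebra ℂ K :=
  Algebra.adjoin ℂ {f | ∃ e m, ∑ y, e y = 0 ∧ 0 ≤ vl v s e m ∧ f = ch g.l g.x e m}

open Pool.Agent.TH165.ACC (ex) in
/-- [TCAN] monomial valuations in torus coordinates `y`: existence, local ring, canonical order with
respect to any basis of the vector fields -/
def S_TCAN : Prop := ∀ (N : ℕ) (K : Type) [Field K] [Algebra ℂ K] (d : ℕ) (T : Foliation K d)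
  (e : Fin d ≃ Fin N) (y : Fin N → K) (W : Fin N → ℤ), T.space = ⊤ →
  (∀ p : MvPolynomial (Fin N) ℂ, aeval y p = 0 → p = 0) →
  (∀ f : K, ∃ a b : MvPolynomial (Fin N) ℂ, aeval y b ≠ 0 ∧ f * aeval y b = aeval y a) →
  (∃ m, pr m W = 1) →
  ∃ (w : DVal K) (S : Subalgebra ℂ K), S.FG ∧ IsLocalRing' S w ∧
    S ≤ Algebra.adjoin ℂ {f | ∃ m : Fin N → ℤ, 0 ≤ pr m W ∧ f = ∏ k, y k ^ m k} ∧
    (∀ k, w.ord (y k) = W k) ∧
    (∀ p : MvPolynomial (Fin N) ℂ, p ≠ 0 →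
      (∃ s ∈ p.support, w.ord (aeval y p) = pr (ex s) W) ∧
        ∀ s ∈ p.support, w.ord (aeval y p) ≤ pr (ex s) W) ∧
    (Matrix.of fun j k : Fin N => T.D (e.symm j) (y k)).det ≠ 0 ∧
    IsCanOrd T w (∑ k, W k - 1 - w.ord (Matrix.of fun j k : Fin N => T.D (e.symm j) (y k)).det)

/-- [CORE] the divisor of a primitive tropical vector -/
def S_CORE : Prop := ∀ (c n : ℕ) (K : Type) [Field K] [Algebra ℂ K] (g : ArrGerm c n K)
  (v : Fin n → ℤ) (s : Fin g.F.q → ℤ), Trop c s →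
  (∃ e m, ∑ y, e y = 0 ∧ vl v s e m = 1) →
  ∃ (w : DVal K) (S : Subalgebra ℂ K), S.FG ∧ IsLocalRing' S w ∧ S ≤ HSA g v s ∧ IsTy g w v s ∧
    IsCanOrd g.X.T w (∑ y, kap g y * s y - 1)

/-- [OVERP] divisors of interior vectors are divisors over the germ -/
def S_OVERP : Prop := ∀ (c n : ℕ) (K : Type) [Field K] [Algebra ℂ K] (g : ArrGerm c n K)
  (v : Fin n → ℤ) (s : Fin g.F.q → ℤ) (w : DVal K) (S : Subalgebra ℂ K), IsTy g w v s →
  g.F.Int v s → S.FG → IsLocalRing' S w → IsOverGerm g.P w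

/-- [INT] the type of a divisor over the germ is interior -/
def S_INT : Prop := ∀ (c n : ℕ) (K : Type) [Field K] [Algebra ℂ K] (g : ArrGerm c n K)
  (v : Fin n → ℤ) (s : Fin g.F.q → ℤ) (w : DVal K), IsTy g w v s → IsOverGerm g.P w →
  g.F.Int v s

/-- [ONP] the divisors of the edges are prime divisors on `X` through `P` -/
def S_ONP : Prop := ∀ (c n : ℕ) (K : Type) [Field K] [Algebra ℂ K] (g : ArrGerm c n K)
  (i : Fin g.F.N) (w : DVal K) (S : Subalgebra ℂ K), IsTy g w (g.F.v i) (g.F.sv i) →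
  S ≤ HSA g (g.F.v i) (g.F.sv i) → IsLocalRing' S w → OnAt g.P w

/-- [PRIM] tropical vectors are multiples of primitive ones -/
def S_PRIM : Prop := ∀ (c q n : ℕ) (v : Fin n → ℤ) (s : Fin q → ℤ), Trop c s → c < q →
  (∃ e m, ∑ y, e y = 0 ∧ vl v s e m ≠ 0) →
  ∃ (k : ℕ) (v0 : Fin n → ℤ) (s0 : Fin q → ℤ), 0 < k ∧ v = (k : ℤ) • v0 ∧ s = (k : ℤ) • s0 ∧
    Trop c s0 ∧ ∃ e m, ∑ y, e y = 0 ∧ vl v0 s0 e m = 1

end Pool.Agent.Helper58K9.AR
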